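import Mathlib
import Pool.Agent.H69.AMU.Rep

set_option autoImplicit false

/-! # The function model of the path space

Functions on finite sets of sites `0, 1, 2, ...` (occupied sites).  `cap A g` is the cup-cap
operator at the sites `g, g+1`; `low j` lowers the weight on the first `j` sites, `put j` occupies
the site `j`.  `vec p j` is the image of the first `j` steps of a fusion path. -/

namespace Pool.Agent.H61.KR

open Pool.Agent.H69.AMU Pool.Agent.H69.AMU.FusionPath

/-- Functions on the finite sets of sites. -/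
abbrev Fn : Type := Finset ℕ → ℂ

/-- Exchange `g` and `g + 1` in a set. -/
def sw (g : ℕ) (S : Finset ℕ) : Finset ℕ := S.map (Equiv.swap g (g + 1)).toEmbedding

/-- The cup-cap operator. -/
noncomputable def cap (A : ℂ) (g : ℕ) (F : Fn) : Fn := fun S =>
  if g ∈ S ∧ g + 1 ∉ S then (A ^ 2)⁻¹ * (F (sw g S) - F S)
  else if g ∉ S ∧ g + 1 ∈ S then A ^ 2 * (F (sw g S) - F S)
  else 0

/-- The lowering operator on the sites `0, ..., j-1`. -/
noncomputable def low (A : ℂ) (j : ℕ) (F : Fn) : Fn := fun S =>
  if S ⊆ Finset.range j then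
    ∑ p ∈ S, A ^ (4 * (S.filter (fun i => i < p)).card) * F (S.erase p)
  else 0

/-- Occupy the site `j`. -/
noncomputable def put (j : ℕ) (F : Fn) : Fn := fun S => if j ∈ S then F (S.erase j) else 0

/-- The raising operator on the sites `0, ..., j-1`, `v = A ^ (-4)`. -/
noncomputable def rai (A : ℂ) (j : ℕ) (F : Fn) : Fn := fun S =>
  ∑ p ∈ (Finset.range j).filter (fun p => p ∉ S),
    ((A ^ 4)⁻¹) ^ (p + (S.filter (fun i => p < i)).card) * F (insert p S)

/-- `F` is supported on subsets of `{0, ..., N-1}` with `l` elements. -/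
def Homog (N l : ℕ) (F : Fn) : Prop := ∀ S, F S ≠ 0 → S ⊆ Finset.range N ∧ S.card = l

/-- The normalisation of the steps. -/
noncomputable def ph (A : ℂ) : ℕ → ℂ
  | 0 => 1
  | 1 => 1
  | (a + 2) => ph A a * unknot A (a + 1) / unknot A (a + 2)

/-- One step of a path at the site `j`, from the label `a` to the label `b` (`= a + 1` or `a - 1`). -/
noncomputable def stp (A : ℂ) (j a b : ℕ) (F : Fn) : Fn :=
  if b = a + 1 then ph A b • F
  else ph A b • ((((-1) ^ b / unknot A b) : ℂ) • low A j F - A ^ (2 * j + 2) • put j F)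

/-- The indicator of the empty set. -/
noncomputable def vac : Fn := fun S => if S = ∅ then 1 else 0

/-- The function of the first `j` steps of a path. -/
noncomputable def vec {n c L : ℕ} (A : ℂ) (p : FusionPath n c L) : ℕ → Fn
  | 0 => vac
  | (j + 1) => stp A j (p.lab j) (p.lab (j + 1)) (vec A p j)

end Pool.Agent.H61.KR
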