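import Mathlib
import Pool.Agent.H61.KR.FDefs

set_option autoImplicit false

/-! # Linearity and supports -/

namespace Pool.Agent.H61.KR

open Pool.Agent.H69.AMU

lemma mem_sw {g x : ℕ} {S : Finset ℕ} : x ∈ sw g S ↔ Equiv.swap g (g + 1) x ∈ S := by
  simp [sw, Finset.mem_map_equiv]

lemma sw_sw (g : ℕ) (S : Finset ℕ) : sw g (sw g S) = S := by
  ext x; simp [mem_sw]

lemma card_sw (g : ℕ) (S : Finset ℕ) : (sw g S).card = S.card := Finset.card_map _

lemma cap_add (A : ℂ) (g : ℕ) (F G : Fn) : cap A g (F + G) = cap A g F + cap A g G := by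
  funext S; simp only [cap, Pi.add_apply]; split_ifs <;> ring

lemma cap_sub (A : ℂ) (g : ℕ) (F G : Fn) : cap A g (F - G) = cap A g F - cap A g G := by
  funext S; simp only [cap, Pi.sub_apply]; split_ifs <;> ring

lemma cap_smul (A : ℂ) (g : ℕ) (c : ℂ) (F : Fn) : cap A g (c • F) = c • cap A g F := by
  funext S; simp only [cap, Pi.smul_apply, smul_eq_mul]; split_ifs <;> ring

lemma low_add (A : ℂ) (j : ℕ) (F G : Fn) : low A j (F + G) = low A j F + low A j G := by
  funext S; simp only [low, Pi.add_apply]; split_ifs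
  · rw [← Finset.sum_add_distrib]; exact Finset.sum_congr rfl fun p _ => by ring
  · ring

lemma low_sub (A : ℂ) (j : ℕ) (F G : Fn) : low A j (F - G) = low A j F - low A j G := by
  funext S; simp only [low, Pi.sub_apply]; split_ifs
  · rw [← Finset.sum_sub_distrib]; exact Finset.sum_congr rfl fun p _ => by ring
  · ring

lemma low_smul (A : ℂ) (j : ℕ) (c : ℂ) (F : Fn) : low A j (c • F) = c • low A j F := by
  funext S; simp only [low, Pi.smul_apply, smul_eq_mul]; split_ifs
  · rw [Finset.mul_sum]; exact Finset.sum_congr rfl fun p _ => by ring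
  · ring

lemma put_add (j : ℕ) (F G : Fn) : put j (F + G) = put j F + put j G := by
  funext S; simp only [put, Pi.add_apply]; split_ifs <;> ring

lemma put_sub (j : ℕ) (F G : Fn) : put j (F - G) = put j F - put j G := by
  funext S; simp only [put, Pi.sub_apply]; split_ifs <;> ring

lemma put_smul (j : ℕ) (c : ℂ) (F : Fn) : put j (c • F) = c • put j F := by
  funext S; simp only [put, Pi.smul_apply, smul_eq_mul]; split_ifs <;> ring

lemma rai_add (A : ℂ) (j : ℕ) (F G : Fn) : rai A j (F + G) = rai A j F + rai A j G := by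
  funext S; simp only [rai, Pi.add_apply]
  rw [← Finset.sum_add_distrib]; exact Finset.sum_congr rfl fun p _ => by ring

lemma rai_smul (A : ℂ) (j : ℕ) (c : ℂ) (F : Fn) : rai A j (c • F) = c • rai A j F := by
  funext S; simp only [rai, Pi.smul_apply, smul_eq_mul]
  rw [Finset.mul_sum]; exact Finset.sum_congr rfl fun p _ => by ring

lemma stp_add (A : ℂ) (j a b : ℕ) (F G : Fn) : stp A j a b (F + G) = stp A j a b F + stp A j a b G := by
  unfold stp; split_ifs
  · rw [smul_add]
  · rw [low_add, put_add]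
    funext S
    simp only [Pi.smul_apply, Pi.add_apply, Pi.sub_apply, smul_eq_mul]
    ring

lemma stp_smul (A : ℂ) (j a b : ℕ) (c : ℂ) (F : Fn) : stp A j a b (c • F) = c • stp A j a b F := by
  unfold stp; split_ifs
  · rw [smul_comm]
  · rw [low_smul, put_smul, smul_comm _ c (low A j F), smul_comm _ c (put j F), ← smul_sub, smul_comm]

lemma Homog.add {N l : ℕ} {F G : Fn} (hF : Homog N l F) (hG : Homog N l G) : Homog N l (F + G) := by
  intro S hS
  by_cases h : F S = 0
  · have : G S ≠ 0 := by intro h'; exact hS (by simp [h, h'])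
    exact hG S this
  · exact hF S h

lemma Homog.smul {N l : ℕ} {F : Fn} (c : ℂ) (hF : Homog N l F) : Homog N l (c • F) := by
  intro S hS
  exact hF S (by intro h; exact hS (by simp [h]))

lemma Homog.sub {N l : ℕ} {F G : Fn} (hF : Homog N l F) (hG : Homog N l G) : Homog N l (F - G) := by
  intro S hS
  by_cases h : F S = 0
  · have : G S ≠ 0 := by intro h'; exact hS (by simp [h, h'])
    exact hG S this
  · exact hF S h

lemma Homog.mono {N N' l : ℕ} {F : Fn} (h : N ≤ N') (hF : Homog N l F) : Homog N' l F := fun S hS =>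
  ⟨(hF S hS).1.trans (Finset.range_mono h), (hF S hS).2⟩

lemma Homog.eq_zero {N l : ℕ} {F : Fn} (hF : Homog N l F) {S : Finset ℕ}
    (h : ¬ (S ⊆ Finset.range N ∧ S.card = l)) : F S = 0 := by
  by_contra h'
  exact h (hF S h')

lemma homog_vac : Homog 0 0 vac := by
  intro S hS
  by_cases h : S = ∅
  · subst h; simp
  · exact absurd (by simp [vac, h]) hS

/-- Proof: if `low A j F S ≠ 0` then `S ⊆ range j` and some `F (S.erase p) ≠ 0` with `p ∈ S`. -/
lemma Homog.low {N l : ℕ} {A : ℂ} {F : Fn} (hF : Homog N l F) : Homog N (l + 1) (low A N F) := by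
  intro S hS
  unfold KR.low at hS
  split_ifs at hS with h
  · obtain ⟨p, hp, hp'⟩ := Finset.exists_ne_zero_of_sum_ne_zero hS
    have h2 := hF (S.erase p) (fun h0 => hp' (by rw [h0, mul_zero]))
    refine ⟨h, ?_⟩
    rw [← h2.2, Finset.card_erase_add_one hp]
  · exact absurd rfl hS

lemma Homog.put {N l j : ℕ} {F : Fn} (hF : Homog N l F) (hj : N ≤ j) :
    Homog (j + 1) (l + 1) (put j F) := by
  intro S hS
  unfold KR.put at hS
  split_ifs at hS with h
  · have h2 := hF _ hS
    refine ⟨?_, ?_⟩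
    · intro x hx
      by_cases hxj : x = j
      · simp [hxj]
      · have := Finset.mem_range.1 (h2.1 (Finset.mem_erase.2 ⟨hxj, hx⟩))
        rw [Finset.mem_range]; omega
    · rw [← h2.2, Finset.card_erase_add_one h]
  · exact absurd rfl hS

lemma Homog.stp {l j a b : ℕ} {A : ℂ} {F : Fn} (hF : Homog j l F) (h : a = b + 1) :
    Homog (j + 1) (l + 1) (stp A j a b F) := by
  unfold KR.stp
  rw [if_neg (by omega)]
  exact ((hF.low.mono (Nat.le_succ j)).smul _ |>.sub ((hF.put le_rfl).smul _)).smul _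

lemma Homog.stp' {l j a b : ℕ} {A : ℂ} {F : Fn} (hF : Homog j l F) (h : b = a + 1) :
    Homog (j + 1) l (KR.stp A j a b F) := by
  unfold KR.stp
  rw [if_pos h]
  exact (hF.mono (Nat.le_succ j)).smul _

/-- The degree of the function of a path. -/
lemma homog_vec {n c L : ℕ} (A : ℂ) (p : FusionPath n c L) (j : ℕ) (hj : j ≤ n) :
    ∃ l, 2 * l + p.lab j = j ∧ Homog j l (vec A p j) := by
  induction j with
  | zero => exact ⟨0, by rw [p.lab_zero], homog_vac⟩
  | succ j ih =>
    obtain ⟨l, h1, h2⟩ := ih (by omega)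
    rcases p.lab_step (by omega : j < n) with h | h
    · exact ⟨l, by omega, h2.stp' h⟩
    · exact ⟨l + 1, by omega, h2.stp h⟩

/-! Unknot values -/

lemma unknot_add (A : ℂ) (hA : A ≠ 0) (a : ℕ) :
    unknot A (a + 1) + A ^ 2 * unknot A a = (-1) ^ (a + 1) * ((A ^ 2)⁻¹) ^ (a + 1) := by
  induction a with
  | zero => simp only [unknot, zero_add, pow_one, mul_one]; ring
  | succ a ih =>
    have h2 : unknot A (a + 1 + 1) = (-A ^ 2 - (A ^ 2)⁻¹) * unknot A (a + 1) - unknot A a := rfl
    rw [h2]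
    have h3 : (-A ^ 2 - (A ^ 2)⁻¹) * unknot A (a + 1) - unknot A a + A ^ 2 * unknot A (a + 1)
        = -(A ^ 2)⁻¹ * (unknot A (a + 1) + A ^ 2 * unknot A a) := by
      field_simp
      ring
    rw [h3, ih]
    ring

lemma unknot_geom (A : ℂ) (hA : A ≠ 0) (a : ℕ) :
    (-1) ^ a * (A ^ 2) ^ a * unknot A a = ∑ i ∈ Finset.range (a + 1), (A ^ 4) ^ i := by
  induction a with
  | zero => simp [unknot]
  | succ a ih =>
    have h := unknot_add A hA a
    have h2 : unknot A (a + 1) = (-1) ^ (a + 1) * ((A ^ 2)⁻¹) ^ (a + 1) - A ^ 2 * unknot A a := by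
      rw [← h]; ring
    rw [Finset.sum_range_succ', h2]
    have h3 : ∑ i ∈ Finset.range (a + 1), (A ^ 4) ^ (i + 1)
        = A ^ 4 * ∑ i ∈ Finset.range (a + 1), (A ^ 4) ^ i := by
      rw [Finset.mul_sum]; exact Finset.sum_congr rfl fun i _ => by ring
    rw [h3, ← ih]
    have h4 : ((-1 : ℂ)) ^ (a + 1) * (-1) ^ (a + 1) = 1 := by rw [← mul_pow]; norm_num
    have h5 : (A ^ 2) ^ (a + 1) * ((A ^ 2)⁻¹) ^ (a + 1) = 1 := by
      rw [← mul_pow, mul_inv_cancel₀ (pow_ne_zero 2 hA), one_pow]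
    calc (-1 : ℂ) ^ (a + 1) * (A ^ 2) ^ (a + 1) *
          ((-1) ^ (a + 1) * ((A ^ 2)⁻¹) ^ (a + 1) - A ^ 2 * unknot A a)
        = ((-1) ^ (a + 1) * (-1) ^ (a + 1)) * ((A ^ 2) ^ (a + 1) * ((A ^ 2)⁻¹) ^ (a + 1))
          + A ^ 4 * ((-1) ^ a * (A ^ 2) ^ a * unknot A a) := by ring
      _ = A ^ 4 * ((-1) ^ a * (A ^ 2) ^ a * unknot A a) + (A ^ 4) ^ 0 := by
          rw [h4, h5]; ring

end Pool.Agent.H61.KR
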