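import Mathlib
import Pool.Agent.H61.KR.FLin

set_option autoImplicit false

/-! # `low` and `put` commute with `cap` below -/

namespace Pool.Agent.H61.KR

open Pool.Agent.H69.AMU

private lemma sw_erase {g x : ℕ} {S : Finset ℕ} :
    sw g (S.erase x) = (sw g S).erase (Equiv.swap g (g + 1) x) := by
  ext y
  rw [mem_sw, Finset.mem_erase, Finset.mem_erase, mem_sw]
  refine and_congr ?_ Iff.rfl
  constructor
  · intro h h'
    apply h
    rw [h', Equiv.swap_apply_self]
  · intro h h'
    apply h
    rw [← h', Equiv.swap_apply_self]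

private lemma swap_ne {g x : ℕ} (h1 : x ≠ g) (h2 : x ≠ g + 1) : Equiv.swap g (g + 1) x = x :=
  Equiv.swap_apply_of_ne_of_ne h1 h2

private lemma g_mem_sw {g : ℕ} {S : Finset ℕ} : g ∈ sw g S ↔ g + 1 ∈ S := by
  rw [mem_sw, Equiv.swap_apply_left]

private lemma g1_mem_sw {g : ℕ} {S : Finset ℕ} : g + 1 ∈ sw g S ↔ g ∈ S := by
  rw [mem_sw, Equiv.swap_apply_right]

private lemma mem_sw_ne {g x : ℕ} {S : Finset ℕ} (h1 : x ≠ g) (h2 : x ≠ g + 1) :
    x ∈ sw g S ↔ x ∈ S := by
  rw [mem_sw, swap_ne h1 h2]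

private lemma sw_of_not_mem {g : ℕ} {S : Finset ℕ} (h1 : g ∉ S) (h2 : g + 1 ∉ S) :
    sw g S = S := by
  ext x
  by_cases hx : x = g
  · subst hx
    rw [g_mem_sw]
    exact iff_of_false h2 h1
  · by_cases hx2 : x = g + 1
    · subst hx2
      rw [g1_mem_sw]
      exact iff_of_false h1 h2
    · exact mem_sw_ne hx hx2

private lemma sw_subset {g j : ℕ} (h : g + 1 < j) {S : Finset ℕ} :
    sw g S ⊆ Finset.range j ↔ S ⊆ Finset.range j := by
  have key : ∀ T : Finset ℕ, T ⊆ Finset.range j → sw g T ⊆ Finset.range j := by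
    intro T hT x hx
    rw [mem_sw] at hx
    have h1 := Finset.mem_range.1 (hT hx)
    rw [Finset.mem_range]
    by_cases hx1 : x = g
    · omega
    · by_cases hx2 : x = g + 1
      · omega
      · rwa [swap_ne hx1 hx2] at h1
  constructor
  · intro h1
    have := key _ h1
    rwa [sw_sw] at this
  · exact key S

/-- Proof: `funext S`. `j ∈ sw g S ↔ j ∈ S` and `sw g (S.erase j) = (sw g S).erase j` for
`g + 1 < j`, and `g ∈ S.erase j ↔ g ∈ S`, `g+1 ∈ S.erase j ↔ g+1 ∈ S`; cases. -/
lemma put_cap (A : ℂ) (g j : ℕ) (h : g + 1 < j) (F : Fn) :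
    put j (cap A g F) = cap A g (put j F) := by
  funext S
  have h1 : j ∈ sw g S ↔ j ∈ S := mem_sw_ne (by omega) (by omega)
  have h2 : sw g (S.erase j) = (sw g S).erase j := by
    rw [sw_erase, swap_ne (by omega) (by omega)]
  have h3 : g ∈ S.erase j ↔ g ∈ S := by
    rw [Finset.mem_erase]
    exact ⟨fun h => h.2, fun h' => ⟨by omega, h'⟩⟩
  have h4 : g + 1 ∈ S.erase j ↔ g + 1 ∈ S := by
    rw [Finset.mem_erase]
    exact ⟨fun h => h.2, fun h' => ⟨by omega, h'⟩⟩
  simp only [put, cap, h1, h2, h3, h4]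
  by_cases hj : j ∈ S
  · simp only [if_pos hj]
  · simp only [if_neg hj, sub_self, mul_zero, ite_self]

/-- the number of the elements below `p` -/
private def cnt (S : Finset ℕ) (p : ℕ) : ℕ := (S.filter (fun i => i < p)).card

private lemma cnt_sw {g p : ℕ} (hp : p ≠ g + 1) (S : Finset ℕ) : cnt (sw g S) p = cnt S p := by
  have e : (sw g S).filter (fun i => i < p) = sw g (S.filter (fun i => i < p)) := by
    ext x
    rw [Finset.mem_filter, mem_sw, mem_sw, Finset.mem_filter]
    refine and_congr Iff.rfl ?_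
    by_cases hx1 : x = g
    · subst hx1
      rw [Equiv.swap_apply_left]
      omega
    · by_cases hx2 : x = g + 1
      · subst hx2
        rw [Equiv.swap_apply_right]
        omega
      · rw [swap_ne hx1 hx2]
  unfold cnt
  rw [e, card_sw]

private lemma cnt_succ_of_not_mem {g : ℕ} {S : Finset ℕ} (h : g ∉ S) :
    cnt S (g + 1) = cnt S g := by
  unfold cnt
  congr 1
  ext x
  rw [Finset.mem_filter, Finset.mem_filter]
  refine and_congr_right fun hx => ?_
  have : x ≠ g := fun e => h (e ▸ hx)
  omega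

private lemma cnt_succ_of_mem {g : ℕ} {S : Finset ℕ} (h : g ∈ S) :
    cnt S (g + 1) = cnt S g + 1 := by
  unfold cnt
  have e : S.filter (fun i => i < g + 1) = insert g (S.filter (fun i => i < g)) := by
    ext x
    rw [Finset.mem_insert, Finset.mem_filter, Finset.mem_filter]
    constructor
    · rintro ⟨h1, h2⟩
      by_cases hx : x = g
      · exact Or.inl hx
      · exact Or.inr ⟨h1, by omega⟩
    · rintro (rfl | ⟨h1, h2⟩)
      · exact ⟨h, by omega⟩
      · exact ⟨h1, by omega⟩
  rw [e, Finset.card_insert_of_notMem]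
  rw [Finset.mem_filter]
  rintro ⟨_, h2⟩
  omega

/-- the sum in the lowering operator -/
private noncomputable def sm (A : ℂ) (F : Fn) (S : Finset ℕ) : ℂ :=
  ∑ p ∈ S, A ^ (4 * cnt S p) * F (S.erase p)

/-- exactly one of the sites is occupied: `x` is this site, `x'` the other one -/
private lemma sm_sw (A : ℂ) (F : Fn) (g : ℕ) (S : Finset ℕ) (x : ℕ) (hx : x ∈ S)
    (hx' : (x = g ∧ g + 1 ∉ S) ∨ (x = g + 1 ∧ g ∉ S)) :
    sm A F (sw g S) - sm A F S =
      ∑ p ∈ S.erase x, A ^ (4 * cnt S p) * (F ((sw g S).erase p) - F (S.erase p)) := by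
  have e1 : sm A F (sw g S) = ∑ p ∈ S, A ^ (4 * cnt (sw g S) (Equiv.swap g (g + 1) p)) *
      F ((sw g S).erase (Equiv.swap g (g + 1) p)) := by
    unfold sm
    conv_lhs => rw [sw]
    rw [Finset.sum_map]
    rfl
  have hfix : ∀ p ∈ S.erase x, p ≠ g ∧ p ≠ g + 1 := by
    intro p hp
    rw [Finset.mem_erase] at hp
    rcases hx' with ⟨h1, h2⟩ | ⟨h1, h2⟩
    · exact ⟨fun e => hp.1 (e.trans h1.symm), fun e => h2 (e ▸ hp.2)⟩
    · exact ⟨fun e => h2 (e ▸ hp.2), fun e => hp.1 (e.trans h1.symm)⟩
  have e2 : cnt (sw g S) (Equiv.swap g (g + 1) x) = cnt S x := by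
    rcases hx' with ⟨h1, h2⟩ | ⟨h1, h2⟩
    · subst h1
      rw [Equiv.swap_apply_left, cnt_succ_of_not_mem (by rw [g_mem_sw]; exact h2),
        cnt_sw (by omega)]
    · subst h1
      rw [Equiv.swap_apply_right, cnt_sw (by omega), cnt_succ_of_not_mem h2]
  have e3 : (sw g S).erase (Equiv.swap g (g + 1) x) = S.erase x := by
    rw [← sw_erase]
    apply sw_of_not_mem
    · intro h
      exact (hfix g h).1 rfl
    · intro h
      exact (hfix (g + 1) h).2 rfl
  rw [e1, sm, ← Finset.add_sum_erase _ _ hx, ← Finset.add_sum_erase S _ hx, e2, e3,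
    add_sub_add_left_eq_sub, ← Finset.sum_sub_distrib]
  refine Finset.sum_congr rfl fun p hp => ?_
  obtain ⟨p1, p2⟩ := hfix p hp
  rw [swap_ne p1 p2, cnt_sw p2, mul_sub]

/-- Proof: `funext S`. If `S` is not contained in `range j` then neither is `sw g S`, both sides
are `0` (in the second form of `cap` the values of `low A j F` at `S` and `sw g S` are `0`).
Let `S ⊆ range j`, `w p S = A ^ (4 #{i ∈ S, i < p})`.
* `g, g+1 ∉ S`: both sides `0` (for `p ∈ S` also `g, g+1 ∉ S.erase p`).
* `g, g+1 ∈ S`: right side `0`; left side: only `p = g` and `p = g+1` contribute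
  (for the other `p` both sites stay occupied): with `k = #{i ∈ S, i < g}`,
  `w g S = A^(4k)`, `w (g+1) S = A^(4k+4)`, `S.erase g` and `S.erase (g+1)` are exchanged by `sw g`;
  `A^(4k) * A^2 * (F (S.erase (g+1)) - F (S.erase g)) + A^(4k+4) * A⁻² * (F (S.erase g) -
  F (S.erase (g+1))) = 0`.
* `g ∈ S`, `g+1 ∉ S`, `S' = sw g S`: right side
  `A⁻² (low F S' - low F S)`. The terms `p ≠ g` of `low F S` and `p ≠ g+1` of `low F S'`
  correspond (same weights: `#{i ∈ S, i < p} = #{i ∈ S', i < p}` for `p ≠ g, g+1`, and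
  `sw g (S.erase p) = S'.erase p`); the terms `p = g` of `S` and `p = g+1` of `S'` are equal
  (`S.erase g = S'.erase (g+1)`, weights `A^(4k)` both as `g ∉ S'`); so the right side is
  `A⁻² Σ_{p ∈ S, p ≠ g} w p S (F (S'.erase p) - F (S.erase p))`.  Left side: `p = g` gives
  `cap F (S.erase g) = 0` (both sites free), the others give the same sum.
* `g ∉ S`, `g+1 ∈ S`: the same with `A^2`. -/
lemma low_cap (A : ℂ) (hA : A ≠ 0) (g j : ℕ) (h : g + 1 < j) (F : Fn) :
    low A j (cap A g F) = cap A g (low A j F) := by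
  have hlow : ∀ (G : Fn) (S : Finset ℕ), low A j G S = if S ⊆ Finset.range j then sm A G S else 0 :=
    fun G S => rfl
  funext S
  by_cases hS : S ⊆ Finset.range j
  · have hS' : sw g S ⊆ Finset.range j := (sw_subset h).2 hS
    rw [hlow, if_pos hS]
    by_cases h1 : g ∈ S
    · by_cases h2 : g + 1 ∈ S
      · -- both
        have hr : cap A g (low A j F) S = 0 := by
          rw [cap, if_neg (fun h => h.2 h2), if_neg (fun h => h.1 h1)]
        rw [hr, sm, ← Finset.add_sum_erase _ _ h1,
          ← Finset.add_sum_erase (S.erase g) _ (Finset.mem_erase.2 ⟨by omega, h2⟩)]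
        have hz : ∑ p ∈ (S.erase g).erase (g + 1), A ^ (4 * cnt S p) * cap A g F (S.erase p)
            = 0 := by
          refine Finset.sum_eq_zero fun p hp => ?_
          rw [Finset.mem_erase, Finset.mem_erase] at hp
          have m1 : g ∈ S.erase p := Finset.mem_erase.2 ⟨fun e => hp.2.1 e.symm, h1⟩
          have m2 : g + 1 ∈ S.erase p := Finset.mem_erase.2 ⟨fun e => hp.1 e.symm, h2⟩
          rw [cap, if_neg (fun h => h.2 m2), if_neg (fun h => h.1 m1), mul_zero]
        have c1 : cap A g F (S.erase g) = A ^ 2 * (F (S.erase (g + 1)) - F (S.erase g)) := by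
          have m1 : g ∉ S.erase g := Finset.notMem_erase _ _
          have m2 : g + 1 ∈ S.erase g := Finset.mem_erase.2 ⟨by omega, h2⟩
          have m3 : sw g (S.erase g) = S.erase (g + 1) := by
            ext x
            by_cases hx1 : x = g
            · subst hx1
              rw [g_mem_sw, Finset.mem_erase, Finset.mem_erase]
              exact ⟨fun _ => ⟨by omega, h1⟩, fun _ => ⟨by omega, h2⟩⟩
            · by_cases hx2 : x = g + 1
              · subst hx2
                rw [g1_mem_sw]
                exact iff_of_false m1 (Finset.notMem_erase _ _)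
              · rw [mem_sw_ne hx1 hx2, Finset.mem_erase, Finset.mem_erase]
                exact and_congr (iff_of_true hx1 hx2) Iff.rfl
          rw [cap, if_neg (fun h => m1 h.1), if_pos ⟨m1, m2⟩, m3]
        have c2 : cap A g F (S.erase (g + 1)) =
            (A ^ 2)⁻¹ * (F (S.erase g) - F (S.erase (g + 1))) := by
          have m1 : g + 1 ∉ S.erase (g + 1) := Finset.notMem_erase _ _
          have m2 : g ∈ S.erase (g + 1) := Finset.mem_erase.2 ⟨by omega, h1⟩
          have m3 : sw g (S.erase (g + 1)) = S.erase g := by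
            ext x
            by_cases hx1 : x = g
            · subst hx1
              rw [g_mem_sw]
              exact iff_of_false m1 (Finset.notMem_erase _ _)
            · by_cases hx2 : x = g + 1
              · subst hx2
                rw [g1_mem_sw, Finset.mem_erase, Finset.mem_erase]
                exact ⟨fun _ => ⟨by omega, h2⟩, fun _ => ⟨by omega, h1⟩⟩
              · rw [mem_sw_ne hx1 hx2, Finset.mem_erase, Finset.mem_erase]
                exact and_congr (iff_of_true hx2 hx1) Iff.rfl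
          rw [cap, if_pos ⟨m2, m1⟩, m3]
        rw [hz, c1, c2, cnt_succ_of_mem h1, mul_add, pow_add]
        have hA2 : A ^ (4 * 1) * (A ^ 2)⁻¹ = A ^ 2 := by
          field_simp
        have : A ^ (4 * cnt S g) * (A ^ 2 * (F (S.erase (g + 1)) - F (S.erase g))) +
            (A ^ (4 * cnt S g) * A ^ (4 * 1) * ((A ^ 2)⁻¹ * (F (S.erase g) - F (S.erase (g + 1))))
              + 0) = A ^ (4 * cnt S g) * (F (S.erase (g + 1)) - F (S.erase g)) *
              (A ^ 2 - A ^ (4 * 1) * (A ^ 2)⁻¹) := by ring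
        rw [this, hA2, sub_self, mul_zero]
      · -- only g
        have hr : cap A g (low A j F) S = (A ^ 2)⁻¹ * (sm A F (sw g S) - sm A F S) := by
          rw [cap, if_pos ⟨h1, h2⟩, hlow, hlow, if_pos hS', if_pos hS]
        rw [hr, sm_sw A F g S g h1 (Or.inl ⟨rfl, h2⟩), sm, ← Finset.add_sum_erase _ _ h1]
        have c1 : cap A g F (S.erase g) = 0 := by
          have m1 : g ∉ S.erase g := Finset.notMem_erase _ _
          have m2 : g + 1 ∉ S.erase g := fun h => h2 (Finset.mem_of_mem_erase h)
          rw [cap, if_neg (fun h => m1 h.1), if_neg (fun h => m2 h.2)]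
        rw [c1, mul_zero, zero_add, Finset.mul_sum]
        refine Finset.sum_congr rfl fun p hp => ?_
        rw [Finset.mem_erase] at hp
        have m1 : g ∈ S.erase p := Finset.mem_erase.2 ⟨fun e => hp.1 e.symm, h1⟩
        have m2 : g + 1 ∉ S.erase p := fun h => h2 (Finset.mem_of_mem_erase h)
        have m3 : p ≠ g + 1 := fun e => h2 (e ▸ hp.2)
        rw [cap, if_pos ⟨m1, m2⟩, sw_erase, swap_ne hp.1 m3]
        ring
    · by_cases h2 : g + 1 ∈ S
      · -- only g + 1
        have hr : cap A g (low A j F) S = A ^ 2 * (sm A F (sw g S) - sm A F S) := by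
          rw [cap, if_neg (fun h => h1 h.1), if_pos ⟨h1, h2⟩, hlow, hlow, if_pos hS', if_pos hS]
        rw [hr, sm_sw A F g S (g + 1) h2 (Or.inr ⟨rfl, h1⟩), sm, ← Finset.add_sum_erase _ _ h2]
        have c1 : cap A g F (S.erase (g + 1)) = 0 := by
          have m1 : g + 1 ∉ S.erase (g + 1) := Finset.notMem_erase _ _
          have m2 : g ∉ S.erase (g + 1) := fun h => h1 (Finset.mem_of_mem_erase h)
          rw [cap, if_neg (fun h => m2 h.1), if_neg (fun h => m1 h.2)]
        rw [c1, mul_zero, zero_add, Finset.mul_sum]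
        refine Finset.sum_congr rfl fun p hp => ?_
        rw [Finset.mem_erase] at hp
        have m1 : g + 1 ∈ S.erase p := Finset.mem_erase.2 ⟨fun e => hp.1 e.symm, h2⟩
        have m2 : g ∉ S.erase p := fun h => h1 (Finset.mem_of_mem_erase h)
        have m3 : p ≠ g := fun e => h1 (e ▸ hp.2)
        rw [cap, if_neg (fun h => m2 h.1), if_pos ⟨m2, m1⟩, sw_erase, swap_ne m3 hp.1]
        ring
      · -- none
        have hr : cap A g (low A j F) S = 0 := by
          rw [cap, if_neg (fun h => h1 h.1), if_neg (fun h => h2 h.2)]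
        rw [hr, sm]
        refine Finset.sum_eq_zero fun p hp => ?_
        have m1 : g ∉ S.erase p := fun h => h1 (Finset.mem_of_mem_erase h)
        have m2 : g + 1 ∉ S.erase p := fun h => h2 (Finset.mem_of_mem_erase h)
        rw [cap, if_neg (fun h => m1 h.1), if_neg (fun h => m2 h.2), mul_zero]
  · have hS' : ¬ sw g S ⊆ Finset.range j := fun h' => hS ((sw_subset h).1 h')
    rw [hlow, if_neg hS]
    have hr : cap A g (low A j F) S = 0 := by
      simp only [cap, hlow, if_neg hS, if_neg hS', sub_self, mul_zero, ite_self]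
    rw [hr]

end Pool.Agent.H61.KR
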