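import Mathlib
import Pool.Agent.H61.KR.FLin

set_option autoImplicit false

/-! # Local formulas at the last sites -/

namespace Pool.Agent.H61.KR

open Pool.Agent.H69.AMU

variable {A : ℂ} {j l : ℕ} {F : Fn}

lemma floc_zero (hF : Homog j l F) {S : Finset ℕ} {x : ℕ} (hx : x ∈ S) (hj : j ≤ x) : F S = 0 := by
  by_contra h
  have := Finset.mem_range.mp ((hF S h).1 hx)
  omega

lemma floc_left (S : Finset ℕ) : j ∈ sw j S ↔ j + 1 ∈ S := by
  rw [mem_sw, Equiv.swap_apply_left]

lemma floc_right (S : Finset ℕ) : j + 1 ∈ sw j S ↔ j ∈ S := by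
  rw [mem_sw, Equiv.swap_apply_right]

lemma floc_erase_right {S : Finset ℕ} (h1 : j ∈ S) (h2 : j + 1 ∉ S) :
    (sw j S).erase (j + 1) = S.erase j := by
  ext x
  rw [Finset.mem_erase, Finset.mem_erase, mem_sw]
  by_cases hx : x = j
  · subst hx
    rw [Equiv.swap_apply_left]
    constructor
    · rintro ⟨-, h⟩; exact absurd h h2
    · rintro ⟨h, -⟩; exact absurd rfl h
  · by_cases hx' : x = j + 1
    · subst hx'
      constructor
      · rintro ⟨h, -⟩; exact absurd rfl h
      · rintro ⟨-, h⟩; exact absurd h h2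
    · rw [Equiv.swap_apply_of_ne_of_ne hx hx']
      simp [hx, hx']

lemma floc_erase_left {S : Finset ℕ} (h1 : j ∉ S) (h2 : j + 1 ∈ S) :
    (sw j S).erase j = S.erase (j + 1) := by
  ext x
  rw [Finset.mem_erase, Finset.mem_erase, mem_sw]
  by_cases hx : x = j
  · subst hx
    constructor
    · rintro ⟨h, -⟩; exact absurd rfl h
    · rintro ⟨-, h⟩; exact absurd h h1
  · by_cases hx' : x = j + 1
    · subst hx'
      rw [Equiv.swap_apply_right]
      constructor
      · rintro ⟨-, h⟩; exact absurd h h1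
      · rintro ⟨h, -⟩; exact absurd rfl h
    · rw [Equiv.swap_apply_of_ne_of_ne hx hx']
      simp [hx, hx']

/-- Proof: `funext S`. If `j ∉ S`: `S ⊆ range (j+1) ↔ S ⊆ range j`, and `put j F S = 0`. If
`j ∈ S`: `low A j F S = 0`; if not `S ⊆ range (j+1)` both sides are `0` (`F (S.erase j) = 0` as
`S.erase j` is not contained in `range j`). If `S ⊆ range (j+1)`: the terms `p ≠ j` vanish since
`j ∈ S.erase p` (so `F (S.erase p) = 0` by `hF`); the term `p = j` is
`A ^ (4 * #{i ∈ S, i < j}) * F (S.erase j)` and if `F (S.erase j) ≠ 0` then `#{i ∈ S, i < j} =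
#(S.erase j) = l`. -/
lemma low_succ (hF : Homog j l F) : low A (j + 1) F = low A j F + A ^ (4 * l) • put j F := by
  funext S
  simp only [low, put, Pi.add_apply, Pi.smul_apply, smul_eq_mul]
  by_cases hjS : j ∈ S
  · have h1 : ¬ S ⊆ Finset.range j := fun h => by
      have := Finset.mem_range.mp (h hjS); omega
    rw [if_neg h1, if_pos hjS, zero_add]
    by_cases h2 : S ⊆ Finset.range (j + 1)
    · rw [if_pos h2]
      rw [Finset.sum_eq_single j]
      · by_cases h3 : F (S.erase j) = 0
        · rw [h3, mul_zero, mul_zero]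
        · have h4 := hF _ h3
          have h5 : S.filter (fun i => i < j) = S.erase j := by
            ext x
            simp only [Finset.mem_filter, Finset.mem_erase]
            constructor
            · rintro ⟨h, h'⟩; exact ⟨by omega, h⟩
            · rintro ⟨h, h'⟩
              have := Finset.mem_range.mp (h2 h')
              exact ⟨h', by omega⟩
          rw [h5, h4.2]
      · intro p hp hpj
        rw [floc_zero hF (x := j) (Finset.mem_erase.mpr ⟨fun h => hpj h.symm, hjS⟩) le_rfl, mul_zero]
      · intro h; exact absurd hjS h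
    · rw [if_neg h2]
      have h3 : F (S.erase j) = 0 := by
        by_contra h3
        apply h2
        intro x hx
        by_cases hxj : x = j
        · subst hxj; exact Finset.mem_range.mpr (by omega)
        · have := Finset.mem_range.mp ((hF _ h3).1 (Finset.mem_erase.mpr ⟨hxj, hx⟩))
          exact Finset.mem_range.mpr (by omega)
      rw [h3, mul_zero]
  · rw [if_neg hjS, mul_zero, add_zero]
    have h1 : S ⊆ Finset.range (j + 1) ↔ S ⊆ Finset.range j := by
      constructor
      · intro h x hx
        have := Finset.mem_range.mp (h hx)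
        have hne : x ≠ j := fun h' => hjS (h' ▸ hx)
        exact Finset.mem_range.mpr (by omega)
      · intro h x hx
        have := Finset.mem_range.mp (h hx)
        exact Finset.mem_range.mpr (by omega)
    simp only [h1]

/-- Proof: `funext S`. If `j ∉ S` then the right side is `0` and on the left `j ∉ S.erase p`.
If `j ∈ S` and `S ⊆ range (j+1)` (equivalently `S.erase j ⊆ range j`): the term `p = j` of the left
side vanishes, and the terms `p ≠ j` are those of `low A j F (S.erase j)`:
`(S.erase p).erase j = (S.erase j).erase p` and `#{i ∈ S, i < p} = #{i ∈ S.erase j, i < p}` as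
`p < j`. -/
lemma low_put (A : ℂ) (j : ℕ) (F : Fn) : low A (j + 1) (put j F) = put j (low A j F) := by
  funext S
  simp only [low, put]
  by_cases hjS : j ∈ S
  · rw [if_pos hjS]
    have h1 : S ⊆ Finset.range (j + 1) ↔ S.erase j ⊆ Finset.range j := by
      constructor
      · intro h x hx
        have hx' := Finset.mem_erase.mp hx
        have := Finset.mem_range.mp (h hx'.2)
        exact Finset.mem_range.mpr (by omega)
      · intro h x hx
        by_cases hxj : x = j
        · subst hxj; exact Finset.mem_range.mpr (by omega)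
        · have := Finset.mem_range.mp (h (Finset.mem_erase.mpr ⟨hxj, hx⟩))
          exact Finset.mem_range.mpr (by omega)
    by_cases h2 : S ⊆ Finset.range (j + 1)
    · rw [if_pos h2, if_pos (h1.mp h2), ← Finset.add_sum_erase S _ hjS]
      have hj0 : j ∉ S.erase j := Finset.notMem_erase j S
      rw [if_neg hj0, mul_zero, zero_add]
      refine Finset.sum_congr rfl fun p hp => ?_
      have hp' := Finset.mem_erase.mp hp
      have hpj : p < j := Finset.mem_range.mp (h1.mp h2 hp)
      rw [if_pos (Finset.mem_erase.mpr ⟨fun h => hp'.1 h.symm, hjS⟩), Finset.erase_right_comm]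
      congr 3
      congr 1
      ext x
      simp only [Finset.mem_filter, Finset.mem_erase]
      constructor
      · rintro ⟨h, h'⟩; exact ⟨⟨by omega, h⟩, h'⟩
      · rintro ⟨⟨_, h⟩, h'⟩; exact ⟨h, h'⟩
    · rw [if_neg h2, if_neg (fun h => h2 (h1.mpr h))]
  · rw [if_neg hjS]
    by_cases h2 : S ⊆ Finset.range (j + 1)
    · rw [if_pos h2]
      refine Finset.sum_eq_zero fun p _ => ?_
      rw [if_neg (fun h => hjS (Finset.mem_of_mem_erase h)), mul_zero]
    · rw [if_neg h2]

/-- Proof: `funext S`; if `j ∈ S` or `j+1 ∈ S` then `F S = 0` and `F (sw j S) = 0` (as `sw j S`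
contains `j` or `j+1`). -/
lemma cap_self (hF : Homog j l F) : cap A j F = 0 := by
  funext S
  simp only [cap, Pi.zero_apply]
  by_cases h1 : j ∈ S
  · by_cases h2 : j + 1 ∈ S
    · simp [h1, h2]
    · rw [if_pos ⟨h1, h2⟩, floc_zero hF h1 le_rfl,
        floc_zero hF ((floc_right S).mpr h1) (by omega)]
      simp
  · by_cases h2 : j + 1 ∈ S
    · rw [if_neg (fun h => h1 h.1), if_pos ⟨h1, h2⟩, floc_zero hF h2 (by omega),
        floc_zero hF ((floc_left S).mpr h2) le_rfl]
      simp
    · simp [h1, h2]

/-- Proof: `funext S`, cases on `j ∈ S`, `j + 1 ∈ S`.  `j ∈ S`, `j+1 ∉ S`: `cap (put j F) S =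
A⁻² (put j F (sw j S) - put j F S) = - A⁻² F (S.erase j)` as `j ∉ sw j S`; the right side is
`-A⁻² F (S.erase j) + 0`.  `j ∉ S`, `j+1 ∈ S`: `A² (F ((sw j S).erase j) - 0)` and
`(sw j S).erase j = S.erase (j+1)`.  Both: left `0`; right: `F (S.erase j) = 0` since
`j + 1 ∈ S.erase j` (`hF`), and `F (S.erase (j+1)) = 0`.  None: `0`. -/
lemma cap_put (hF : Homog j l F) :
    cap A j (put j F) = A ^ 2 • put (j + 1) F - (A ^ 2)⁻¹ • put j F := by
  funext S
  simp only [cap, put, Pi.sub_apply, Pi.smul_apply, smul_eq_mul]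
  by_cases h1 : j ∈ S
  · by_cases h2 : j + 1 ∈ S
    · rw [if_neg (fun h => h.2 h2), if_neg (fun h => h.1 h1), if_pos h2, if_pos h1,
        floc_zero hF (S := S.erase (j + 1)) (x := j) (Finset.mem_erase.mpr ⟨by omega, h1⟩) le_rfl,
        floc_zero hF (S := S.erase j) (x := j + 1) (Finset.mem_erase.mpr ⟨by omega, h2⟩) (by omega)]
      simp
    · rw [if_pos ⟨h1, h2⟩, if_neg (fun h => h2 ((floc_left S).mp h)), if_pos h1, if_neg h2]
      ring
  · by_cases h2 : j + 1 ∈ S
    · rw [if_neg (fun h => h1 h.1), if_pos ⟨h1, h2⟩, if_pos ((floc_left S).mpr h2), if_neg h1,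
        if_pos h2, floc_erase_left h1 h2]
      ring
    · simp [h1, h2]

/-- Proof: as `cap_put`. -/
lemma cap_put_succ (hF : Homog j l F) :
    cap A j (put (j + 1) F) = (A ^ 2)⁻¹ • put j F - A ^ 2 • put (j + 1) F := by
  funext S
  simp only [cap, put, Pi.sub_apply, Pi.smul_apply, smul_eq_mul]
  by_cases h1 : j ∈ S
  · by_cases h2 : j + 1 ∈ S
    · rw [if_neg (fun h => h.2 h2), if_neg (fun h => h.1 h1), if_pos h2, if_pos h1,
        floc_zero hF (S := S.erase (j + 1)) (x := j) (Finset.mem_erase.mpr ⟨by omega, h1⟩) le_rfl,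
        floc_zero hF (S := S.erase j) (x := j + 1) (Finset.mem_erase.mpr ⟨by omega, h2⟩) (by omega)]
      simp
    · rw [if_pos ⟨h1, h2⟩, if_pos ((floc_right S).mpr h1), if_pos h1, if_neg h2,
        floc_erase_right h1 h2]
      ring
  · by_cases h2 : j + 1 ∈ S
    · rw [if_neg (fun h => h1 h.1), if_pos ⟨h1, h2⟩, if_neg (fun h => h1 ((floc_right S).mp h)),
        if_neg h1, if_pos h2]
      ring
    · simp [h1, h2]

/-- Proof: `funext S`: `put (j+1) (put j F) S = 0` unless `j, j+1 ∈ S`; then `cap` vanishes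
at `S`; and for `S` with exactly one of the two, `put (j+1) (put j F)` vanishes at `S` and
`sw j S`. -/
lemma cap_put_put (A : ℂ) (j : ℕ) (F : Fn) : cap A j (put (j + 1) (put j F)) = 0 := by
  funext S
  simp only [cap, put, Pi.zero_apply]
  by_cases h1 : j ∈ S
  · by_cases h2 : j + 1 ∈ S
    · simp [h1, h2]
    · have h3 : j ∉ (sw j S).erase (j + 1) := fun h => h2 ((floc_left S).mp (Finset.mem_of_mem_erase h))
      rw [if_pos ⟨h1, h2⟩, if_pos ((floc_right S).mpr h1), if_neg h3, if_neg h2]
      simp
  · by_cases h2 : j + 1 ∈ S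
    · have h3 : j + 1 ∉ sw j S := fun h => h1 ((floc_right S).mp h)
      have h4 : j ∉ S.erase (j + 1) := fun h => h1 (Finset.mem_of_mem_erase h)
      rw [if_neg (fun h => h1 h.1), if_pos ⟨h1, h2⟩, if_neg h3, if_pos h2, if_neg h4]
      simp
    · simp [h1, h2]

end Pool.Agent.H61.KR
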