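import Mathlib
import Pool.Agent.H61.KR.FLoc

set_option autoImplicit false

/-! # The function of a path with label `a` is killed by `low ^ (a+1)` -/

namespace Pool.Agent.H61.KR

open Pool.Agent.H69.AMU

/-- Powers of `low A (j+1)`.
Proof: induction on `m`. `m = 0`: `0 + F`. Step: apply `low A (j+1)` (`Function.iterate_succ_apply'`)
to the formula: `(low A j)^[m] F` is homogeneous of degree `l + m` on the first `j` sites, so by
`low_succ` its image is `(low A j)^[m+1] F + A ^ (4 (l+m)) • put j ((low A j)^[m] F)`; the second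
term: `low_put` gives `c • put j ((low A j)^[m] F)` for `m ≥ 1` (with `c = A^(4l) Σ_{i<m} A^(4i)`)
and for `m = 0` the coefficient is `0`.  Here the coefficient is written with the truncated
iterate `m - 1`; for `m = 0` the sum is empty. -/
lemma low_iter {A : ℂ} {j l : ℕ} {F : Fn} (hF : Homog j l F) (m : ℕ) :
    (low A (j + 1))^[m] F = (low A j)^[m] F
      + (A ^ (4 * l) * ∑ i ∈ Finset.range m, (A ^ 4) ^ i) • put j ((low A j)^[m - 1] F) := by
  have hh : ∀ m : ℕ, Homog j (l + m) ((low A j)^[m] F) := by
    intro m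
    induction m with
    | zero => simpa using hF
    | succ m ih =>
      rw [Function.iterate_succ_apply']
      exact ih.low
  induction m with
  | zero => simp
  | succ m ih =>
    rw [Function.iterate_succ_apply', ih, low_add, low_smul, low_succ (hh m), low_put,
      Function.iterate_succ_apply']
    have h1 : (A ^ (4 * l) * ∑ i ∈ Finset.range m, (A ^ 4) ^ i) •
        put j (low A j ((low A j)^[m - 1] F)) =
        (A ^ (4 * l) * ∑ i ∈ Finset.range m, (A ^ 4) ^ i) • put j ((low A j)^[m] F) := by
      rcases m with _ | m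
      · simp
      · rw [Nat.add_sub_cancel, Function.iterate_succ_apply']
    rw [h1, Nat.add_sub_cancel, add_assoc, ← add_smul, Finset.sum_range_succ]
    congr 2
    ring

/-- Powers of `low` on `put`. Proof: induction with `low_put`. -/
lemma low_iter_put (A : ℂ) (j : ℕ) (F : Fn) (m : ℕ) :
    (low A (j + 1))^[m] (put j F) = put j ((low A j)^[m] F) := by
  induction m with
  | zero => rfl
  | succ m ih => rw [Function.iterate_succ_apply', ih, low_put, Function.iterate_succ_apply']

/-- Linearity of iterates. Proof: induction with `low_smul`, `low_sub`. -/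
lemma low_iter_sub_smul (A : ℂ) (j : ℕ) (c d : ℂ) (F G : Fn) (m : ℕ) :
    (low A j)^[m] (c • F - d • G) = c • (low A j)^[m] F - d • (low A j)^[m] G := by
  induction m with
  | zero => rfl
  | succ m ih =>
    rw [Function.iterate_succ_apply', ih, low_sub, low_smul, low_smul,
      Function.iterate_succ_apply', Function.iterate_succ_apply']

lemma low_iter_smul (A : ℂ) (j : ℕ) (c : ℂ) (F : Fn) (m : ℕ) :
    (low A j)^[m] (c • F) = c • (low A j)^[m] F := by
  induction m with
  | zero => rfl
  | succ m ih =>
    rw [Function.iterate_succ_apply', ih, low_smul, Function.iterate_succ_apply']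

lemma low_iter_zero (A : ℂ) (j : ℕ) (m : ℕ) : (low A j)^[m] (0 : Fn) = 0 := by
  have h := low_iter_smul A j 0 (0 : Fn) m
  simpa using h

lemma low_iter_ge {A : ℂ} {j : ℕ} {F : Fn} {a m : ℕ} (h : (low A j)^[a] F = 0) (hm : a ≤ m) :
    (low A j)^[m] F = 0 := by
  obtain ⟨k, rfl⟩ := Nat.exists_eq_add_of_le' hm
  rw [Function.iterate_add_apply, h, low_iter_zero]

/-- Proof: induction on `j`. `j = 0`: `low A 0 vac = 0` (for `S ⊆ range 0` the sum is empty).
Step, `a = p.lab j`, `H = vec A p j`, `l` with `2 l + a = j` (`homog_vec`), induction hypothesis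
`(low A j)^[a+1] H = 0` (hence also for all larger exponents).
Up, `b = a + 1`: `vec A p (j+1) = ph A b • H`, and by `low_iter` with `m = a + 2`
`(low A (j+1))^[a+2] H = (low A j)^[a+2] H + c • put j ((low A j)^[a+1] H) = 0`.
Down, `a = b + 1`: `vec A p (j+1) = ph A b • (κ • low A j H - A^(2j+2) • put j H)`,
`κ = (-1)^b / unknot A b`. With `m = b + 1 = a`: `low_iter` for `low A j H` (degree `l + 1`) gives
`(low A j)^[a+1] H + (A^(4(l+1)) Σ_{i<a} A^(4i)) • put j ((low A j)^[a] H)` (as
`(low A j)^[m-1] (low A j H) = (low A j)^[a] H` for `m = a ≥ 1`), and `low_iter_put` gives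
`put j ((low A j)^[a] H)` for the second term. The first summand vanishes; the coefficient of
`put j ((low A j)^[a] H)` is `κ A^(4l+4) Σ_{i<a} A^(4i) - A^(2j+2) = 0` since by `unknot_geom`
(for `b`, `b + 1 = a`) `Σ_{i<a} (A^4)^i = (-1)^b (A^2)^b unknot A b`, so the first term is
`A^(4l+4+2b) = A^(2j+2)` as `j = 2l + b + 1`. -/
lemma low_iter_vec {n c L : ℕ} {A : ℂ} (hA : A ≠ 0) (hΔ : ∀ i ≤ n, unknot A i ≠ 0)
    (p : FusionPath n c L) (j : ℕ) (hj : j ≤ n) :
    (low A j)^[p.lab j + 1] (vec A p j) = 0 := by
  induction j with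
  | zero =>
    rw [p.lab_zero]
    change low A 0 vac = 0
    funext S
    simp only [low, Pi.zero_apply]
    split_ifs with h
    · have hS : S = ∅ := by simpa using h
      subst hS
      simp
    · rfl
  | succ j ih =>
    have ih' := ih (by omega)
    obtain ⟨l, hl, hom⟩ := homog_vec A p j (by omega)
    have hvec : vec A p (j + 1) = stp A j (p.lab j) (p.lab (j + 1)) (vec A p j) := rfl
    rw [hvec]
    rcases p.lab_step (by omega : j < n) with h | h
    · unfold stp
      rw [if_pos h, low_iter_smul, low_iter hom, low_iter_ge ih' (by omega),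
        low_iter_ge (m := p.lab (j + 1) + 1 - 1) ih' (by omega)]
      have hz : put j (0 : Fn) = 0 := by
        funext S
        simp [put]
      rw [hz, smul_zero, add_zero, smul_zero]
    · unfold stp
      rw [if_neg (by omega)]
      set b := p.lab (j + 1) with hb
      rw [low_iter_smul, low_iter_sub_smul, low_iter hom.low, low_iter_put, Nat.add_sub_cancel,
        ← Function.iterate_succ_apply, ← Function.iterate_succ_apply]
      have e1 : (low A j)^[(b + 1).succ] (vec A p j) = 0 := low_iter_ge ih' (by omega)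
      rw [e1, zero_add, smul_smul, ← sub_smul]
      have e2 : (-1) ^ b / unknot A b * (A ^ (4 * (l + 1)) * ∑ i ∈ Finset.range (b + 1), (A ^ 4) ^ i)
          - A ^ (2 * j + 2) = 0 := by
        rw [← unknot_geom A hA b]
        have hu : unknot A b ≠ 0 := hΔ b (by omega)
        have h1 : ((-1 : ℂ)) ^ b * (-1) ^ b = 1 := by rw [← mul_pow]; norm_num
        have h2 : 2 * j + 2 = 4 * (l + 1) + 2 * b := by omega
        rw [h2, pow_add, pow_mul A 2 b]
        have h3 : (-1) ^ b / unknot A b * (A ^ (4 * (l + 1)) *
            ((-1) ^ b * (A ^ 2) ^ b * unknot A b))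
            = ((-1) ^ b * (-1) ^ b) * (A ^ (4 * (l + 1)) * (A ^ 2) ^ b) := by
          field_simp
        rw [h3, h1, one_mul, sub_self]
      rw [e2, zero_smul, smul_zero]

end Pool.Agent.H61.KR
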