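import Mathlib
import Pool.Agent.H61.KR.FLoc

set_option autoImplicit false

/-! # Two steps of a path and the cup-cap operator

Notation in the proofs: `F` homogeneous of degree `l` on the first `j` sites, `a + 2 l = j`,
`D a = unknot A a`, `C = put j X - A^4 • put (j+1) X`.  Formulas (from `FLoc`):
`low A (j+1) F = low A j F + A^(4l) • put j F`, `low A (j+1) (put j X) = put j (low A j X)`,
`cap A j X = 0` for `X` homogeneous on the first `j` sites (in particular `X = low A j F`),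
`cap A j (put j X) = - A^(-2) C`, `cap A j (put (j+1) X) = A^(-2) C`.  The scalar identities all
follow from `unknot_add : D (a+1) + A^2 D a = (-1)^(a+1) A^(-2(a+1))` and
`ph A (a+2) = ph A a * D (a+1) / D (a+2)`. -/

namespace Pool.Agent.H61.KR

open Pool.Agent.H69.AMU

variable {A : ℂ} {j l a : ℕ} {F : Fn}

private lemma f2_up : stp A j a (a + 1) F = ph A (a + 1) • F := by
  unfold stp
  rw [if_pos rfl]

private lemma f2_down : stp A j (a + 1) a F =
    ph A a • ((((-1) ^ a / unknot A a) : ℂ) • low A j F - A ^ (2 * j + 2) • put j F) := by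
  unfold stp
  rw [if_neg (by omega)]

private lemma f2_comb (hF : Homog j l F) (c1 c2 c3 : ℂ) :
    cap A j (c1 • low A j F + c2 • put j F - c3 • put (j + 1) F)
      = (c2 + c3) • (A ^ 2 • put (j + 1) F - (A ^ 2)⁻¹ • put j F) := by
  rw [cap_sub, cap_add, cap_smul, cap_smul, cap_smul, cap_self hF.low, cap_put hF, cap_put_succ hF]
  funext S
  simp only [Pi.smul_apply, Pi.add_apply, Pi.sub_apply, Pi.zero_apply, smul_eq_mul]
  ring

private lemma f2_comb2 (hF : Homog j l F) (c1 c2 : ℂ) :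
    cap A j (c1 • low A j F - c2 • put j F)
      = (-c2) • (A ^ 2 • put (j + 1) F - (A ^ 2)⁻¹ • put j F) := by
  rw [cap_sub, cap_smul, cap_smul, cap_self hF.low, cap_put hF]
  funext S
  simp only [Pi.smul_apply, Pi.sub_apply, Pi.zero_apply, smul_eq_mul]
  ring

private lemma f2_un (hA : A ≠ 0) (a : ℕ) :
    A ^ (2 * a) * A ^ 2 * (unknot A (a + 1) + A ^ 2 * unknot A a) = -(-1) ^ a := by
  rw [unknot_add A hA a]
  have h : (A ^ 2) ^ (a + 1) * ((A ^ 2)⁻¹) ^ (a + 1) = 1 := by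
    rw [← mul_pow, mul_inv_cancel₀ (pow_ne_zero 2 hA), one_pow]
  have h2 : A ^ (2 * a) * A ^ 2 = (A ^ 2) ^ (a + 1) := by ring
  rw [h2]
  calc (A ^ 2) ^ (a + 1) * ((-1) ^ (a + 1) * ((A ^ 2)⁻¹) ^ (a + 1))
      = (-1) ^ (a + 1) * ((A ^ 2) ^ (a + 1) * ((A ^ 2)⁻¹) ^ (a + 1)) := by ring
    _ = -(-1) ^ a := by
        rw [h, mul_one, pow_succ]
        ring

/-- Up, up. Proof: the function is `c • F`; `cap_smul`, `cap_self`. -/
lemma cap_uu (hF : Homog j l F) :
    cap A j (stp A (j + 1) (a + 1) (a + 2) (stp A j a (a + 1) F)) = 0 := by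
  have e1 : stp A (j + 1) (a + 1) (a + 2) (stp A j a (a + 1) F) = ph A (a + 2) • stp A j a (a + 1) F := f2_up
  rw [e1, f2_up, cap_smul, cap_smul, cap_self hF, smul_zero, smul_zero]

/-- Down, down (labels `a+2, a+1, a`). Proof: with `G = ph A (a+1) • (κ • low A j F -
A^(2j+2) • put j F)`, `κ = (-1)^(a+1)/D(a+1)`, `κ' = (-1)^a/D a`, `X = low A j F` (degree `l+1`):
`low A (j+1) G = ph (a+1) • (κ • (low A j X + A^(4(l+1)) • put j X) - A^(2j+2) • put j X)`,
`put (j+1) G = ph (a+1) • (κ • put (j+1) X - A^(2j+2) • put (j+1) (put j F))`.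
Apply `cap A j` (`cap_put_put` kills the last term): the result is `ph (a+1) ph a` times
`(- A^(-2) κ' (κ A^(4l+4) - A^(2j+2)) - κ A^(2j+4) A^(-2)) • C`, which is `0`: as `j = 2l + a + 2`,
`κ' (κ A^(-2a-2) - 1) = - κ A^2` is `unknot_add` (multiply by `D a * D (a+1)`). -/
lemma cap_dd (hA : A ≠ 0) (h0 : unknot A a ≠ 0) (h1 : unknot A (a + 1) ≠ 0) (hF : Homog j l F)
    (hj : a + 2 + 2 * l = j) :
    cap A j (stp A (j + 1) (a + 1) a (stp A j (a + 2) (a + 1) F)) = 0 := by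
  have hX : Homog j (l + 1) (low A j F) := hF.low
  have e0 : stp A j (a + 2) (a + 1) F = ph A (a + 1) • ((((-1) ^ (a + 1) / unknot A (a + 1)) : ℂ) • low A j F
      - A ^ (2 * j + 2) • put j F) := f2_down
  have e1 : stp A (j + 1) (a + 1) a (stp A j (a + 2) (a + 1) F) = (ph A a * ph A (a + 1)) •
      (((-1) ^ a / unknot A a * ((-1) ^ (a + 1) / unknot A (a + 1))) • low A j (low A j F) +
        ((-1) ^ a / unknot A a * ((-1) ^ (a + 1) / unknot A (a + 1) * A ^ (4 * (l + 1)) - A ^ (2 * j + 2))) •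
          put j (low A j F) - (A ^ (2 * j + 4) * ((-1) ^ (a + 1) / unknot A (a + 1))) • put (j + 1) (low A j F)) +
      (ph A a * ph A (a + 1) * (A ^ (2 * j + 4) * A ^ (2 * j + 2))) • put (j + 1) (put j F) := by
    rw [f2_down, e0, low_smul, low_sub, low_smul, low_smul, put_smul, put_sub, put_smul, put_smul, low_put,
      low_succ hX]
    funext S
    simp only [Pi.smul_apply, Pi.add_apply, Pi.sub_apply, smul_eq_mul]
    ring
  rw [e1, cap_add, cap_smul, cap_smul, cap_put_put, f2_comb hX, smul_zero, add_zero]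
  have hun := f2_un hA a
  have e2 : (-1 : ℂ) ^ a / unknot A a * ((-1) ^ (a + 1) / unknot A (a + 1) * A ^ (4 * (l + 1)) - A ^ (2 * j + 2)) +
      A ^ (2 * j + 4) * ((-1) ^ (a + 1) / unknot A (a + 1)) = 0 := by
    subst hj
    have e4 : A ^ (2 * (a + 2 + 2 * l) + 4) = A ^ (2 * a) * A ^ (4 * l) * A ^ 8 := by ring
    have e5 : A ^ (2 * (a + 2 + 2 * l) + 2) = A ^ (2 * a) * A ^ (4 * l) * A ^ 6 := by ring
    have e6 : (-1 : ℂ) ^ (a + 1) = -(-1) ^ a := by ring
    have e7 : A ^ (4 * (l + 1)) = A ^ (4 * l) * A ^ 4 := by ring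
    rw [e4, e5, e6, e7]
    generalize A ^ (2 * a) = T at *
    generalize A ^ (4 * l) = L at *
    generalize (-1 : ℂ) ^ a = s at *
    generalize unknot A a = D0 at *
    generalize unknot A (a + 1) = D1 at *
    have e8 : s / D0 * (-s / D1 * (L * A ^ 4) - T * L * A ^ 6) + T * L * A ^ 8 * (-s / D1) =
        (L * A ^ 4 / (D0 * D1)) * (-(s * s) - s * (T * A ^ 2 * (D1 + A ^ 2 * D0))) := by
      field_simp
      ring
    rw [e8, hun]
    ring
  rw [e2, zero_smul, smul_zero]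

/-- The explicit form of up-down (labels `a, a+1, a`). -/
lemma ud_eq (hF : Homog j l F) :
    stp A (j + 1) (a + 1) a (stp A j a (a + 1) F) = (ph A (a + 1) * ph A a) •
      (((-1) ^ a / unknot A a) • low A j F + ((-1) ^ a / unknot A a * A ^ (4 * l)) • put j F
        - A ^ (2 * j + 4) • put (j + 1) F) := by
  rw [f2_up, f2_down, low_smul, put_smul, low_succ hF]
  funext S
  simp only [Pi.smul_apply, Pi.add_apply, Pi.sub_apply, smul_eq_mul]
  ring

/-- The explicit form of down-up (labels `a+1, a, a+1`). -/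
lemma du_eq : stp A (j + 1) a (a + 1) (stp A j (a + 1) a F) = (ph A (a + 1) * ph A a) •
      (((-1) ^ a / unknot A a) • low A j F - A ^ (2 * j + 2) • put j F) := by
  rw [f2_up, f2_down]
  funext S
  simp only [Pi.smul_apply, Pi.sub_apply, smul_eq_mul]
  ring

/-- the right side of `cap_ud`, `cap_du` -/
private lemma f2_rhs (hA : A ≠ 0) (h0 : unknot A a ≠ 0) (h1 : unknot A (a + 1) ≠ 0)
    (h2 : unknot A (a + 2) ≠ 0) (hF : Homog j l F) (hj : a + 1 + 2 * l = j) :
    (unknot A (a + 2) / unknot A (a + 1)) •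
          stp A (j + 1) (a + 2) (a + 1) (stp A j (a + 1) (a + 2) F)
        + (unknot A a / unknot A (a + 1)) •
          stp A (j + 1) a (a + 1) (stp A j (a + 1) a F) =
    (-(ph A a * ph A (a + 1) * A ^ (2 * j + 2))) • (A ^ 2 • put (j + 1) F - (A ^ 2)⁻¹ • put j F) := by
  have e1 : stp A (j + 1) (a + 2) (a + 1) (stp A j (a + 1) (a + 2) F) = (ph A (a + 2) * ph A (a + 1)) •
      (((-1) ^ (a + 1) / unknot A (a + 1)) • low A j F + ((-1) ^ (a + 1) / unknot A (a + 1) * A ^ (4 * l)) • put j F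
        - A ^ (2 * j + 4) • put (j + 1) F) := ud_eq hF
  have e3 : ph A (a + 2) = ph A a * unknot A (a + 1) / unknot A (a + 2) := rfl
  have hun := f2_un hA a
  rw [e1, du_eq, e3]
  subst hj
  funext S
  simp only [Pi.smul_apply, Pi.add_apply, Pi.sub_apply, smul_eq_mul]
  have e4 : A ^ (2 * (a + 1 + 2 * l) + 4) = A ^ (2 * a) * A ^ (4 * l) * A ^ 6 := by ring
  have e5 : A ^ (2 * (a + 1 + 2 * l) + 2) = A ^ (2 * a) * A ^ (4 * l) * A ^ 4 := by ring
  have e6 : (-1 : ℂ) ^ (a + 1) = -(-1) ^ a := by ring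
  rw [e4, e5, e6]
  generalize A ^ (2 * a) = T at *
  generalize A ^ (4 * l) = L at *
  generalize (-1 : ℂ) ^ a = s at *
  generalize low A (a + 1 + 2 * l) F S = x at *
  generalize put (a + 1 + 2 * l) F S = y at *
  generalize put (a + 1 + 2 * l + 1) F S = z at *
  generalize ph A a = p0 at *
  generalize ph A (a + 1) = p1 at *
  generalize unknot A a = D0 at *
  generalize unknot A (a + 1) = D1 at *
  generalize unknot A (a + 2) = D2 at *
  have hA2 : A ^ 2 * (A ^ 2)⁻¹ = 1 := mul_inv_cancel₀ (pow_ne_zero 2 hA)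
  generalize (A ^ 2)⁻¹ = Ai at *
  have k1 : D2 / D1 * (p0 * D1 / D2) = p0 := by field_simp
  have k2 : D0 / D1 * (s / D0) = s / D1 := by field_simp
  have k3 : -s / D1 = T * A ^ 2 + T * A ^ 4 * (D0 / D1) := by
    rw [← hun]
    field_simp
  have k4 : D2 / D1 * (p0 * D1 / D2 * p1 * (-s / D1 * x + -s / D1 * L * y - T * L * A ^ 6 * z)) =
      p0 * p1 * (-s / D1 * x + -s / D1 * L * y - T * L * A ^ 6 * z) := by
    linear_combination (p1 * (-s / D1 * x + -s / D1 * L * y - T * L * A ^ 6 * z)) * k1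
  have k5 : D0 / D1 * (p1 * p0 * (s / D0 * x - T * L * A ^ 4 * y)) =
      p1 * p0 * (s / D1 * x - D0 / D1 * (T * L * A ^ 4) * y) := by
    linear_combination (p1 * p0 * x) * k2
  rw [k4, k5]
  linear_combination (p0 * p1 * L * y) * k3 - (p0 * p1 * L * T * A ^ 2 * y) * hA2

/-- The middle label `a + 1 ≥ 1`, up-down. Here the labels are `a+1, a+2, a+1` and
`a+1, a, a+1`.  Proof: `ud_eq` (with `a+1` for `a`), `du_eq`.  `cap A j` of the first one is
`- ph (a+2) ph (a+1) (κ A^(4l-2) + A^(2j+2)) • C`, `κ = (-1)^(a+1)/D(a+1)`; on the right side the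
coefficient of `low A j F` is `0` and the coefficients of `put j F`, `put (j+1) F` give
`ph (a+1) ph a A^(2j) • C`; use `ph (a+2) = ph a D(a+1)/D(a+2)` and `unknot_add`. -/
lemma cap_ud (hA : A ≠ 0) (h0 : unknot A a ≠ 0) (h1 : unknot A (a + 1) ≠ 0)
    (h2 : unknot A (a + 2) ≠ 0) (hF : Homog j l F) (hj : a + 1 + 2 * l = j) :
    cap A j (stp A (j + 1) (a + 2) (a + 1) (stp A j (a + 1) (a + 2) F))
      = (unknot A (a + 2) / unknot A (a + 1)) •
          stp A (j + 1) (a + 2) (a + 1) (stp A j (a + 1) (a + 2) F)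
        + (unknot A a / unknot A (a + 1)) •
          stp A (j + 1) a (a + 1) (stp A j (a + 1) a F) := by
  rw [f2_rhs hA h0 h1 h2 hF hj]
  have e1 : stp A (j + 1) (a + 2) (a + 1) (stp A j (a + 1) (a + 2) F) = (ph A (a + 2) * ph A (a + 1)) •
      (((-1) ^ (a + 1) / unknot A (a + 1)) • low A j F + ((-1) ^ (a + 1) / unknot A (a + 1) * A ^ (4 * l)) • put j F
        - A ^ (2 * j + 4) • put (j + 1) F) := ud_eq hF
  have e3 : ph A (a + 2) = ph A a * unknot A (a + 1) / unknot A (a + 2) := rfl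
  have hun := f2_un hA (a + 1)
  rw [e1, cap_smul, f2_comb hF, smul_smul, e3]
  congr 1
  subst hj
  have e4 : A ^ (2 * (a + 1 + 2 * l) + 4) = A ^ (2 * a) * A ^ (4 * l) * A ^ 6 := by ring
  have e5 : A ^ (2 * (a + 1 + 2 * l) + 2) = A ^ (2 * a) * A ^ (4 * l) * A ^ 4 := by ring
  have e6 : (-1 : ℂ) ^ (a + 1) = -(-1) ^ a := by ring
  have e7 : A ^ (2 * (a + 1)) = A ^ (2 * a) * A ^ 2 := by ring
  have e8 : a + 1 + 1 = a + 2 := rfl
  rw [e7, e6, e8] at hun
  rw [e4, e5, e6]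
  generalize A ^ (2 * a) = T at *
  generalize A ^ (4 * l) = L at *
  generalize (-1 : ℂ) ^ a = s at *
  generalize ph A a = p0 at *
  generalize ph A (a + 1) = p1 at *
  generalize unknot A (a + 1) = D1 at *
  generalize unknot A (a + 2) = D2 at *
  have e9 : p0 * D1 / D2 * p1 * (-s / D1 * L + T * L * A ^ 6) = p0 * p1 * L / D2 * (-s + T * A ^ 6 * D1) := by
    field_simp
  have e10 : -s + T * A ^ 6 * D1 = -(T * A ^ 4 * D2) := by linear_combination hun
  rw [e9, e10]
  field_simp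

/-- The middle label `a + 1 ≥ 1`, down-up. Proof: `cap A j` of `du_eq` is
`ph (a+1) ph a A^(2j) • C`; the right side is as in `cap_ud`. -/
lemma cap_du (hA : A ≠ 0) (h0 : unknot A a ≠ 0) (h1 : unknot A (a + 1) ≠ 0)
    (h2 : unknot A (a + 2) ≠ 0) (hF : Homog j l F) (hj : a + 1 + 2 * l = j) :
    cap A j (stp A (j + 1) a (a + 1) (stp A j (a + 1) a F))
      = (unknot A (a + 2) / unknot A (a + 1)) •
          stp A (j + 1) (a + 2) (a + 1) (stp A j (a + 1) (a + 2) F)
        + (unknot A a / unknot A (a + 1)) •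
          stp A (j + 1) a (a + 1) (stp A j (a + 1) a F) := by
  rw [f2_rhs hA h0 h1 h2 hF hj, du_eq, cap_smul, f2_comb2 hF, smul_smul]
  congr 1
  ring

/-- The label `0`. Proof: `ud_eq` with `a = 0`, `low A j F = 0`, `j = 2l`: the function is
`A^(2j) • (put j F - A^4 • put (j+1) F)` (`D 0 = 1`, `ph 0 = ph 1 = 1`) and `cap A j` of it is
`A^(2j) (- A^(-2) - A^2) • (...)`. -/
lemma cap_zero (hA : A ≠ 0) (hF : Homog j l F) (hj : 2 * l = j) (hlow : low A j F = 0) :
    cap A j (stp A (j + 1) 1 0 (stp A j 0 1 F)) = unknot A 1 • stp A (j + 1) 1 0 (stp A j 0 1 F) := by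
  have e1 : stp A (j + 1) 1 0 (stp A j 0 1 F) = (ph A 1 * ph A 0) •
      (((-1) ^ 0 / unknot A 0) • low A j F + ((-1) ^ 0 / unknot A 0 * A ^ (4 * l)) • put j F
        - A ^ (2 * j + 4) • put (j + 1) F) := ud_eq hF
  have e2 : unknot A 0 = 1 := rfl
  have e3 : unknot A 1 = -A ^ 2 - (A ^ 2)⁻¹ := rfl
  have e4 : ph A 0 = 1 := rfl
  have e5 : ph A 1 = 1 := rfl
  rw [e1, cap_smul, f2_comb hF, hlow, e2, e3, e4, e5]
  subst hj
  funext S
  simp only [Pi.smul_apply, Pi.add_apply, Pi.sub_apply, Pi.zero_apply, smul_eq_mul]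
  have e6 : A ^ (2 * (2 * l) + 4) = A ^ (4 * l) * A ^ 4 := by ring
  rw [e6]
  have hA2 : A ^ 2 * (A ^ 2)⁻¹ = 1 := mul_inv_cancel₀ (pow_ne_zero 2 hA)
  generalize A ^ (4 * l) = L at *
  generalize put (2 * l) F S = y at *
  generalize put (2 * l + 1) F S = z at *
  generalize (A ^ 2)⁻¹ = Ai at *
  linear_combination (-(L * A ^ 2 * y) - L * A ^ 2 * z) * hA2

end Pool.Agent.H61.KR
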