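import Mathlib
import Pool.Agent.H61.KR.FTwo
import Pool.Agent.H61.KR.FNil
import Pool.Agent.H61.KR.FLow

set_option autoImplicit false

/-! # The functions of the paths intertwine `cupcap` and `cap` -/

namespace Pool.Agent.H61.KR

open Pool.Agent.H69.AMU Pool.Agent.H69.AMU.FusionPath

variable {n c L : ℕ} {A : ℂ}

/-- Proof: induction on `j`. -/
lemma vec_congr (p q : FusionPath n c L) (j : ℕ) (h : ∀ k ≤ j, p.lab k = q.lab k) :
    vec A p j = vec A q j := by
  induction j with
  | zero => rfl
  | succ j ih =>
    rw [vec, vec, ih (fun k hk => h k (by omega)), h j (by omega), h (j + 1) le_rfl]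

/-- A step above commutes with `cap`. Proof: unfold `stp`; `cap_smul`, `cap_sub`, `low_cap`,
`put_cap`. -/
lemma stp_cap (hA : A ≠ 0) (g j a b : ℕ) (h : g + 1 < j) (F : Fn) :
    stp A j a b (cap A g F) = cap A g (stp A j a b F) := by
  unfold stp
  split_ifs
  · rw [cap_smul]
  · rw [low_cap A hA g j h, put_cap A g j h, cap_smul, cap_sub, cap_smul, cap_smul]

/-- Two steps. Proof: write `a = p.lab g`, `b = p.lab (g+1)`, `F = vec A p g` (homogeneous of
degree `l`, `2l + a = g`, `homog_vec`), `vec A p (g+2) = stp A (g+1) b (p.lab (g+2)) (stp A g a b F)`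
(by `rfl`).  If `a ≠ p.lab (g+2)`: all `cupcap` coefficients vanish (`cupcap_apply_neg`), and the
steps are up-up (`cap_uu`) or down-down (`cap_dd`).  If `a = p.lab (g+2)`: evaluate at `S`
(`Finset.sum_apply`); for `q` with `AgreeOff (g+1) q p` we have `vec A q (g+2) = stp A (g+1) b' a
(stp A g a b' F)` with `b' = q.lab (g+1)` (`vec_congr` for the first `g` steps); the sum over `q`
is, by `sum_agreeOff` (with the function `b' ↦ unknot A b' / unknot A a * (stp ... b' ...) S`) and
`sum_range_neighbors`, the sum over `b' = a + 1` (`a + 1 ≤ L` since `a ≤ g`, `lab_le_pos`) and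
`b' = a - 1` (if `a ≥ 1`).  For `a ≥ 1` this is `cap_ud` or `cap_du` (with `a - 1` for `a`), for
`a = 0` it is `cap_zero`, where `low A g F = 0` by `low_iter_vec` (label `0`). -/
lemma cap_vec_two (hA : A ≠ 0) (hΔ : ∀ i ≤ n, unknot A i ≠ 0) (hL : n ≤ L)
    (p : FusionPath n c L) (g : ℕ) (hg : g + 1 < n) :
    cap A g (vec A p (g + 2)) = ∑ q, cupcap n c L A g q p • vec A q (g + 2) := by
  classical
  obtain ⟨l, hl, hF⟩ := homog_vec A p g (by omega)
  have hv : ∀ q : FusionPath n c L, vec A q (g + 2) = stp A (g + 1) (q.lab (g + 1))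
      (q.lab (g + 2)) (stp A g (q.lab g) (q.lab (g + 1)) (vec A q g)) := fun q => rfl
  have s1 : p.lab (g + 1) = p.lab g + 1 ∨ p.lab g = p.lab (g + 1) + 1 :=
    p.lab_step (by omega : g < n)
  have s2 : p.lab (g + 2) = p.lab (g + 1) + 1 ∨ p.lab (g + 1) = p.lab (g + 2) + 1 :=
    p.lab_step (by omega : g + 1 < n)
  have hag : p.lab g ≤ g := p.lab_le_pos g (by omega)
  by_cases hp : p.lab g = p.lab (g + 2)
  · obtain ⟨G, hG⟩ : ∃ G : ℕ → Fn, ∀ b, G b = (unknot A b / unknot A (p.lab g)) •
        stp A (g + 1) b (p.lab g) (stp A g (p.lab g) b (vec A p g)) := ⟨_, fun _ => rfl⟩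
    have hq : ∀ q : FusionPath n c L, cupcap n c L A g q p • vec A q (g + 2)
        = if AgreeOff (g + 1) q p then G (q.lab (g + 1)) else 0 := by
      intro q
      by_cases h : AgreeOff (g + 1) q p
      · rw [if_pos h, cupcap_apply_pos h hp, hG, hv q,
          vec_congr q p g (fun k hk => h k (by omega)), h g (by omega), h (g + 2) (by omega), ← hp]
      · rw [if_neg h, cupcap_apply_neg (fun h' => h h'.1), zero_smul]
    have hsum : (∑ q, cupcap n c L A g q p • vec A q (g + 2))
        = G (p.lab g + 1) + (if 1 ≤ p.lab g then G (p.lab g - 1) else 0) := by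
      rw [Finset.sum_congr rfl (fun q _ => hq q)]
      funext S
      rw [Finset.sum_apply]
      have h1 : ∀ q : FusionPath n c L, (if AgreeOff (g + 1) q p then G (q.lab (g + 1)) else 0 : Fn) S
          = if AgreeOff (g + 1) q p then (G (q.lab (g + 1)) S) else 0 := by
        intro q
        split_ifs <;> rfl
      rw [Finset.sum_congr rfl (fun q _ => h1 q), sum_agreeOff p g hg hp (fun b => G b S),
        sum_range_neighbors (fun b => G b S) (p.lab g) L (p.lab_le g), if_pos (by omega),
        Pi.add_apply]
      congr 1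
      split_ifs <;> rfl
    rw [hsum, hv p]
    rcases Nat.eq_zero_or_pos (p.lab g) with h0 | h0
    · have hb : p.lab (g + 1) = 1 := by omega
      have hlow : low A g (vec A p g) = 0 := by
        have h3 := low_iter_vec hA hΔ p g (by omega)
        rw [h0] at h3
        exact h3
      rw [if_neg (by omega), add_zero, hG, ← hp, hb, h0, cap_zero hA hF (by omega) hlow]
      rw [show unknot A 0 = 1 from rfl, div_one]
    · obtain ⟨a, ha⟩ : ∃ a, p.lab g = a + 1 := ⟨p.lab g - 1, by omega⟩
      have h0' := hΔ a (by omega)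
      have h1' := hΔ (a + 1) (by omega)
      have h2' := hΔ (a + 2) (by omega)
      rw [if_pos (by omega), hG, hG, ← hp, ha, Nat.add_sub_cancel]
      rcases s1 with h | h
      · have hb : p.lab (g + 1) = a + 2 := by omega
        rw [hb]
        exact cap_ud hA h0' h1' h2' hF (by omega)
      · have hb : p.lab (g + 1) = a := by omega
        rw [hb]
        exact cap_du hA h0' h1' h2' hF (by omega)
  · have hz : (∑ q, cupcap n c L A g q p • vec A q (g + 2)) = 0 := by
      refine Finset.sum_eq_zero fun q _ => ?_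
      rw [cupcap_apply_neg (fun h' => hp h'.2), zero_smul]
    rw [hz, hv p]
    rcases s1 with h | h
    · have hb : p.lab (g + 2) = p.lab g + 2 := by omega
      rw [hb, h]
      exact cap_uu hF
    · obtain ⟨e, he⟩ : ∃ e, e = p.lab (g + 2) := ⟨_, rfl⟩
      have h1 : p.lab (g + 1) = e + 1 := by omega
      have h2 : p.lab g = e + 2 := by omega
      rw [← he, h1, h2]
      exact cap_dd hA (hΔ e (by omega)) (hΔ (e + 1) (by omega)) hF (by omega)

/-- Proof: for `g + 2 ≤ k ≤ n` show `cap A g (vec A p k) = ∑ q, cupcap q p • vec A q k` by induction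
on `k` (`Nat.le_induction`): start `cap_vec_two`; step: `vec A q (k+1) = stp A k (q.lab k)
(q.lab (k+1)) (vec A q k)` and for `q` with `cupcap q p ≠ 0` (so `AgreeOff (g+1) q p`) the labels at
`k`, `k+1` are those of `p`; `stp_cap`, linearity of `stp` (`stp_add`, `stp_smul`). -/
theorem cap_vec (hA : A ≠ 0) (hΔ : ∀ i ≤ n, unknot A i ≠ 0) (hL : n ≤ L)
    (p : FusionPath n c L) (g : ℕ) (hg : g + 1 < n) :
    cap A g (vec A p n) = ∑ q, cupcap n c L A g q p • vec A q n := by
  classical
  have key : ∀ k, g + 2 ≤ k → k ≤ n →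
      cap A g (vec A p k) = ∑ q, cupcap n c L A g q p • vec A q k := by
    intro k hk
    induction k, hk using Nat.le_induction with
    | base =>
      intro _
      exact cap_vec_two hA hΔ hL p g hg
    | succ k hk ih =>
      intro hk2
      have h1 := ih (by omega)
      rw [show vec A p (k + 1) = stp A k (p.lab k) (p.lab (k + 1)) (vec A p k) from rfl,
        ← stp_cap hA g k _ _ (by omega), h1]
      have h2 : ∀ s : Finset (FusionPath n c L), stp A k (p.lab k) (p.lab (k + 1))
          (∑ q ∈ s, cupcap n c L A g q p • vec A q k)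
          = ∑ q ∈ s, cupcap n c L A g q p • vec A q (k + 1) := by
        intro s
        induction s using Finset.induction_on with
        | empty =>
          have h3 := stp_smul A k (p.lab k) (p.lab (k + 1)) 0 (0 : Fn)
          rw [Finset.sum_empty, Finset.sum_empty]
          simpa using h3
        | insert q s hq ih =>
          rw [Finset.sum_insert hq, Finset.sum_insert hq, stp_add, ih, stp_smul]
          congr 1
          by_cases h4 : AgreeOff (g + 1) q p ∧ p.lab g = p.lab (g + 2)
          · rw [show vec A q (k + 1) = stp A k (q.lab k) (q.lab (k + 1)) (vec A q k) from rfl,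
              h4.1 k (by omega), h4.1 (k + 1) (by omega)]
          · rw [cupcap_apply_neg h4, zero_smul, zero_smul]
      exact h2 _
  exact key n (by omega) le_rfl

end Pool.Agent.H61.KR
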