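import Mathlib
import Pool.Agent.H61.KR.FLin

set_option autoImplicit false

/-! # Temperley-Lieb relations for the operators `cap`

All identities are local: fix `S`, and look at the membership of the two (three) sites. -/

namespace Pool.Agent.H61.KR

open Pool.Agent.H69.AMU

private lemma ftl_a {g : ℕ} {S : Finset ℕ} : g ∈ sw g S ↔ g + 1 ∈ S := by
  rw [mem_sw, Equiv.swap_apply_left]

private lemma ftl_b {g : ℕ} {S : Finset ℕ} : g + 1 ∈ sw g S ↔ g ∈ S := by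
  rw [mem_sw, Equiv.swap_apply_right]

private lemma ftl_c {g x : ℕ} {S : Finset ℕ} (h1 : x ≠ g) (h2 : x ≠ g + 1) : x ∈ sw g S ↔ x ∈ S := by
  rw [mem_sw, Equiv.swap_apply_of_ne_of_ne h1 h2]

private lemma ftl_d {g : ℕ} {S : Finset ℕ} : g + 1 + 1 ∈ sw g S ↔ g + 1 + 1 ∈ S :=
  ftl_c (by omega) (by omega)

private lemma ftl_e {g : ℕ} {S : Finset ℕ} : g ∈ sw (g + 1) S ↔ g ∈ S :=
  ftl_c (by omega) (by omega)

private lemma ftl_comm {g h : ℕ} (hgh : g + 2 ≤ h) (S : Finset ℕ) : sw g (sw h S) = sw h (sw g S) := by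
  ext x
  rw [mem_sw, mem_sw, mem_sw, mem_sw]
  have e : Equiv.swap h (h + 1) (Equiv.swap g (g + 1) x) = Equiv.swap g (g + 1) (Equiv.swap h (h + 1) x) := by
    simp only [Equiv.swap_apply_def]
    split_ifs <;> omega
  rw [e]

/-- Proof: `funext S`, cases on `g ∈ S`, `g + 1 ∈ S` (use `mem_sw`, `Equiv.swap_apply_left`,
`Equiv.swap_apply_right`, `sw_sw`). If both or none: both sides `0`. If `g ∈ S`, `g+1 ∉ S`:
`cap F S = A⁻² (F S' - F S)`, `cap F S' = A² (F S - F S')` with `S' = sw g S`, so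
`cap (cap F) S = A⁻² (cap F S' - cap F S) = (1 + A⁻⁴)(F S - F S')
= (-A² - A⁻²) A⁻² (F S' - F S)`; the other case is the same. `unknot A 1 = -A^2 - (A^2)⁻¹` is `rfl`. -/
lemma cap_cap (A : ℂ) (hA : A ≠ 0) (g : ℕ) (F : Fn) :
    cap A g (cap A g F) = unknot A 1 • cap A g F := by
  have hA2 : A ^ 2 ≠ 0 := pow_ne_zero 2 hA
  funext S
  by_cases h1 : g ∈ S <;> by_cases h2 : g + 1 ∈ S <;>
    simp [-mul_eq_mul_left_iff, -mul_eq_mul_right_iff, cap, ftl_a, ftl_b, sw_sw, h1, h2, unknot] <;> field_simp <;> ring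

/-- Proof: `funext S`; only the membership of `g, g+1, g+2` matters (8 cases). If exactly one of the
three sites is occupied write `x, y, z` for the values of `F` at the three sets obtained from `S` by
occupying `g`, `g+1`, `g+2` respectively: `cap A g` maps `(x,y,z)` to
`(A⁻²(y-x), A²(x-y), 0)`, `cap A (g+1)` maps it to `(0, A⁻²(z-y), A²(y-z))`.  If exactly two are
occupied: the same with values at `{g,g+1}`, `{g,g+2}`, `{g+1,g+2}`: `cap A g` maps `(x,y,z)` to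
`(0, A⁻²(z-y), A²(y-z))`, `cap A (g+1)` maps `(x,y,z)` to `(A⁻²(y-x), A²(x-y), 0)`.
Then `cap g (cap (g+1) (cap g F)) = cap g F` is a computation. -/
lemma cap_up (A : ℂ) (hA : A ≠ 0) (g : ℕ) (F : Fn) :
    cap A g (cap A (g + 1) (cap A g F)) = cap A g F := by
  have hA2 : A ^ 2 ≠ 0 := pow_ne_zero 2 hA
  funext S
  by_cases h1 : g ∈ S <;> by_cases h2 : g + 1 ∈ S <;> by_cases h3 : g + 1 + 1 ∈ S <;>
    simp [-mul_eq_mul_left_iff, -mul_eq_mul_right_iff, cap, ftl_a, ftl_b, ftl_d, ftl_e, sw_sw, h1, h2, h3] <;> field_simp <;> ring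

/-- Proof: as `cap_up`. -/
lemma cap_down (A : ℂ) (hA : A ≠ 0) (g : ℕ) (F : Fn) :
    cap A (g + 1) (cap A g (cap A (g + 1) F)) = cap A (g + 1) F := by
  have hA2 : A ^ 2 ≠ 0 := pow_ne_zero 2 hA
  funext S
  by_cases h1 : g ∈ S <;> by_cases h2 : g + 1 ∈ S <;> by_cases h3 : g + 1 + 1 ∈ S <;>
    simp [-mul_eq_mul_left_iff, -mul_eq_mul_right_iff, cap, ftl_a, ftl_b, ftl_d, ftl_e, sw_sw, h1, h2, h3] <;> field_simp <;> ring

/-- Proof: `funext S`; for `g + 2 ≤ h` the exchanges commute (`sw g (sw h S) = sw h (sw g S)`) and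
`g, g+1 ∈ sw h S ↔ g, g+1 ∈ S` etc.; cases, `ring`. -/
lemma cap_comm (A : ℂ) (g h : ℕ) (hgh : g + 2 ≤ h) (F : Fn) :
    cap A g (cap A h F) = cap A h (cap A g F) := by
  have c1 : ∀ S : Finset ℕ, g ∈ sw h S ↔ g ∈ S := fun S => ftl_c (by omega) (by omega)
  have c2 : ∀ S : Finset ℕ, g + 1 ∈ sw h S ↔ g + 1 ∈ S := fun S => ftl_c (by omega) (by omega)
  have c3 : ∀ S : Finset ℕ, h ∈ sw g S ↔ h ∈ S := fun S => ftl_c (by omega) (by omega)
  have c4 : ∀ S : Finset ℕ, h + 1 ∈ sw g S ↔ h + 1 ∈ S := fun S => ftl_c (by omega) (by omega)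
  funext S
  have e := ftl_comm hgh S
  by_cases h1 : g ∈ S <;> by_cases h2 : g + 1 ∈ S <;> by_cases h3 : h ∈ S <;> by_cases h4 : h + 1 ∈ S <;>
    simp [-mul_eq_mul_left_iff, -mul_eq_mul_right_iff, cap, c1, c2, c3, c4, h1, h2, h3, h4, e] <;> ring

end Pool.Agent.H61.KR
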