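import Mathlib
import Pool.Agent.H61.KR.FTL
import Pool.Agent.H61.KR.FInt
import Pool.Agent.H69.AMU.Cable

set_option autoImplicit false

/-! # The braid group on functions, and the intertwiner -/

namespace Pool.Agent.H61.KR

open Pool.Agent.H69.AMU Pool.Agent.H69.AMU.FusionPath Matrix

/-- `cap` as a linear map. -/
noncomputable def capL (A : ℂ) (g : ℕ) : Module.End ℂ Fn where
  toFun := cap A g
  map_add' := cap_add A g
  map_smul' := cap_smul A g

private lemma capL_sq (A : ℂ) (hA : A ≠ 0) (g : ℕ) :
    capL A g * capL A g = unknot A 1 • capL A g := by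
  apply LinearMap.ext
  intro F
  exact cap_cap A hA g F

/-- The positive crossing on functions, `A + A⁻¹ cap`.
Proof of the two identities: `capL * capL = unknot A 1 • capL` (`cap_cap`), as in
`crossing_mul_inv` (`match_scalars`, `field_simp`, `ring`). -/
noncomputable def sgu (A : ℂ) (hA : A ≠ 0) (g : ℕ) : (Module.End ℂ Fn)ˣ where
  val := A • 1 + A⁻¹ • capL A g
  inv := A⁻¹ • 1 + A • capL A g
  val_inv := by
    simp only [add_mul, mul_add, smul_mul_assoc, mul_smul_comm, one_mul, mul_one,
      capL_sq A hA g, unknot]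
    match_scalars
    · field_simp
    · field_simp
      ring
  inv_val := by
    simp only [add_mul, mul_add, smul_mul_assoc, mul_smul_comm, one_mul, mul_one,
      capL_sq A hA g, unknot]
    match_scalars
    · field_simp
    · field_simp
      ring

/-- Proof: `Units.ext`; as `crossing_comm` and `crossing_braid` (the same computation with
`U = capL A i`, `V = capL A (i+1)`: `U * U = unknot A 1 • U`, `U * V * U = U`, `V * U * V = V` from
`cap_cap`, `cap_up`, `cap_down`, `cap_comm` by `LinearMap.ext`). -/
lemma artinSeq_sgu (A : ℂ) (hA : A ≠ 0) (M : ℕ) : ArtinSeq (sgu A hA) M := by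
  constructor
  · intro i j hij hj
    apply Units.ext
    show (A • (1 : Module.End ℂ Fn) + A⁻¹ • capL A i) * (A • (1 : Module.End ℂ Fn) + A⁻¹ • capL A j)
      = (A • (1 : Module.End ℂ Fn) + A⁻¹ • capL A j) * (A • (1 : Module.End ℂ Fn) + A⁻¹ • capL A i)
    have h : capL A i * capL A j = capL A j * capL A i := by
      apply LinearMap.ext
      intro F
      exact cap_comm A i j hij F
    simp only [add_mul, mul_add, smul_mul_assoc, mul_smul_comm, one_mul, mul_one, h]
    match_scalars <;> ring
  · intro i hi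
    apply Units.ext
    show (A • (1 : Module.End ℂ Fn) + A⁻¹ • capL A i) *
        (A • (1 : Module.End ℂ Fn) + A⁻¹ • capL A (i + 1)) *
        (A • (1 : Module.End ℂ Fn) + A⁻¹ • capL A i)
      = (A • (1 : Module.End ℂ Fn) + A⁻¹ • capL A (i + 1)) *
        (A • (1 : Module.End ℂ Fn) + A⁻¹ • capL A i) *
        (A • (1 : Module.End ℂ Fn) + A⁻¹ • capL A (i + 1))
    have h1 := capL_sq A hA i
    have h2 := capL_sq A hA (i + 1)
    have h3 : capL A i * capL A (i + 1) * capL A i = capL A i := by
      apply LinearMap.ext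
      intro F
      exact cap_up A hA i F
    have h4 : capL A (i + 1) * capL A i * capL A (i + 1) = capL A (i + 1) := by
      apply LinearMap.ext
      intro F
      exact cap_down A hA i F
    simp only [add_mul, mul_add, smul_mul_assoc, mul_smul_comm, one_mul, mul_one, h1, h2, h3, h4,
      unknot]
    match_scalars <;> field_simp <;> ring

/-- The braid group on functions. -/
noncomputable def rho (A : ℂ) (hA : A ≠ 0) (N : ℕ) : BraidGroup N →* (Module.End ℂ Fn)ˣ :=
  braidLift (artinSeq_sgu A hA (N - 1))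

lemma rho_gen (A : ℂ) (hA : A ≠ 0) (N : ℕ) {g : ℕ} (hg : g < N - 1) :
    rho A hA N (gen N g) = sgu A hA g := braidLift_gen _ hg

variable {n c L : ℕ} {A : ℂ}

/-- The map from the path space to functions. -/
noncomputable def Phi (A : ℂ) (w : FusionPath n c L → ℂ) : Fn := ∑ p, w p • vec A p n

lemma Phi_add (w w' : FusionPath n c L → ℂ) : Phi A (w + w') = Phi A w + Phi A w' := by
  simp [Phi, add_smul, Finset.sum_add_distrib]

lemma Phi_smul (a : ℂ) (w : FusionPath n c L → ℂ) : Phi A (a • w) = a • Phi A w := by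
  simp [Phi, mul_smul, Finset.smul_sum]

/-- Proof: `mulVec`, `Finset.sum_comm`, and `cap_vec` for each path. -/
lemma Phi_cupcap (hA : A ≠ 0) (hΔ : ∀ i ≤ n, unknot A i ≠ 0) (hL : n ≤ L) (g : ℕ) (hg : g + 1 < n)
    (w : FusionPath n c L → ℂ) :
    Phi A (cupcap n c L A g *ᵥ w) = cap A g (Phi A w) := by
  have h1 : ∀ p : FusionPath n c L, (cupcap n c L A g *ᵥ w) p = ∑ q, cupcap n c L A g p q * w q :=
    fun p => rfl
  have h2 : cap A g (Phi A w) = ∑ q, w q • cap A g (vec A q n) := by
    show capL A g (∑ q, w q • vec A q n) = _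
    rw [map_sum]
    refine Finset.sum_congr rfl fun q _ => ?_
    rw [map_smul]
    rfl
  rw [h2, Phi]
  simp only [h1, Finset.sum_smul]
  rw [Finset.sum_comm]
  refine Finset.sum_congr rfl fun q _ => ?_
  rw [cap_vec hA hΔ hL q g hg, Finset.smul_sum]
  refine Finset.sum_congr rfl fun p _ => ?_
  rw [smul_smul, mul_comm]

/-- Proof: closure induction on `b` (`closure_gen`, as in `braid_induction` of `Coc.lean`), for all
`w`. Generators: `braidRep_gen`-type formula `(braidRep (gen n g)).val = A • 1 + A⁻¹ • cupcap g`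
(`gen_of_lt`, `braidRep_of`, `sigma`, `crossing`), `rho_gen`, `Phi_cupcap`, linearity of `Phi`.
Products clear.  Inverse of `x`: apply the statement for `x` to `w' = (braidRep x⁻¹) *ᵥ w`:
`Phi w = rho x (Phi w')`, then apply `rho x⁻¹`. -/
theorem Phi_braidRep (hA : Admissible n L A) (hL : n ≤ L) (b : BraidGroup n)
    (w : FusionPath n c L → ℂ) :
    Phi A ((braidRep n c L A hA b).val *ᵥ w) = (rho A hA.1 n b).val (Phi A w) := by
  have hΔ : ∀ i ≤ n, unknot A i ≠ 0 := fun i hi => hA.2.1 i (hi.trans hL)
  have hmem : b ∈ Subgroup.closure (gen n '' Set.Iio (n - 1)) := by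
    rw [closure_gen]
    exact Subgroup.mem_top b
  induction hmem using Subgroup.closure_induction generalizing w with
  | mem x hx =>
    obtain ⟨i, hi, rfl⟩ := hx
    have hi' : i < n - 1 := hi
    have h1 : (braidRep n c L A hA (gen n i)).val
        = A • (1 : Matrix (FusionPath n c L) (FusionPath n c L) ℂ) + A⁻¹ • cupcap n c L A i := by
      rw [gen_of_lt hi', braidRep_of]
      rfl
    rw [h1, rho_gen A hA.1 n hi', Matrix.add_mulVec, Matrix.smul_mulVec, Matrix.smul_mulVec,
      Matrix.one_mulVec, Phi_add, Phi_smul, Phi_smul, Phi_cupcap hA.1 hΔ hL i (by omega)]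
    rfl
  | one =>
    rw [map_one, map_one, Units.val_one, Units.val_one, Matrix.one_mulVec, Module.End.one_apply]
  | mul x y _ _ hx hy =>
    rw [map_mul, map_mul, Units.val_mul, Units.val_mul, ← Matrix.mulVec_mulVec, hx, hy,
      Module.End.mul_apply]
  | inv x _ hx =>
    have h1 := hx ((braidRep n c L A hA x⁻¹).val *ᵥ w)
    rw [Matrix.mulVec_mulVec, ← Units.val_mul, ← map_mul, mul_inv_cancel, map_one, Units.val_one,
      Matrix.one_mulVec] at h1
    rw [h1, ← Module.End.mul_apply, ← Units.val_mul, ← map_mul, inv_mul_cancel, map_one,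
      Units.val_one, Module.End.one_apply]

end Pool.Agent.H61.KR
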