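import Mathlib
import Pool.Agent.H61.KR.FRho

set_option autoImplicit false

/-! # Normalised crossings on functions of one and two sites -/

namespace Pool.Agent.H61.KR

open Pool.Agent.H69.AMU

/-- The normalised crossing `A⁻¹ σ`, with `v = A^(-4)`. -/
noncomputable def tr (v : ℂ) (g : ℕ) (F : Fn) : Fn := fun S =>
  if g ∈ S ∧ g + 1 ∉ S then v * F (sw g S) + (1 - v) * F S
  else if g ∉ S ∧ g + 1 ∈ S then F (sw g S)
  else F S

/-- `trun v m l` corresponds to `run s m l`. -/
noncomputable def trun (v : ℂ) (m : ℕ) : ℕ → Fn → Fn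
  | 0, F => F
  | (l + 1), F => trun v m l (tr v (m + l) F)

/-- `tblk v m k l` corresponds to `blk s m k l`. -/
noncomputable def tblk (v : ℂ) (m : ℕ) : ℕ → ℕ → Fn → Fn
  | 0, _, F => F
  | (k + 1), l, F => trun v (m + k) l (tblk v m k l F)

/-- Proof: `funext S`, unfold, cases; `A⁻¹ * (A^2)⁻¹ = A * (A^4)⁻¹`. -/
lemma sgu_apply (A : ℂ) (hA : A ≠ 0) (g : ℕ) (F : Fn) :
    (sgu A hA g).val F = A • tr ((A ^ 4)⁻¹) g F := by
  have h1 : (sgu A hA g).val F = A • F + A⁻¹ • cap A g F := rfl
  rw [h1]
  funext S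
  simp only [Pi.add_apply, Pi.smul_apply, smul_eq_mul, cap, tr]
  split_ifs
  · field_simp
    ring
  · field_simp
    ring
  · ring

lemma tr_smul (v : ℂ) (g : ℕ) (c : ℂ) (F : Fn) : tr v g (c • F) = c • tr v g F := by
  funext S; simp only [tr, Pi.smul_apply, smul_eq_mul]; split_ifs <;> ring

lemma run_sgu_apply (A : ℂ) (hA : A ≠ 0) (m l : ℕ) (F : Fn) :
    (run (sgu A hA) m l).val F = A ^ l • trun ((A ^ 4)⁻¹) m l F := by
  induction l generalizing F with
  | zero => simp [run, trun]
  | succ l ih =>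
    rw [run, Units.val_mul, Module.End.mul_apply, sgu_apply, map_smul, ih, smul_smul, trun,
      ← pow_succ']

/-- Proof: two inductions; `run`, `blk` are products, `Units.val_mul`, `Module.End.mul_apply`
(so in `run s m (l+1) = run s m l * s (m+l)` the factor `s (m+l)` acts first), `sgu_apply`,
linearity (`tr_smul`, and the same for `trun`, `tblk`); `A^(k l)` collects the factors. -/
lemma blk_sgu_apply (A : ℂ) (hA : A ≠ 0) (m k l : ℕ) (F : Fn) :
    (blk (sgu A hA) m k l).val F = A ^ (k * l) • tblk ((A ^ 4)⁻¹) m k l F := by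
  induction k with
  | zero => simp [blk, tblk]
  | succ k ih =>
    rw [blk, Units.val_mul, Module.End.mul_apply, ih, map_smul, run_sgu_apply, smul_smul, tblk,
      ← pow_add, Nat.succ_mul]

lemma run_congr {G : Type*} [Group G] {s s' : ℕ → G} (m l : ℕ)
    (h : ∀ j, m ≤ j → j < m + l → s j = s' j) : run s m l = run s' m l := by
  induction l with
  | zero => rfl
  | succ l ih =>
    rw [run, run, ih (fun j h1 h2 => h j h1 (by omega)), h (m + l) (by omega) (by omega)]

lemma blk_congr {G : Type*} [Group G] {s s' : ℕ → G} (m k l : ℕ)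
    (h : ∀ j, m ≤ j → j + 1 < m + k + l → s j = s' j) : blk s m k l = blk s' m k l := by
  induction k with
  | zero => rfl
  | succ k ih =>
    rw [blk, blk, ih (fun j h1 h2 => h j h1 (by omega)),
      run_congr (m + k) l (fun j h1 h2 => h j (by omega) (by omega))]

/-- Proof: `map_blk`; `blk` only uses the generators `j` with `m ≤ j`, `j + 1 < m + k + l` (prove a
congruence lemma by induction: if `s j = s' j` for these `j` then `blk s m k l = blk s' m k l`, the
same for `run`), and for these `rho_gen` applies (`j < N - 1`). -/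
lemma rho_blk (A : ℂ) (hA : A ≠ 0) {N m k l : ℕ} (h : m + k + l ≤ N) :
    rho A hA N (blk (gen N) m k l) = blk (sgu A hA) m k l := by
  rw [map_blk]
  exact blk_congr m k l (fun j _ h2 => rho_gen A hA N (by omega))

/-! One site -/

/-- The crossing on functions of one site. -/
noncomputable def t1 (v : ℂ) (g : ℕ) (f : ℕ → ℂ) : ℕ → ℂ := fun p =>
  if p = g then v * f (g + 1) + (1 - v) * f g else if p = g + 1 then f g else f p

noncomputable def t1run (v : ℂ) (m : ℕ) : ℕ → (ℕ → ℂ) → ℕ → ℂ
  | 0, f => f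
  | (l + 1), f => t1run v m l (t1 v (m + l) f)

noncomputable def t1blk (v : ℂ) (m : ℕ) : ℕ → ℕ → (ℕ → ℂ) → ℕ → ℂ
  | 0, _, f => f
  | (k + 1), l, f => t1run v (m + k) l (t1blk v m k l f)

/-- Proof: `funext p`; `g ∈ {p} ↔ p = g`, `sw g {g} = {g+1}`, `sw g {g+1} = {g}`. -/
lemma tr_one (v : ℂ) (g : ℕ) (F : Fn) :
    (fun p => tr v g F {p}) = t1 v g (fun p => F {p}) := by
  funext p
  have hsw : sw g {p} = {Equiv.swap g (g + 1) p} := by
    ext x
    rw [mem_sw, Finset.mem_singleton, Finset.mem_singleton, Equiv.swap_apply_eq_iff]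
  unfold tr t1
  rw [hsw]
  by_cases h1 : p = g
  · subst h1
    simp
  · by_cases h2 : p = g + 1
    · subst h2
      simp
    · have h3 : g ≠ p := fun h => h1 h.symm
      have h4 : g + 1 ≠ p := fun h => h2 h.symm
      simp [h1, h2, h3, h4]

lemma trun_one (v : ℂ) (m l : ℕ) (F : Fn) :
    (fun p => trun v m l F {p}) = t1run v m l (fun p => F {p}) := by
  induction l generalizing F with
  | zero => rfl
  | succ l ih => rw [trun, t1run, ih, tr_one]

/-- Proof: two inductions with `tr_one`. -/
lemma tblk_one (v : ℂ) (m k l : ℕ) (F : Fn) :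
    (fun p => tblk v m k l F {p}) = t1blk v m k l (fun p => F {p}) := by
  induction k with
  | zero => rfl
  | succ k ih => rw [tblk, t1blk, trun_one, ih]

/-! Two sites: `f p q` is only used for `p < q` -/

/-- The crossing on functions of two sites `p < q`. -/
noncomputable def t2 (v : ℂ) (g : ℕ) (f : ℕ → ℕ → ℂ) : ℕ → ℕ → ℂ := fun p q =>
  if p = g then (if q = g + 1 then f g (g + 1) else v * f (g + 1) q + (1 - v) * f g q)
  else if p = g + 1 then f g q
  else if q = g then v * f p (g + 1) + (1 - v) * f p g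
  else if q = g + 1 then f p g
  else f p q

noncomputable def t2run (v : ℂ) (m : ℕ) : ℕ → (ℕ → ℕ → ℂ) → ℕ → ℕ → ℂ
  | 0, f => f
  | (l + 1), f => t2run v m l (t2 v (m + l) f)

noncomputable def t2blk (v : ℂ) (m : ℕ) : ℕ → ℕ → (ℕ → ℕ → ℂ) → ℕ → ℕ → ℂ
  | 0, _, f => f
  | (k + 1), l, f => t2run v (m + k) l (t2blk v m k l f)

/-- Proof: cases as in the definition of `t2` (`g ∈ {p, q}`, `g + 1 ∈ {p, q}`,
`sw g {g, q} = {g+1, q}` for `q ≠ g, g+1`, etc.; for `p < q`, `q = g` implies `p < g`). -/
lemma tr_two (v : ℂ) (g : ℕ) (F : Fn) {p q : ℕ} (hpq : p < q) :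
    tr v g F {p, q} = t2 v g (fun a b => F {a, b}) p q := by
  have hsw : sw g {p, q} = {Equiv.swap g (g + 1) p, Equiv.swap g (g + 1) q} := by
    ext x
    rw [mem_sw, Finset.mem_insert, Finset.mem_insert, Finset.mem_singleton,
      Finset.mem_singleton, Equiv.swap_apply_eq_iff, Equiv.swap_apply_eq_iff]
  unfold tr t2
  rw [hsw]
  by_cases h1 : p = g
  · subst h1
    by_cases h2 : q = p + 1
    · subst h2
      simp
    · have h3 : p + 1 ≠ q := fun h => h2 h.symm
      have h4 : q ≠ p := by omega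
      have h5 : Equiv.swap p (p + 1) q = q := Equiv.swap_apply_of_ne_of_ne h4 h2
      rw [h5]
      simp [h2, h3]
  · by_cases h2 : p = g + 1
    · subst h2
      have h3 : g ≠ q := by omega
      have h4 : Equiv.swap g (g + 1) q = q :=
        Equiv.swap_apply_of_ne_of_ne (by omega) (by omega)
      rw [h4]
      simp [h3]
    · have h0 : Equiv.swap g (g + 1) p = p := Equiv.swap_apply_of_ne_of_ne h1 h2
      have h3 : g ≠ p := fun h => h1 h.symm
      have h4 : g + 1 ≠ p := fun h => h2 h.symm
      rw [h0]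
      by_cases h5 : q = g
      · subst h5
        simp [h1, h2, h4]
      · by_cases h6 : q = g + 1
        · subst h6
          simp [h1, h2, h3]
        · have h7 : g ≠ q := fun h => h5 h.symm
          have h8 : g + 1 ≠ q := fun h => h6 h.symm
          simp [h1, h2, h3, h4, h5, h6, h7, h8]

/-- `t2` only uses the values at pairs `a < b`. -/
lemma t2_congr (v : ℂ) (g : ℕ) {f f' : ℕ → ℕ → ℂ} (h : ∀ a b, a < b → f a b = f' a b) {p q : ℕ}
    (hpq : p < q) : t2 v g f p q = t2 v g f' p q := by
  unfold t2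
  split_ifs with h1 h2 h3 h4 h5
  · exact h _ _ (by omega)
  · rw [h (g + 1) q (by omega), h g q (by omega)]
  · exact h _ _ (by omega)
  · rw [h p (g + 1) (by omega), h p g (by omega)]
  · exact h _ _ (by omega)
  · exact h _ _ hpq

lemma trun_two (v : ℂ) (m l : ℕ) (F : Fn) (f : ℕ → ℕ → ℂ)
    (h : ∀ a b, a < b → F {a, b} = f a b) {p q : ℕ} (hpq : p < q) :
    trun v m l F {p, q} = t2run v m l f p q := by
  induction l generalizing F f with
  | zero => exact h p q hpq
  | succ l ih =>
    rw [trun, t2run]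
    refine ih _ _ fun a b hab => ?_
    rw [tr_two v (m + l) F hab]
    exact t2_congr v (m + l) h hab

/-- Proof: two inductions with `tr_two`, `t2_congr`. -/
lemma tblk_two (v : ℂ) (m k l : ℕ) (F : Fn) {p q : ℕ} (hpq : p < q) :
    tblk v m k l F {p, q} = t2blk v m k l (fun a b => F {a, b}) p q := by
  induction k generalizing p q with
  | zero => rfl
  | succ k ih =>
    rw [tblk, t2blk]
    exact trun_two v (m + k) l _ _ (fun a b hab => ih hab) hpq

end Pool.Agent.H61.KR
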