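import Mathlib
import Pool.Agent.H61.KR.BDefs

set_option autoImplicit false

/-! # Block crossing, one site

The source is constant `x` on the block `[m, m+l)` and `y` on the block `[m+l, m+l+k)`. -/

namespace Pool.Agent.H61.KR

/-- Proof: induction on `l` with `f` general. Precisely: the function `t1run v m l f` for
`f = x` on `[m, m+l)` and `f (m+l) = y`: `t1 v (m+l-1) f` has the value `v y + (1-v) x` at `m+l-1`
and `x` at `m + l`; now apply the induction hypothesis with `l - 1` and `y' = v y + (1-v) x`:
the value at `m` is `(1 - v^(l-1)) x + v^(l-1) y' = (1 - v^l) x + v^l y`. -/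
lemma t1run_apply (v : ℂ) (m l : ℕ) (f : ℕ → ℂ) (x y : ℂ) (hx : ∀ p, m ≤ p → p < m + l → f p = x)
    (hy : f (m + l) = y) (p : ℕ) : t1run v m l f p =
      if p = m then (1 - v ^ l) * x + v ^ l * y
      else if m < p ∧ p ≤ m + l then x else f p := by
  induction l generalizing f y with
  | zero =>
    show f p = _
    by_cases h : p = m
    · subst h
      rw [if_pos rfl, ← hy]
      simp
    · rw [if_neg h, if_neg (by omega)]
  | succ l ih =>
    show t1run v m l (t1 v (m + l) f) p = _
    have h1 : f (m + l) = x := hx _ (by omega) (by omega)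
    have h2 : f (m + l + 1) = y := hy
    rw [ih (t1 v (m + l) f) (v * y + (1 - v) * x) ?_ ?_]
    · by_cases h : p = m
      · rw [if_pos h, if_pos h]
        ring
      · rw [if_neg h, if_neg h]
        by_cases h3 : m < p ∧ p ≤ m + l
        · rw [if_pos h3, if_pos (by omega)]
        · rw [if_neg h3]
          by_cases h4 : p = m + l + 1
          · rw [if_pos (by omega)]
            subst h4
            unfold t1
            rw [if_neg (by omega), if_pos rfl, h1]
          · rw [if_neg (by omega)]
            unfold t1
            rw [if_neg (by omega), if_neg h4]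
    · intro q hq1 hq2
      unfold t1
      rw [if_neg (by omega), if_neg (by omega)]
      exact hx q hq1 (by omega)
    · unfold t1
      rw [if_pos rfl, h1, h2]

/-- Proof: induction on `k` (for all `f`): after `t1blk v m k l` the values are
`(1 - v^l) x + v^l y` on `[m, m+k)`, `x` on `[m+k, m+k+l)`, `y` at `m+k+l`; apply
`t1run_apply v (m+k) l`. -/
lemma t1blk_apply (v : ℂ) (m k l : ℕ) (f : ℕ → ℂ) (x y : ℂ)
    (hx : ∀ p, m ≤ p → p < m + l → f p = x) (hy : ∀ p, m + l ≤ p → p < m + l + k → f p = y)
    (p : ℕ) : t1blk v m k l f p =
      if m ≤ p ∧ p < m + k then (1 - v ^ l) * x + v ^ l * y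
      else if m + k ≤ p ∧ p < m + k + l then x else f p := by
  induction k generalizing p with
  | zero =>
    show f p = _
    rw [if_neg (by omega)]
    by_cases h : m + 0 ≤ p ∧ p < m + 0 + l
    · rw [if_pos h]
      exact hx p (by omega) (by omega)
    · rw [if_neg h]
  | succ k ih =>
    have ih' := ih (fun q hq1 hq2 => hy q hq1 (by omega))
    show t1run v (m + k) l (t1blk v m k l f) p = _
    rw [t1run_apply v (m + k) l (t1blk v m k l f) x y ?_ ?_]
    · by_cases h : p = m + k
      · rw [if_pos h, if_pos (by omega)]
      · rw [if_neg h]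
        by_cases h3 : m + k < p ∧ p ≤ m + k + l
        · rw [if_pos h3, if_neg (by omega), if_pos (by omega)]
        · rw [if_neg h3, ih' p]
          by_cases h4 : m ≤ p ∧ p < m + k
          · rw [if_pos h4, if_pos (by omega)]
          · rw [if_neg h4, if_neg (by omega), if_neg (by omega), if_neg (by omega)]
    · intro q hq1 hq2
      rw [ih' q, if_neg (by omega), if_pos (by omega)]
    · rw [ih' (m + k + l), if_neg (by omega), if_neg (by omega)]
      exact hy _ (by omega) (by omega)

end Pool.Agent.H61.KR
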