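import Mathlib
import Pool.Agent.H61.KR.BOne

set_option autoImplicit false

/-! # Block crossing, two sites

The source: blocks `[m, m+l)` and `[m+l, m+l+k)`. -/

namespace Pool.Agent.H61.KR

private lemma t1run_out (v : ℂ) (m l : ℕ) (f : ℕ → ℂ) (p : ℕ) (hp : p < m ∨ m + l < p) :
    t1run v m l f p = f p := by
  induction l generalizing f with
  | zero => rfl
  | succ l ih =>
    change t1run v m l (t1 v (m + l) f) p = f p
    rw [ih _ (by omega)]
    simp only [t1]
    rw [if_neg (by omega), if_neg (by omega)]

private lemma t1blk_out (v : ℂ) (m k l : ℕ) (f : ℕ → ℂ) (p : ℕ) (hp : p < m ∨ m + k + l ≤ p) :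
    t1blk v m k l f p = f p := by
  induction k with
  | zero => rfl
  | succ k ih =>
    change t1run v (m + k) l (t1blk v m k l f) p = f p
    rw [t1run_out _ _ _ _ _ (by omega), ih (by omega)]

private lemma t2_left (v : ℂ) (g : ℕ) (f : ℕ → ℕ → ℂ) (r : ℕ) (hr : r < g) :
    t2 v g f r = t1 v g (f r) := by
  funext q
  simp only [t2, t1]
  rw [if_neg (by omega), if_neg (by omega)]

private lemma t2run_left (v : ℂ) (m l : ℕ) (f : ℕ → ℕ → ℂ) (r : ℕ) (hr : r < m) :
    t2run v m l f r = t1run v m l (f r) := by
  induction l generalizing f with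
  | zero => rfl
  | succ l ih =>
    change t2run v m l (t2 v (m + l) f) r = t1run v m l (t1 v (m + l) (f r))
    rw [ih, t2_left _ _ _ _ (by omega)]

private lemma t2blk_left' (v : ℂ) (m k l : ℕ) (f : ℕ → ℕ → ℂ) (r : ℕ) (hr : r < m) :
    t2blk v m k l f r = t1blk v m k l (f r) := by
  induction k with
  | zero => rfl
  | succ k ih =>
    change t2run v (m + k) l (t2blk v m k l f) r = t1run v (m + k) l (t1blk v m k l (f r))
    rw [t2run_left _ _ _ _ _ (by omega), ih]

private lemma t2_right (v : ℂ) (g : ℕ) (f : ℕ → ℕ → ℂ) (r : ℕ) (hr : g + 1 < r) :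
    (fun a => t2 v g f a r) = t1 v g (fun a => f a r) := by
  funext p
  simp only [t2, t1]
  rw [if_neg (show ¬ r = g + 1 by omega), if_neg (show ¬ r = g by omega),
    if_neg (show ¬ r = g + 1 by omega)]

private lemma t2run_right (v : ℂ) (m l : ℕ) (f : ℕ → ℕ → ℂ) (r : ℕ) (hr : m + l < r) :
    (fun a => t2run v m l f a r) = t1run v m l (fun a => f a r) := by
  induction l generalizing f with
  | zero => rfl
  | succ l ih =>
    change (fun a => t2run v m l (t2 v (m + l) f) a r) = t1run v m l (t1 v (m + l) (fun a => f a r))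
    rw [ih _ (by omega), t2_right _ _ _ _ (by omega)]

private lemma t2blk_right' (v : ℂ) (m k l : ℕ) (f : ℕ → ℕ → ℂ) (r : ℕ) (hr : m + k + l ≤ r) :
    (fun a => t2blk v m k l f a r) = t1blk v m k l (fun a => f a r) := by
  induction k with
  | zero => rfl
  | succ k ih =>
    change (fun a => t2run v (m + k) l (t2blk v m k l f) a r) =
      t1run v (m + k) l (t1blk v m k l (fun a => f a r))
    rw [t2run_right _ _ _ _ _ (by omega), ih (by omega)]

/-- A context outside of the window, left: `t2blk` acts as `t1blk` on the other site.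
Proof: induction on the number of crossings: for `r < g` and `r < q`, `r ≠ g, g + 1`:
`t2 v g f r q = t1 v g (f r) q`. -/
lemma t2blk_left (v : ℂ) (m k l : ℕ) (f : ℕ → ℕ → ℂ) (r : ℕ) (hr : r < m) (q : ℕ) (_hq : r < q) :
    t2blk v m k l f r q = t1blk v m k l (f r) q := by
  rw [t2blk_left' v m k l f r hr]

/-- A context outside of the window, right. Proof: for `g + 1 < r`, `p < r`:
`t2 v g f p r = t1 v g (fun p => f p r) p`. -/
lemma t2blk_right (v : ℂ) (m k l : ℕ) (f : ℕ → ℕ → ℂ) (r : ℕ) (hr : m + k + l ≤ r) (p : ℕ)
    (_hp : p < r) : t2blk v m k l f p r = t1blk v m k l (fun a => f a r) p :=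
  congrFun (t2blk_right' v m k l f r hr) p

/-- One strand `m+l` crosses the block `[m, m+l)`: both sites in the window `[m, m+l]`, `p < q`.
`x2` is the value for two sites in the block, `x11` for one site in the block and the other at
`m + l`.
Proof: induction on `l`, more generally for functions `f` with `f p q = x2` for
`m ≤ p < q < m+l` and `f p (m+l) = x11` for `m ≤ p < m+l`, and *arbitrary right contexts*:
after `t2 v g` with `g = m+l-1` the values at pairs `p < q < g` are `x2`, at `(p, g)` they are
`v x11 + (1-v) x2`, at `(p, g+1)`, `p < g`, they are `x2`, and at `(g, g+1)` it is `x11`.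
The remaining crossings `g' < g` do not touch the site `g + 1 = m + l`, so the sites `(p, m+l)` are
the one-site problem with context `m+l` (`t2blk_right`-type lemma, here for `t2run`:
`t2run v m l' f p r = t1run v m l' (fun a => f a r) p` for `m + l' < r`, where the one-site function is
`x2` on `[m, g)` and `x11` at `g`, result `(1 - v^(l-1)) x2 + v^(l-1) x11` at `p = m` and `x2` for
`m < p`), and the pairs inside `[m, g]` are the induction hypothesis with `l - 1` and
`x11' = v x11 + (1-v) x2`. -/
lemma t2run_apply (v : ℂ) (m l : ℕ) (f : ℕ → ℕ → ℂ) (x2 x11 : ℂ)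
    (h2 : ∀ p q, m ≤ p → p < q → q < m + l → f p q = x2)
    (h11 : ∀ p, m ≤ p → p < m + l → f p (m + l) = x11) (p q : ℕ) (hp : m ≤ p) (hpq : p < q)
    (hq : q ≤ m + l) : t2run v m l f p q =
      if p = m then (1 - v ^ (l - 1)) * x2 + v ^ (l - 1) * x11 else x2 := by
  induction l generalizing f x11 q with
  | zero => omega
  | succ l ih =>
    change t2run v m l (t2 v (m + l) f) p q = _
    have hf2 : ∀ p q, m ≤ p → p < q → q < m + l → t2 v (m + l) f p q = x2 := by
      intro p q hp hpq hq
      simp only [t2]
      rw [if_neg (by omega), if_neg (by omega), if_neg (by omega), if_neg (by omega)]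
      exact h2 p q hp hpq (by omega)
    rcases Nat.lt_or_ge (m + l) q with h | h
    · obtain rfl : q = m + l + 1 := by omega
      have h1 : t2run v m l (t2 v (m + l) f) p (m + l + 1) =
          t1run v m l (fun a => t2 v (m + l) f a (m + l + 1)) p :=
        congrFun (t2run_right v m l (t2 v (m + l) f) (m + l + 1) (by omega)) p
      rw [h1, t1run_apply v m l _ x2 x11 ?_ ?_ p]
      · rcases eq_or_ne p m with hpm | hpm
        · rw [if_pos hpm, if_pos hpm, Nat.add_sub_cancel]
        · rw [if_neg hpm, if_neg hpm, if_pos (by omega)]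
      · intro a ha1 ha2
        simp only [t2]
        rw [if_neg (by omega), if_neg (by omega), if_neg (by omega), if_pos trivial]
        exact h2 a (m + l) ha1 ha2 (by omega)
      · simp only [t2]
        rw [if_pos trivial, if_pos trivial]
        exact h11 (m + l) (by omega) (by omega)
    · rw [ih (t2 v (m + l) f) (v * x11 + (1 - v) * x2) hf2 ?_ q hpq h]
      · rcases eq_or_ne p m with hpm | hpm
        · rw [if_pos hpm, if_pos hpm, Nat.add_sub_cancel]
          obtain ⟨l', rfl⟩ : ∃ l', l = l' + 1 := ⟨l - 1, by omega⟩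
          rw [Nat.add_sub_cancel, pow_succ]
          ring
        · rw [if_neg hpm, if_neg hpm]
      · intro a ha1 ha2
        simp only [t2]
        rw [if_neg (by omega), if_neg (by omega), if_pos trivial]
        have h3 := h11 a ha1 (by omega)
        rw [← Nat.add_assoc] at h3
        rw [h3, h2 a (m + l) ha1 ha2 (by omega)]

/-- Both sites in the window. The result: `G20` for two sites in the new first block `[m, m+k)`,
`G11` for one in each, `x2` for two sites in `[m+k, m+k+l)`; `s = v^l`, `w = v^(l-1)` (`l ≥ 1`).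
Proof: induction on `k`. Step `k → k+1`: after `t2blk v m k l` the function on the window
`[m, m+l+k+1)` has the values: (first block, first block): `G20(k)`; (first, middle `[m+k,m+k+l)`):
`G11`; (middle, middle): `x2`; the last site `r = m+k+l` is a right context of `t2blk v m k l`
(`t2blk_right` and `t1blk_apply`): with a site in the first block: `(1-s) x11 + s x02`, with a site
in the middle block: `x11`.  Now apply `t2run v (m+k) l`:
* both sites `< m+k`: not touched (prove: `t2run v m' l f p q = f p q` for `p < q < m'`);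
* `p < m+k ≤ q`: left context (`t1run_apply` with `x = G11`, `y = (1-s) x11 + s x02`): at `q = m+k`
  `(1-s) G11 + s ((1-s) x11 + s x02)`, which equals `G20` because `G11 = (1-w) x2 + w x11` and
  `G20 = s² x02 + (1-s)(s + w) x11 + (1-s)(1-w) x2`;  at `q > m + k` it is `G11`;
* both sites in `[m+k, m+k+l]`: `t2run_apply`: `(m+k, q)`: `(1-w) x2 + w x11 = G11`; others `x2`. -/
lemma t2blk_apply (v : ℂ) (m k l : ℕ) (hl : 1 ≤ l) (f : ℕ → ℕ → ℂ) (x2 x11 x02 : ℂ)
    (h2 : ∀ p q, m ≤ p → p < q → q < m + l → f p q = x2)
    (h11 : ∀ p q, m ≤ p → p < m + l → m + l ≤ q → q < m + l + k → f p q = x11)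
    (h02 : ∀ p q, m + l ≤ p → p < q → q < m + l + k → f p q = x02)
    (p q : ℕ) (hp : m ≤ p) (hpq : p < q) (hq : q < m + l + k) : t2blk v m k l f p q =
      if q < m + k then v ^ l * v ^ l * x02 + (1 - v ^ l) * (v ^ l + v ^ (l - 1)) * x11
          + (1 - v ^ l) * (1 - v ^ (l - 1)) * x2
      else if p < m + k then (1 - v ^ (l - 1)) * x2 + v ^ (l - 1) * x11
      else x2 := by
  induction k generalizing p q with
  | zero =>
    rw [if_neg (by omega), if_neg (by omega)]
    exact h2 p q hp hpq hq
  | succ k ih =>
    have ih' := ih (fun p q a b c d => h11 p q a b c (by omega))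
      (fun p q a b c => h02 p q a b (by omega))
    have hr : ∀ a, t2blk v m k l f a (m + k + l) =
        if m ≤ a ∧ a < m + k then (1 - v ^ l) * x11 + v ^ l * x02
        else if m + k ≤ a ∧ a < m + k + l then x11 else f a (m + k + l) := by
      intro a
      have h1 : t2blk v m k l f a (m + k + l) = t1blk v m k l (fun a => f a (m + k + l)) a :=
        congrFun (t2blk_right' v m k l f (m + k + l) le_rfl) a
      rw [h1]
      exact t1blk_apply v m k l (fun a => f a (m + k + l)) x11 x02
        (fun p a b => h11 p _ a b (by omega) (by omega))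
        (fun p a b => h02 p _ a (by omega) (by omega)) a
    change t2run v (m + k) l (t2blk v m k l f) p q = _
    rcases Nat.lt_or_ge p (m + k) with h | h
    · rw [t2run_left _ _ _ _ _ h]
      rcases Nat.lt_or_ge q (m + k) with h' | h'
      · rw [t1run_out _ _ _ _ _ (Or.inl h'), ih' p q hp hpq (by omega), if_pos h',
          if_pos (by omega)]
      · rw [t1run_apply v (m + k) l _ ((1 - v ^ (l - 1)) * x2 + v ^ (l - 1) * x11)
          ((1 - v ^ l) * x11 + v ^ l * x02) ?_ ?_ q]
        · rcases eq_or_ne q (m + k) with hqm | hqm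
          · rw [if_pos hqm, if_pos (by omega)]
            ring
          · rw [if_neg hqm, if_pos (by omega), if_neg (by omega), if_pos (by omega)]
        · intro a ha1 ha2
          rw [ih' p a hp (by omega) (by omega), if_neg (by omega), if_pos h]
        · rw [hr p, if_pos ⟨hp, h⟩]
    · rw [t2run_apply v (m + k) l _ x2 x11 ?_ ?_ p q h hpq (by omega)]
      · rw [if_neg (show ¬ q < m + (k + 1) by omega)]
        rcases eq_or_ne p (m + k) with hpm | hpm
        · rw [if_pos hpm, if_pos (by omega)]
        · rw [if_neg hpm, if_neg (by omega)]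
      · intro a b ha hab hb
        rw [ih' a b (by omega) hab (by omega), if_neg (by omega), if_neg (by omega)]
      · intro a ha hb
        rw [hr a, if_neg (by omega), if_pos ⟨ha, hb⟩]

/-- Both sites outside of the window. Proof: no crossing touches them. -/
lemma t2blk_out (v : ℂ) (m k l : ℕ) (f : ℕ → ℕ → ℂ) (p q : ℕ) (hpq : p < q)
    (hp : p < m ∨ m + k + l ≤ p) (hq : q < m ∨ m + k + l ≤ q) : t2blk v m k l f p q = f p q := by
  rcases Nat.lt_or_ge p m with h | h
  · rw [t2blk_left' v m k l f p h, t1blk_out _ _ _ _ _ _ hq]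
  · have h1 : m + k + l ≤ p := by omega
    rw [t2blk_right v m k l f q (by omega) p hpq, t1blk_out _ _ _ _ _ _ (Or.inr h1)]

end Pool.Agent.H61.KR
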