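import Mathlib
import Pool.Agent.H69.AMU.Cable

set_option autoImplicit false

/-! # Cocycles over the braid group (twisted products)

`tw e f` is the permutation `(x, g) ↦ (e x, f x * g)` of `X × G`.  A family `e i` of permutations
of `X` and maps `f i : X → G` which satisfy the Artin relations in colours gives an action of the
braid group on `X × G`, i.e. a cocycle `coc b x`. -/

namespace Pool.Agent.H61.KR

open Pool.Agent.H69.AMU

variable {X G : Type*} [Group G]

/-- The twisted permutation. -/
def tw (e : Equiv.Perm X) (f : X → G) : Equiv.Perm (X × G) where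
  toFun p := (e p.1, f p.1 * p.2)
  invFun p := (e.symm p.1, (f (e.symm p.1))⁻¹ * p.2)
  left_inv p := by simp
  right_inv p := by simp

lemma tw_apply (e : Equiv.Perm X) (f : X → G) (x : X) (g : G) : tw e f (x, g) = (e x, f x * g) := rfl

/-- The relations in colours. -/
structure ColArtin (e : ℕ → Equiv.Perm X) (f : ℕ → X → G) (M : ℕ) : Prop where
  base : ArtinSeq e M
  comm : ∀ i j, i + 2 ≤ j → j < M → ∀ x, f i (e j x) * f j x = f j (e i x) * f i x
  braid : ∀ i, i + 1 < M → ∀ x, f i (e (i + 1) (e i x)) * f (i + 1) (e i x) * f i x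
    = f (i + 1) (e i (e (i + 1) x)) * f i (e (i + 1) x) * f (i + 1) x

/-- Proof: `Equiv.ext` and `Prod.ext`; the first component is `base`, the second one is `comm` or
`braid` (multiply by `g` on the right, `mul_assoc`). -/
lemma artinSeq_tw {e : ℕ → Equiv.Perm X} {f : ℕ → X → G} {M : ℕ} (h : ColArtin e f M) :
    ArtinSeq (fun i => tw (e i) (f i)) M := by
  constructor
  · intro i j hij hj
    ext p : 1
    obtain ⟨x, g⟩ := p
    have h1 := congrArg (fun t => t x) (h.base.comm i j hij hj)
    simp only [Equiv.Perm.mul_apply] at h1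
    simp only [Equiv.Perm.mul_apply, tw_apply, h1, ← mul_assoc, h.comm i j hij hj x]
  · intro i hi
    ext p : 1
    obtain ⟨x, g⟩ := p
    have h1 := congrArg (fun t => t x) (h.base.braid i hi)
    simp only [Equiv.Perm.mul_apply] at h1
    simp only [Equiv.Perm.mul_apply, tw_apply, h1, ← mul_assoc, h.braid i hi x]

section

variable {e : ℕ → Equiv.Perm X} {f : ℕ → X → G} {n : ℕ}

/-- The cocycle. -/
def coc (h : ColArtin e f (n - 1)) (b : BraidGroup n) (x : X) : G :=
  (braidLift (artinSeq_tw h) b (x, 1)).2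

/-- The action on the colours. -/
def act (h : ColArtin e f (n - 1)) : BraidGroup n →* Equiv.Perm X := braidLift h.base

/-- Closure induction over the generators of the braid group. -/
lemma braid_induction {P : BraidGroup n → Prop} (h1 : P 1) (hg : ∀ i, i < n - 1 → P (gen n i))
    (hm : ∀ a b, P a → P b → P (a * b)) (hi : ∀ a, P a → P a⁻¹) (b : BraidGroup n) : P b := by
  have hmem : b ∈ Subgroup.closure (gen n '' Set.Iio (n - 1)) := by
    rw [closure_gen]; exact Subgroup.mem_top b
  induction hmem using Subgroup.closure_induction with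
  | mem x hx =>
    obtain ⟨i, hi, rfl⟩ := hx
    exact hg i hi
  | one => exact h1
  | mul x y _ _ hx hy => exact hm x y hx hy
  | inv x _ hx => exact hi x hx

lemma lift_apply (h : ColArtin e f (n - 1)) (b : BraidGroup n) (x : X) (g : G) :
    braidLift (artinSeq_tw h) b (x, g) = (act h b x, coc h b x * g) := by
  have key : ∀ b : BraidGroup n, ∀ x : X, ∃ c : G, ∀ g : G,
      braidLift (artinSeq_tw h) b (x, g) = (act h b x, c * g) := by
    intro b
    refine braid_induction (P := fun b => ∀ x : X, ∃ c : G, ∀ g : G,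
      braidLift (artinSeq_tw h) b (x, g) = (act h b x, c * g)) ?_ ?_ ?_ ?_ b
    · intro x
      exact ⟨1, fun g => by simp⟩
    · intro i hi x
      refine ⟨f i x, fun g => ?_⟩
      rw [braidLift_gen _ hi, act, braidLift_gen _ hi]
      rfl
    · intro a b ha hb x
      obtain ⟨c, hc⟩ := hb x
      obtain ⟨d, hd⟩ := ha (act h b x)
      refine ⟨d * c, fun g => ?_⟩
      rw [map_mul, Equiv.Perm.mul_apply, hc, hd, map_mul, Equiv.Perm.mul_apply, mul_assoc]
    · intro a ha x
      obtain ⟨c, hc⟩ := ha ((act h a)⁻¹ x)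
      refine ⟨c⁻¹, fun g => ?_⟩
      rw [map_inv, Equiv.Perm.inv_eq_iff_eq, map_inv, hc, ← Equiv.Perm.mul_apply, mul_inv_cancel,
        Equiv.Perm.one_apply, mul_inv_cancel_left]
  obtain ⟨c, hc⟩ := key b x
  have h1 : coc h b x = c := by
    rw [coc, hc 1, mul_one]
  rw [hc g, h1]

lemma coc_gen (h : ColArtin e f (n - 1)) {i : ℕ} (hi : i < n - 1) (x : X) :
    coc h (gen n i) x = f i x := by
  rw [coc, braidLift_gen _ hi]
  show f i x * 1 = f i x
  rw [mul_one]

lemma act_gen (h : ColArtin e f (n - 1)) {i : ℕ} (hi : i < n - 1) (x : X) :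
    act h (gen n i) x = e i x := by
  rw [act, braidLift_gen _ hi]

lemma coc_one (h : ColArtin e f (n - 1)) (x : X) : coc h 1 x = 1 := by
  rw [coc, map_one]
  rfl

lemma coc_mul (h : ColArtin e f (n - 1)) (a b : BraidGroup n) (x : X) :
    coc h (a * b) x = coc h a (act h b x) * coc h b x := by
  rw [coc, map_mul, Equiv.Perm.mul_apply, lift_apply h b x 1, lift_apply, mul_one]

lemma coc_inv (h : ColArtin e f (n - 1)) (a : BraidGroup n) (x : X) :
    coc h a⁻¹ x = (coc h a (act h a⁻¹ x))⁻¹ := by
  have h1 := coc_mul h a a⁻¹ x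
  rw [mul_inv_cancel, coc_one] at h1
  exact (inv_eq_of_mul_eq_one_right h1.symm).symm

/-- If `b` fixes the colours, powers. -/
lemma coc_pow (h : ColArtin e f (n - 1)) (b : BraidGroup n) (x : X) (hb : act h b x = x) (m : ℕ) :
    coc h (b ^ m) x = (coc h b x) ^ m := by
  induction m with
  | zero => rw [pow_zero, pow_zero, coc_one]
  | succ m ih => rw [pow_succ, coc_mul, hb, ih, pow_succ]

end

end Pool.Agent.H61.KR
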