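import Mathlib
import Pool.Agent.H61.KR.FLin

set_option autoImplicit false

/-! # Extension of a path by one step -/

namespace Pool.Agent.H61.KR

open Pool.Agent.H69.AMU Pool.Agent.H69.AMU.FusionPath

variable {n c c' L : ℕ}

/-- Extend a path by the label `c'`. -/
def ext (p : FusionPath n c L) (hc : c' = c + 1 ∨ c = c' + 1) (hL : c' ≤ L) :
    FusionPath (n + 1) c' L where
  label := Fin.snoc p.label ⟨c', by omega⟩
  start := by
    have h : (0 : Fin (n + 1 + 1)) = Fin.castSucc (0 : Fin (n + 1)) := rfl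
    rw [h, Fin.snoc_castSucc]
    exact p.start
  finish := by
    rw [Fin.snoc_last]
  step := by
    intro i
    induction i using Fin.lastCases with
    | last =>
      rw [Fin.succ_last, Fin.snoc_last, Fin.snoc_castSucc, p.finish]
      exact hc
    | cast j =>
      rw [Fin.succ_castSucc, Fin.snoc_castSucc, Fin.snoc_castSucc]
      exact p.step j

/-- Proof: `lab_of_le`, `Fin.snoc` at `castSucc`. -/
lemma lab_ext (p : FusionPath n c L) (hc : c' = c + 1 ∨ c = c' + 1) (hL : c' ≤ L) (k : ℕ)
    (hk : k ≤ n) : (ext p hc hL).lab k = p.lab k := by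
  rw [lab_of_le _ (by omega : k ≤ n + 1), lab_of_le _ hk]
  have h : (⟨k, by omega⟩ : Fin (n + 1 + 1)) = Fin.castSucc (⟨k, by omega⟩ : Fin (n + 1)) := rfl
  show ((Fin.snoc p.label _ : Fin (n + 1 + 1) → Fin (L + 1)) ⟨k, _⟩ : ℕ) = _
  rw [h, Fin.snoc_castSucc]

lemma lab_ext_last (p : FusionPath n c L) (hc : c' = c + 1 ∨ c = c' + 1) (hL : c' ≤ L) :
    (ext p hc hL).lab (n + 1) = c' := lab_ge _ le_rfl

/-- Proof: for `j ≤ n`, `vec A (ext p) j = vec A p j` by induction (`lab_ext`); then one step, with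
`p.lab n = c` (`lab_ge`). -/
lemma vec_ext (A : ℂ) (p : FusionPath n c L) (hc : c' = c + 1 ∨ c = c' + 1) (hL : c' ≤ L) :
    vec A (ext p hc hL) (n + 1) = stp A n c c' (vec A p n) := by
  have key : ∀ j, j ≤ n → vec A (ext p hc hL) j = vec A p j := by
    intro j
    induction j with
    | zero => intro _; rfl
    | succ j ih =>
      intro hj
      show stp A j ((ext p hc hL).lab j) ((ext p hc hL).lab (j + 1)) (vec A (ext p hc hL) j) =
        stp A j (p.lab j) (p.lab (j + 1)) (vec A p j)
      rw [ih (by omega), lab_ext p hc hL j (by omega), lab_ext p hc hL (j + 1) hj]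
  show stp A n ((ext p hc hL).lab n) ((ext p hc hL).lab (n + 1)) (vec A (ext p hc hL) n) = _
  rw [key n le_rfl, lab_ext p hc hL n le_rfl, lab_ext_last p hc hL, lab_ge p le_rfl]

end Pool.Agent.H61.KR
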