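import Mathlib
import Pool.Agent.H61.KR.FLoc

set_option autoImplicit false

/-! # The raising operator -/

namespace Pool.Agent.H61.KR

open Pool.Agent.H69.AMU

/-- The part with the last site free. -/
noncomputable def res0 (j : ℕ) (F : Fn) : Fn := fun S => if j ∈ S then 0 else F S

/-- The part with the last site occupied. -/
noncomputable def res1 (j : ℕ) (F : Fn) : Fn := fun S => if j ∈ S then 0 else F (insert j S)

/-- Proof: `funext S`; `Finset.insert_erase`, `j ∉ S.erase j`. -/
lemma split_last (j : ℕ) (F : Fn) : F = res0 j F + put j (res1 j F) := by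
  funext S
  simp only [Pi.add_apply, res0, put, res1]
  by_cases h : j ∈ S
  · rw [if_pos h, if_pos h, if_neg (Finset.notMem_erase j S), Finset.insert_erase h, zero_add]
  · rw [if_neg h, if_neg h, add_zero]

private lemma frai_sub {j : ℕ} {S : Finset ℕ} (h : S ⊆ Finset.range (j + 1)) (hj : j ∉ S) :
    S ⊆ Finset.range j := by
  intro x hx
  have h1 := Finset.mem_range.1 (h hx)
  have h2 : x ≠ j := fun hc => hj (hc ▸ hx)
  exact Finset.mem_range.2 (by omega)

lemma homog_res0 {j l : ℕ} {F : Fn} (hF : Homog (j + 1) l F) : Homog j l (res0 j F) := by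
  intro S hS
  by_cases h : j ∈ S
  · exact absurd (by simp [res0, h]) hS
  · have h1 : F S ≠ 0 := by simpa [res0, h] using hS
    exact ⟨frai_sub (hF S h1).1 h, (hF S h1).2⟩

lemma homog_res1 {j l : ℕ} {F : Fn} (hF : Homog (j + 1) (l + 1) F) : Homog j l (res1 j F) := by
  intro S hS
  by_cases h : j ∈ S
  · exact absurd (by simp [res1, h]) hS
  · have h1 : F (insert j S) ≠ 0 := by simpa [res1, h] using hS
    obtain ⟨h2, h3⟩ := hF _ h1
    refine ⟨frai_sub ((Finset.subset_insert j S).trans h2) h, ?_⟩
    rw [Finset.card_insert_of_notMem h] at h3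
    omega

lemma res1_zero {j : ℕ} {F : Fn} (hF : Homog (j + 1) 0 F) : res1 j F = 0 := by
  funext S
  by_cases h : j ∈ S
  · simp [res1, h]
  · have h1 : res1 j F S = F (insert j S) := by simp [res1, h]
    rw [h1, Pi.zero_apply]
    by_contra h2
    have h3 := (hF _ h2).2
    rw [Finset.card_insert_of_notMem h] at h3
    omega

/-- Raising lowers the degree. Proof: `rai A N F S ≠ 0` gives `p < N`, `p ∉ S` with
`F (insert p S) ≠ 0`, so `insert p S ⊆ range N` has `l + 1` elements. -/
lemma homog_rai {N l : ℕ} {A : ℂ} {F : Fn} (hF : Homog N (l + 1) F) : Homog N l (rai A N F) := by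
  intro S hS
  unfold rai at hS
  obtain ⟨p, hp, hp'⟩ := Finset.exists_ne_zero_of_sum_ne_zero hS
  rw [Finset.mem_filter] at hp
  have h2 := hF (insert p S) (fun h0 => hp' (by rw [h0, mul_zero]))
  refine ⟨(Finset.subset_insert p S).trans h2.1, ?_⟩
  have h3 := h2.2
  rw [Finset.card_insert_of_notMem hp.2] at h3
  omega

lemma rai_deg_zero {N : ℕ} {A : ℂ} {F : Fn} (hF : Homog N 0 F) : rai A N F = 0 := by
  funext S
  unfold rai
  refine Finset.sum_eq_zero fun p hp => ?_
  rw [Finset.mem_filter] at hp
  have h1 : F (insert p S) = 0 := by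
    by_contra h2
    have h3 := (hF _ h2).2
    rw [Finset.card_insert_of_notMem hp.2] at h3
    omega
  rw [h1, mul_zero]

/-- Raising on the first `j + 1` sites; `X`, `Y` on the first `j` sites.
Proof: `funext S`. If `j ∉ S`: the sum over `p < j` of the left side only sees `X` (as
`j ∉ insert p S`) and the term `p = j` is `v^(j + 0) * Y S` (no element of `S` is `> j` if
`Y S ≠ 0`, and `X (insert j S) = 0`). If `j ∈ S`: the term `p = j` does not occur, `X` vanishes on
`insert p S`, and `put j Y (insert p S) = Y (insert p (S.erase j))`, with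
`#{i ∈ S, p < i} = #{i ∈ S.erase j, p < i} + 1`. -/
lemma rai_split {A : ℂ} {j l m : ℕ} {X Y : Fn} (hX : Homog j l X) (hY : Homog j m Y) :
    rai A (j + 1) (X + put j Y) = rai A j X + (((A ^ 4)⁻¹) ^ j) • Y
      + ((A ^ 4)⁻¹) • put j (rai A j Y) := by
  funext S
  simp only [Pi.add_apply, Pi.smul_apply, smul_eq_mul]
  by_cases hj : j ∈ S
  · have hY0 : Y S = 0 := floc_zero hY hj le_rfl
    have hX0 : ∀ p, X (insert p S) = 0 := fun p =>
      floc_zero hX (Finset.mem_insert_of_mem hj) le_rfl
    have hrX : rai A j X S = 0 := by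
      unfold rai
      exact Finset.sum_eq_zero fun p _ => by rw [hX0, mul_zero]
    have hput : put j (rai A j Y) S = rai A j Y (S.erase j) := by
      unfold put
      rw [if_pos hj]
    rw [hY0, hrX, hput, mul_zero, zero_add, zero_add]
    unfold rai
    rw [Finset.mul_sum]
    refine Finset.sum_bij (fun p _ => p) ?_ ?_ ?_ ?_
    · intro p hp
      rw [Finset.mem_filter, Finset.mem_range] at hp ⊢
      have hpj : p ≠ j := fun hc => hp.2 (hc ▸ hj)
      exact ⟨by omega, fun hc => hp.2 (Finset.mem_of_mem_erase hc)⟩
    · intro p _ p' _ h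
      exact h
    · intro p hp
      rw [Finset.mem_filter, Finset.mem_range] at hp
      refine ⟨p, ?_, rfl⟩
      rw [Finset.mem_filter, Finset.mem_range]
      exact ⟨by omega, fun hc => hp.2 (Finset.mem_erase.2 ⟨by omega, hc⟩)⟩
    · intro p hp
      rw [Finset.mem_filter, Finset.mem_range] at hp
      have hpj : p ≠ j := fun hc => hp.2 (hc ▸ hj)
      have hplt : p < j := by omega
      have h1 : (X + put j Y) (insert p S) = Y (insert p (S.erase j)) := by
        rw [Pi.add_apply, hX0, zero_add]
        unfold put
        rw [if_pos (Finset.mem_insert_of_mem hj), Finset.erase_insert_of_ne hpj]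
      have h2 : (S.filter (fun i => p < i)).card = ((S.erase j).filter (fun i => p < i)).card + 1 := by
        rw [Finset.filter_erase, Finset.card_erase_add_one]
        rw [Finset.mem_filter]
        exact ⟨hj, hplt⟩
      rw [h1, h2, ← add_assoc, pow_succ]
      ring
  · have hput : put j (rai A j Y) S = 0 := by
      unfold put
      rw [if_neg hj]
    rw [hput, mul_zero, add_zero]
    have hrange : (Finset.range (j + 1)).filter (fun p => p ∉ S) =
        insert j ((Finset.range j).filter (fun p => p ∉ S)) := by
      rw [Finset.range_add_one, Finset.filter_insert, if_pos hj]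
    have hnm : j ∉ (Finset.range j).filter (fun p => p ∉ S) := by
      rw [Finset.mem_filter, Finset.mem_range]
      exact fun hc => absurd hc.1 (lt_irrefl j)
    have hmain : rai A (j + 1) (X + put j Y) S =
        ((A ^ 4)⁻¹) ^ (j + (S.filter (fun i => j < i)).card) * (X + put j Y) (insert j S) +
        ∑ p ∈ (Finset.range j).filter (fun p => p ∉ S),
          ((A ^ 4)⁻¹) ^ (p + (S.filter (fun i => p < i)).card) * (X + put j Y) (insert p S) := by
      unfold rai
      rw [hrange, Finset.sum_insert hnm]
    rw [hmain, add_comm]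
    have h1 : (X + put j Y) (insert j S) = Y S := by
      rw [Pi.add_apply, floc_zero hX (Finset.mem_insert_self j S) le_rfl, zero_add]
      unfold put
      rw [if_pos (Finset.mem_insert_self j S), Finset.erase_insert hj]
    have h2 : ((A ^ 4)⁻¹) ^ (j + (S.filter (fun i => j < i)).card) * Y S = ((A ^ 4)⁻¹) ^ j * Y S := by
      by_cases hYS : Y S = 0
      · rw [hYS, mul_zero, mul_zero]
      · have h3 : S.filter (fun i => j < i) = ∅ := by
          rw [Finset.filter_eq_empty_iff]
          intro x hx
          have := Finset.mem_range.1 ((hY S hYS).1 hx)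
          omega
        rw [h3, Finset.card_empty, add_zero]
    rw [h1, h2]
    congr 1
    unfold rai
    refine Finset.sum_congr rfl fun p hp => ?_
    rw [Finset.mem_filter, Finset.mem_range] at hp
    have h3 : put j Y (insert p S) = 0 := by
      unfold put
      rw [if_neg]
      intro hc
      rcases Finset.mem_insert.1 hc with hc | hc
      · omega
      · exact hj hc
    rw [Pi.add_apply, h3, add_zero]

private lemma frai_low_zero (A : ℂ) (F : Fn) : low A 0 F = 0 := by
  funext S
  unfold low
  by_cases h : S ⊆ Finset.range 0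
  · rw [if_pos h]
    have h1 : S = ∅ := by
      rw [Finset.range_zero] at h
      exact Finset.subset_empty.1 h
    rw [h1, Finset.sum_empty]
    rfl
  · rw [if_neg h]
    rfl

private lemma frai_rai_zero (A : ℂ) (F : Fn) : rai A 0 F = 0 := by
  funext S
  unfold rai
  rw [Finset.range_zero, Finset.filter_empty, Finset.sum_empty]
  rfl

private lemma frai_low0 (A : ℂ) (j : ℕ) : low A j 0 = 0 := by
  have h := low_smul A j 0 0
  rw [zero_smul, zero_smul] at h
  exact h

private lemma frai_rai0 (A : ℂ) (j : ℕ) : rai A j 0 = 0 := by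
  have h := rai_smul A j 0 0
  rw [zero_smul, zero_smul] at h
  exact h

private lemma frai_put0 (j : ℕ) : put j 0 = 0 := by
  have h := put_smul j 0 0
  rw [zero_smul, zero_smul] at h
  exact h

/-- The commutation relation. Proof: induction on `j`, for all `l ≤ j` and `F`, with `v = A^(-4)`.
`j = 0`: `l = 0`, `low A 0 F = 0` and `rai A 0 = 0`.  Step (`l ≤ j + 1`): `F = X + put j Y`,
`X = res0 j F` (degree `l`), `Y = res1 j F` (degree `l - 1`, and `Y = 0` if `l = 0`; if `l = j + 1`
then `X = 0`).  By `low_succ`, `low_put`: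
`low A (j+1) F = low A j X + put j (A^(4l) • X + low A j Y)`; by `rai_split`
`rai A (j+1) (low A (j+1) F) = rai (low X) + v^j • (A^(4l) • X + low Y)
   + v • put j (A^(4l) • rai X + rai (low Y))` (operators on `j` sites), and
`rai A (j+1) F = (rai X + v^j • Y) + put j (v • rai Y)`,
`low A (j+1) (rai A (j+1) F) = low (rai X) + v^j • low Y + A^(4(l-1)) • put j (rai X + v^j • Y)
   + v • put j (low (rai Y))`.
The difference is `(rai low X - low rai X) + v^(j-l) • X + put j (v • (rai low Y - low rai Y)
 - v^(j-l+1) • Y)` (as `v A^(4l) = A^(4(l-1))`), and `(1-v)` times it is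
`(v^l - v^(j-l) + (1-v) v^(j-l)) • X + put j ((v (v^(l-1) - v^(j-l+1)) - (1-v) v^(j-l+1)) • Y)
 = (v^l - v^(j+1-l)) • (X + put j Y)`. -/
lemma rai_low {A : ℂ} (hA : A ≠ 0) {j l : ℕ} (hl : l ≤ j) {F : Fn} (hF : Homog j l F) :
    (1 - (A ^ 4)⁻¹) • (rai A j (low A j F) - low A j (rai A j F))
      = (((A ^ 4)⁻¹) ^ l - ((A ^ 4)⁻¹) ^ (j - l)) • F := by
  obtain ⟨v, hv⟩ : ∃ v : ℂ, v = (A ^ 4)⁻¹ := ⟨_, rfl⟩
  have hvA : v * A ^ 4 = 1 := by rw [hv]; exact inv_mul_cancel₀ (pow_ne_zero 4 hA)
  rw [← hv]
  induction j generalizing l F with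
  | zero =>
    have hl0 : l = 0 := by omega
    subst hl0
    rw [frai_low_zero, frai_rai_zero, frai_rai_zero, frai_low_zero, sub_zero, smul_zero]
    simp
  | succ j ih =>
    obtain ⟨X, hXdef⟩ : ∃ X, X = res0 j F := ⟨_, rfl⟩
    obtain ⟨Y, hYdef⟩ : ∃ Y, Y = res1 j F := ⟨_, rfl⟩
    have hFXY : F = X + put j Y := by rw [hXdef, hYdef]; exact split_last j F
    have hX : Homog j l X := by rw [hXdef]; exact homog_res0 hF
    cases l with
    | zero =>
      have hY0 : Y = 0 := by rw [hYdef]; exact res1_zero hF
      rw [hY0, frai_put0, add_zero] at hFXY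
      have h1 : rai A (j + 1) F = 0 := rai_deg_zero hF
      have h2 : rai A j X = 0 := rai_deg_zero hX
      have h3 := ih (Nat.zero_le j) hX
      rw [h2, frai_low0, sub_zero] at h3
      rw [h1, frai_low0, sub_zero, hFXY, low_succ hX, mul_zero, pow_zero, one_smul,
        rai_split hX.low hX, h2, frai_put0, smul_zero, add_zero, smul_add, ← hv, h3]
      funext S
      simp only [Pi.add_apply, Pi.smul_apply, smul_eq_mul]
      rw [Nat.sub_zero, Nat.sub_zero, pow_zero, pow_succ]
      ring
    | succ m =>
      have hY : Homog j m Y := by rw [hYdef]; exact homog_res1 hF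
      have hmj : m ≤ j := by omega
      have e1 : low A (j + 1) F = low A j X + put j (A ^ (4 * (m + 1)) • X + low A j Y) := by
        rw [hFXY, low_add, low_succ hX, low_put, put_add, put_smul, add_assoc]
      have e2 : rai A (j + 1) (low A (j + 1) F) = rai A j (low A j X)
          + v ^ j • (A ^ (4 * (m + 1)) • X + low A j Y)
          + v • put j (rai A j (A ^ (4 * (m + 1)) • X + low A j Y)) := by
        rw [e1, hv]
        exact rai_split hX.low ((hX.smul _).add hY.low)
      have e3 : rai A (j + 1) F = (rai A j X + v ^ j • Y) + put j (v • rai A j Y) := by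
        rw [hFXY, put_smul, hv]
        exact rai_split hX hY
      have hG : Homog j m (rai A j X + v ^ j • Y) := (homog_rai hX).add (hY.smul _)
      have e4 : low A (j + 1) (rai A (j + 1) F) = low A j (rai A j X + v ^ j • Y)
          + A ^ (4 * m) • put j (rai A j X + v ^ j • Y) + put j (low A j (v • rai A j Y)) := by
        rw [e3, low_add, low_succ hG, low_put]
      rw [rai_add, rai_smul, put_add, put_smul] at e2
      rw [low_add, low_smul, put_add, put_smul, low_smul, put_smul] at e4
      have hpow : ∀ i, i ≤ j → A ^ (4 * i) * v ^ j = v ^ (j - i) := by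
        intro i hi
        have h5 : A ^ (4 * i) * v ^ i = 1 := by
          rw [pow_mul, ← mul_pow, mul_comm (A ^ 4), hvA, one_pow]
        have h6 : v ^ j = v ^ i * v ^ (j - i) := by rw [← pow_add]; congr 1; omega
        rw [h6, ← mul_assoc, h5, one_mul]
      have key1 : (1 - v) • (rai A j (low A j X) - low A j (rai A j X)
          + (A ^ (4 * (m + 1)) * v ^ j) • X) = (v ^ (m + 1) - v ^ (j + 1 - (m + 1))) • X := by
        by_cases hle : m + 1 ≤ j
        · rw [smul_add, ih hle hX, hpow _ hle]
          have h7 : v ^ (j + 1 - (m + 1)) = v * v ^ (j - (m + 1)) := by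
            rw [← pow_succ']; congr 1; omega
          rw [h7]
          funext S
          simp only [Pi.add_apply, Pi.smul_apply, smul_eq_mul]
          ring
        · have hX0 : X = 0 := by
            funext S
            refine hX.eq_zero ?_
            rintro ⟨h8, h9⟩
            have h10 := Finset.card_le_card h8
            rw [Finset.card_range] at h10
            omega
          rw [hX0, frai_low0, frai_rai0, frai_low0, smul_zero, smul_zero, sub_zero, add_zero, smul_zero]
      have key2 : (1 - v) • (v • (rai A j (low A j Y) - low A j (rai A j Y))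
          - (A ^ (4 * m) * v ^ j) • Y) = (v ^ (m + 1) - v ^ (j + 1 - (m + 1))) • Y := by
        rw [smul_sub, smul_comm (1 - v) v, ih hmj hY, hpow _ hmj]
        have h7 : j + 1 - (m + 1) = j - m := by omega
        rw [h7, pow_succ]
        funext S
        simp only [Pi.sub_apply, Pi.smul_apply, smul_eq_mul]
        ring
      have key3 := congrArg (put j) key2
      rw [put_smul, put_sub, put_smul, put_sub, put_smul, put_smul] at key3
      rw [e2, e4]
      funext S
      have k1 := congrFun key1 S
      have k3 := congrFun key3 S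
      have k4 := congrFun hFXY S
      simp only [Pi.add_apply, Pi.sub_apply, Pi.smul_apply, smul_eq_mul] at k1 k3 k4 ⊢
      rw [k4]
      linear_combination k1 + k3 + (1 - v) * A ^ (4 * m) * put j (rai A j X) S * hvA

end Pool.Agent.H61.KR
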