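import Mathlib
import Pool.Agent.H61.KR.FRai
import Pool.Agent.H61.KR.FExt

set_option autoImplicit false

/-! # Surjectivity onto the kernel of the raising operator (degree at most two) -/

namespace Pool.Agent.H61.KR

open Pool.Agent.H69.AMU Pool.Agent.H69.AMU.FusionPath

/-- The span of the functions of the paths. -/
noncomputable def spanVec (A : ℂ) (n c L : ℕ) : Submodule ℂ Fn :=
  Submodule.span ℂ (Set.range fun p : FusionPath n c L => vec A p n)

/-- Proof: `Submodule.span_induction`; generators by `vec_ext`; linearity `stp_add`, `stp_smul`. -/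
lemma stp_mem {A : ℂ} {n c c' L : ℕ} (hc : c' = c + 1 ∨ c = c' + 1) (hL : c' ≤ L) {F : Fn}
    (hF : F ∈ spanVec A n c L) : stp A n c c' F ∈ spanVec A (n + 1) c' L := by
  unfold spanVec at hF
  induction hF using Submodule.span_induction with
  | mem x hx =>
    obtain ⟨p, rfl⟩ := hx
    have h1 := vec_ext A p hc hL
    simp only []
    rw [← h1]
    exact Submodule.subset_span ⟨_, rfl⟩
  | zero =>
    have h1 := stp_smul A n c c' 0 0
    rw [zero_smul, zero_smul] at h1
    rw [h1]
    exact Submodule.zero_mem _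
  | add x y _ _ hx hy =>
    rw [stp_add]
    exact Submodule.add_mem _ hx hy
  | smul a x _ hx =>
    rw [stp_smul]
    exact Submodule.smul_mem _ _ hx

/-- The kernel of raising in degree `l` on `2 l - 1` sites vanishes, `l = 1, 2`.
Proof: `l = 1`: `rai A 1 F ∅ = F {0}`. `l = 2`: three sites, `v = A^(-4)`, `f01, f02, f12` the
values: `rai A 3 F {0} = v f01 + v² f02`, `rai A 3 F {1} = v f01 + v² f12`,
`rai A 3 F {2} = v f02 + v² f12`; so `f01 = -v f02 = -v f12`, `f02 = f12`, `f02 = -v f12`, and
`(1 + v) f12 = 0`, where `1 + v ≠ 0` because `unknot A 1 = -A^2 (1 + v) ≠ 0`. -/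
lemma ker_small {A : ℂ} (hA : A ≠ 0) (h1 : unknot A 1 ≠ 0) {l : ℕ} (hl : l = 1 ∨ l = 2) {F : Fn}
    (hF : Homog (2 * l - 1) l F) (hr : rai A (2 * l - 1) F = 0) : F = 0 := by
  have hv0 : (A ^ 4)⁻¹ ≠ 0 := inv_ne_zero (pow_ne_zero _ hA)
  rcases hl with rfl | rfl
  · have h0 : F {0} = 0 := by
      have h2 := congrFun hr ∅
      simp only [rai, Pi.zero_apply] at h2
      have h3 : (Finset.range (2 * 1 - 1)).filter (fun p => p ∉ (∅ : Finset ℕ)) = {0} := by
        decide
      rw [h3, Finset.sum_singleton] at h2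
      simpa using h2
    funext S
    by_contra hS
    obtain ⟨h2, h3⟩ := hF S hS
    have h4 : S = {0} := by
      obtain ⟨x, rfl⟩ := Finset.card_eq_one.1 h3
      have h5 := Finset.mem_range.1 (h2 (Finset.mem_singleton_self x))
      have h6 : x = 0 := by omega
      rw [h6]
    exact hS (by rw [h4, h0]; rfl)
  · have e0 : (A ^ 4)⁻¹ * F {0, 1} + (A ^ 4)⁻¹ ^ 2 * F {0, 2} = 0 := by
      have h2 := congrFun hr {0}
      simp only [rai, Pi.zero_apply] at h2
      have h3 : (Finset.range (2 * 2 - 1)).filter (fun p => p ∉ ({0} : Finset ℕ)) = {1, 2} := by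
        decide
      rw [h3, Finset.sum_pair (by norm_num)] at h2
      have h4 : (({0} : Finset ℕ).filter (fun i => 1 < i)).card = 0 := by decide
      have h5 : (({0} : Finset ℕ).filter (fun i => 2 < i)).card = 0 := by decide
      have h6 : insert 1 ({0} : Finset ℕ) = {0, 1} := by decide
      have h7 : insert 2 ({0} : Finset ℕ) = {0, 2} := by decide
      rw [h4, h5, h6, h7] at h2
      simpa using h2
    have e1 : (A ^ 4)⁻¹ * F {0, 1} + (A ^ 4)⁻¹ ^ 2 * F {1, 2} = 0 := by
      have h2 := congrFun hr {1}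
      simp only [rai, Pi.zero_apply] at h2
      have h3 : (Finset.range (2 * 2 - 1)).filter (fun p => p ∉ ({1} : Finset ℕ)) = {0, 2} := by
        decide
      rw [h3, Finset.sum_pair (by norm_num)] at h2
      have h4 : (({1} : Finset ℕ).filter (fun i => 0 < i)).card = 1 := by decide
      have h5 : (({1} : Finset ℕ).filter (fun i => 2 < i)).card = 0 := by decide
      have h6 : insert 0 ({1} : Finset ℕ) = {0, 1} := by decide
      have h7 : insert 2 ({1} : Finset ℕ) = {1, 2} := by decide
      rw [h4, h5, h6, h7] at h2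
      simpa using h2
    have e2 : (A ^ 4)⁻¹ * F {0, 2} + (A ^ 4)⁻¹ ^ 2 * F {1, 2} = 0 := by
      have h2 := congrFun hr {2}
      simp only [rai, Pi.zero_apply] at h2
      have h3 : (Finset.range (2 * 2 - 1)).filter (fun p => p ∉ ({2} : Finset ℕ)) = {0, 1} := by
        decide
      rw [h3, Finset.sum_pair (by norm_num)] at h2
      have h4 : (({2} : Finset ℕ).filter (fun i => 0 < i)).card = 1 := by decide
      have h5 : (({2} : Finset ℕ).filter (fun i => 1 < i)).card = 1 := by decide
      have h6 : insert 0 ({2} : Finset ℕ) = {0, 2} := by decide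
      have h7 : insert 1 ({2} : Finset ℕ) = {1, 2} := by decide
      rw [h4, h5, h6, h7] at h2
      simpa using h2
    have hv1 : 1 + (A ^ 4)⁻¹ ≠ 0 := by
      intro h
      apply h1
      have h2 : unknot A 1 = -A ^ 2 * (1 + (A ^ 4)⁻¹) := by
        rw [unknot]
        field_simp
        ring
      rw [h2, h, mul_zero]
    generalize (A ^ 4)⁻¹ = v at e0 e1 e2 hv0 hv1
    have f1 : F {0, 2} = F {1, 2} := by
      have h2 : v ^ 2 * (F {0, 2} - F {1, 2}) = 0 := by linear_combination e0 - e1
      have h3 := (mul_eq_zero.1 h2).resolve_left (pow_ne_zero _ hv0)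
      exact sub_eq_zero.1 h3
    have f2 : F {1, 2} = 0 := by
      have h2 : v * ((1 + v) * F {1, 2}) = 0 := by
        rw [f1] at e2
        linear_combination e2
      have h3 := (mul_eq_zero.1 h2).resolve_left hv0
      exact (mul_eq_zero.1 h3).resolve_left hv1
    have f3 : F {0, 2} = 0 := f1.trans f2
    have f4 : F {0, 1} = 0 := by
      rw [f3] at e0
      have h2 : v * F {0, 1} = 0 := by linear_combination e0
      exact (mul_eq_zero.1 h2).resolve_left hv0
    funext S
    by_contra hS
    obtain ⟨h2, h3⟩ := hF S hS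
    have h4 : S ∈ Finset.powersetCard 2 (Finset.range 3) := Finset.mem_powersetCard.2 ⟨h2, h3⟩
    have h5 : Finset.powersetCard 2 (Finset.range 3) = {{0, 1}, {0, 2}, {1, 2}} := by decide
    rw [h5, Finset.mem_insert, Finset.mem_insert, Finset.mem_singleton] at h4
    rcases h4 with rfl | rfl | rfl
    · exact hS f4
    · exact hS f3
    · exact hS f2

private lemma ph_ne_zero {A : ℂ} {n : ℕ} (hΔ : ∀ i ≤ n, unknot A i ≠ 0) :
    ∀ i ≤ n, ph A i ≠ 0 := by
  intro i
  induction i using Nat.strong_induction_on with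
  | _ i ih =>
    intro hi
    rcases i with _ | _ | i
    · simp [ph]
    · simp [ph]
    · rw [ph]
      exact div_ne_zero (mul_ne_zero (ih i (by omega) (by omega)) (hΔ _ (by omega)))
        (hΔ _ (by omega))

private lemma homog_zero_eq {N : ℕ} {F : Fn} (hF : Homog N 0 F) : F = F ∅ • vac := by
  funext S
  by_cases hS : S = ∅
  · subst hS
    simp [vac]
  · have h1 : F S = 0 := by
      by_contra h
      exact hS (Finset.card_eq_zero.1 (hF S h).2)
    simp [vac, hS, h1]

private lemma coef_eq {A : ℂ} (hA : A ≠ 0) (b l : ℕ) (hu : unknot A b ≠ 0) :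
    ((-1) ^ b / unknot A b) * (A ^ (2 * (b + 1 + 2 * l) + 2))⁻¹ *
      (((A ^ 4)⁻¹) ^ l - ((A ^ 4)⁻¹) ^ (b + 1 + l))
      = (1 - (A ^ 4)⁻¹) * ((A ^ 4)⁻¹) ^ (b + 1 + 2 * l) := by
  have hU := unknot_mul A hA b
  have e0 : ((A ^ 4)⁻¹) ^ (b + 1 + 2 * l) = 1 / A ^ (4 * (b + 1 + 2 * l)) := by
    rw [inv_pow, ← pow_mul, one_div]
  have e1 : ((A ^ 4)⁻¹) ^ l = A ^ (4 * (b + 1) + 4 * l) / A ^ (4 * (b + 1 + 2 * l)) := by
    rw [inv_pow, ← pow_mul, eq_div_iff (pow_ne_zero _ hA), inv_mul_eq_div,
      div_eq_iff (pow_ne_zero _ hA), ← pow_add]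
    congr 1
    ring
  have e2 : ((A ^ 4)⁻¹) ^ (b + 1 + l) = A ^ (4 * l) / A ^ (4 * (b + 1 + 2 * l)) := by
    rw [inv_pow, ← pow_mul, eq_div_iff (pow_ne_zero _ hA), inv_mul_eq_div,
      div_eq_iff (pow_ne_zero _ hA), ← pow_add]
    congr 1
    ring
  have e3 : (1 - (A ^ 4)⁻¹) = (A ^ 4 - 1) / A ^ 4 := by
    field_simp
  have e4 : A ^ (2 * (b + 1 + 2 * l) + 2) = A ^ (2 * b) * A ^ (4 * l) * A ^ 4 := by
    rw [← pow_add, ← pow_add]
    congr 1
    ring
  have e5 : A ^ (4 * (b + 1) + 4 * l) = A ^ (4 * (b + 1)) * A ^ (4 * l) := pow_add _ _ _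
  rw [e0, e1, e2, e3, e4, e5]
  have n1 : A ^ (2 * b) ≠ 0 := pow_ne_zero _ hA
  have n2 : A ^ (4 * l) ≠ 0 := pow_ne_zero _ hA
  have n3 : A ^ (4 * (b + 1 + 2 * l)) ≠ 0 := pow_ne_zero _ hA
  have n4 : A ^ 4 ≠ 0 := pow_ne_zero _ hA
  generalize A ^ (2 * b) = x at *
  generalize A ^ (4 * l) = y at *
  generalize A ^ (4 * (b + 1 + 2 * l)) = z at *
  generalize A ^ (4 * (b + 1)) = w at *
  generalize A ^ 4 = q at *
  rw [← sub_div, div_mul_eq_mul_div, mul_comm ((-1) ^ b), div_mul_div_comm, div_mul_div_comm]
  rw [div_eq_div_iff (mul_ne_zero hu n3) (mul_ne_zero n4 n3), mul_one]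
  field_simp
  linear_combination (-1 : ℂ) * hU

/-- Proof: induction on `n`, for all `l ≤ 2` with `2 l ≤ n`, `F` homogeneous of degree `l` with
`rai A n F = 0`, `c = n - 2 l`.
`n = 0`: `l = 0`, `F = F ∅ • vac` and `vac` is the function of the trivial path (label list `0`).
Step `n → n + 1`: if `l = 0`: `F = F ∅ • vac` and the all-up path gives `ph ... • vac` with
`ph ≠ 0`; or: `res1 n F = 0`, `F = res0 n F` is homogeneous of degree `0` on `n` sites, in
`spanVec A n n L` by induction, and `stp A n n (n+1) F = ph A (n+1) • F`, `ph A (n+1) ≠ 0`.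
`l ≥ 1`: `X = res0 n F`, `H = res1 n F`, `F = X + put n H` (`split_last`); `rai_split` and
`rai A (n+1) F = 0` give (evaluate at `S ∌ n` and `S ∋ n`) `rai A n X = - v^n • H` and
`rai A n H = 0`.  `H` has degree `l - 1` and `2 (l-1) ≤ n`, so `H ∈ spanVec A n a L`,
`a = n - 2 (l - 1) ≥ 1`. Let `D = stp A n a (a-1) H = ph A (a-1) • (κ • low A n H
- A^(2n+2) • put n H)`, `κ = (-1)^(a-1) / unknot A (a-1)`; `D ∈ spanVec A (n+1) (a-1) L` (`stp_mem`).
Then `X' = F + (A^(-(2n+2)) / ph A (a-1)) • D = X + (κ A^(-(2n+2))) • low A n H` is homogeneous of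
degree `l` on `n` sites, and `rai A n X' = 0`: by `rai_low` (degree `l - 1`),
`(1 - v) • rai A n (low A n H) = (v^(l-1) - v^(n-l+1)) • H = v^(l-1) (1 - v^a) • H`, and
`unknot_geom` (for `a - 1`) with `v = A^(-4)` gives `κ (1 - v^a)/(1 - v) = A^(-2(a-1))`, so the
coefficient is `-v^n + A^(-2n-2) v^(l-1) A^(-2(a-1)) = 0`.  (If `v = 1` use instead of division
the form `rai (low H) = v^(l-1) (1 + v + ... + v^(a-1)) • H`; the hypothesis `hv : A^4 ≠ 1` is
available.)  If `2 l ≤ n`: `X' ∈ spanVec A n (n - 2l) L` by induction and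
`X' = (ph A (a-1))⁻¹ • stp A n (a - 2) (a - 1) X' ∈ spanVec A (n+1) (a-1) L`. If `2 l = n + 1`:
`X' = 0` by `ker_small`. `ph A i ≠ 0` for `i ≤ n + 1` from the recursion. -/
theorem mem_spanVec {A : ℂ} (hA : A ≠ 0) (hv : A ^ 4 ≠ 1) (n L : ℕ) (hL : n ≤ L)
    (hΔ : ∀ i ≤ n, unknot A i ≠ 0) (l : ℕ) (hl : l ≤ 2) (hln : 2 * l ≤ n) (F : Fn)
    (hF : Homog n l F) (hr : rai A n F = 0) : F ∈ spanVec A n (n - 2 * l) L := by
  induction n generalizing l F with
  | zero =>
    obtain rfl : l = 0 := by omega
    rw [homog_zero_eq hF]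
    refine Submodule.smul_mem _ _ (Submodule.subset_span ?_)
    refine ⟨⟨fun _ => ⟨0, by omega⟩, rfl, rfl, fun i => i.elim0⟩, rfl⟩
  | succ n ih =>
    have hph : ∀ i ≤ n + 1, ph A i ≠ 0 := ph_ne_zero hΔ
    have ih' := ih (by omega) (fun i hi => hΔ i (by omega))
    rcases l with _ | l'
    · -- degree zero
      have hF' : Homog n 0 F := by
        intro S hS
        have h1 := Finset.card_eq_zero.1 (hF S hS).2
        subst h1
        exact ⟨Finset.empty_subset _, rfl⟩
      have h1 := ih' 0 (by omega) (by omega) F hF' (rai_deg_zero hF')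
      have h2 := stp_mem (A := A) (c' := n + 1) (Or.inl rfl) hL h1
      have h3 : stp A n (n - 2 * 0) (n + 1) F = ph A (n + 1) • F := by
        unfold stp
        rw [if_pos (by omega)]
      have h4 : stp A n n (n + 1) F = ph A (n + 1) • F := h3
      have h5 : F = (ph A (n + 1))⁻¹ • stp A n n (n + 1) F := by
        rw [h4, smul_smul, inv_mul_cancel₀ (hph (n + 1) le_rfl), one_smul]
      show F ∈ spanVec A (n + 1) (n + 1) L
      rw [h5]
      exact Submodule.smul_mem _ _ h2
    · obtain ⟨b, rfl⟩ : ∃ b, n = b + 1 + 2 * l' := ⟨n - 1 - 2 * l', by omega⟩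
      set n : ℕ := b + 1 + 2 * l' with hn
      have hb : n + 1 - 2 * (l' + 1) = b := by omega
      rw [hb]
      set v : ℂ := (A ^ 4)⁻¹ with hv'
      have hv0 : v ≠ 0 := inv_ne_zero (pow_ne_zero _ hA)
      have hv1 : 1 - v ≠ 0 := by
        intro h
        apply hv
        have h2 : v = 1 := by linear_combination -h
        rw [hv', inv_eq_one] at h2
        exact h2
      set X : Fn := res0 n F with hXd
      set H : Fn := res1 n F with hHd
      have hX : Homog n (l' + 1) X := homog_res0 hF
      have hH : Homog n l' H := homog_res1 hF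
      have hsplit : F = X + put n H := split_last n F
      have hr2 : rai A n X + (v ^ n) • H + v • put n (rai A n H) = 0 := by
        rw [← rai_split hX hH, ← hsplit]
        exact hr
      have hHz : ∀ S, n ∈ S → H S = 0 := by
        intro S hS
        apply hH.eq_zero
        rintro ⟨h1, _⟩
        exact absurd (Finset.mem_range.1 (h1 hS)) (lt_irrefl _)
      have hrX : Homog n l' (rai A n X) := homog_rai hX
      have hrXz : ∀ S, n ∈ S → rai A n X S = 0 := by
        intro S hS
        apply hrX.eq_zero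
        rintro ⟨h1, _⟩
        exact absurd (Finset.mem_range.1 (h1 hS)) (lt_irrefl _)
      have hrHz : ∀ S, n ∈ S → rai A n H S = 0 := by
        intro S hS
        rcases l' with _ | l''
        · rw [rai_deg_zero hH]
          rfl
        · apply (homog_rai hH).eq_zero
          rintro ⟨h1, _⟩
          exact absurd (Finset.mem_range.1 (h1 hS)) (lt_irrefl _)
      have hrH : rai A n H = 0 := by
        funext S
        by_cases hS : n ∈ S
        · exact hrHz S hS
        · have h1 := congrFun hr2 (insert n S)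
          have hm : n ∈ insert n S := Finset.mem_insert_self _ _
          simp only [Pi.add_apply, Pi.smul_apply, smul_eq_mul, Pi.zero_apply] at h1
          rw [hrXz _ hm, hHz _ hm, mul_zero, zero_add, zero_add] at h1
          have h2 := (mul_eq_zero.1 h1).resolve_left hv0
          unfold put at h2
          rw [if_pos hm, Finset.erase_insert hS] at h2
          exact h2
      have hrX2 : rai A n X = -(v ^ n) • H := by
        have h1 : put n (0 : Fn) = 0 := by
          funext S
          unfold put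
          split_ifs <;> rfl
        rw [hrH, h1, smul_zero, add_zero] at hr2
        rw [neg_smul]
        exact eq_neg_of_add_eq_zero_left hr2
      have hHspan : H ∈ spanVec A n (b + 1) L := by
        have h1 := ih' l' (by omega) (by omega) H hH hrH
        have h2 : n - 2 * l' = b + 1 := by omega
        rw [h2] at h1
        exact h1
      have hub : unknot A b ≠ 0 := hΔ b (by omega)
      have hpb : ph A b ≠ 0 := hph b (by omega)
      set κ : ℂ := (-1) ^ b / unknot A b with hκ
      set D : Fn := stp A n (b + 1) b H with hD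
      have hDspan : D ∈ spanVec A (n + 1) b L := stp_mem (Or.inr rfl) (by omega) hHspan
      have hD2 : D = ph A b • (κ • low A n H - A ^ (2 * n + 2) • put n H) := by
        rw [hD]
        unfold stp
        rw [if_neg (by omega)]
      set t : ℂ := (A ^ (2 * n + 2))⁻¹ with ht
      have hA2 : A ^ (2 * n + 2) ≠ 0 := pow_ne_zero _ hA
      set X' : Fn := X + (κ * t) • low A n H with hX'
      have hFX : F = X' - (t * (ph A b)⁻¹) • D := by
        rw [hD2, hX', smul_smul, mul_assoc, inv_mul_cancel₀ hpb, mul_one, smul_sub, smul_smul,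
          smul_smul, mul_comm t κ, ht, inv_mul_cancel₀ hA2, one_smul]
        nth_rewrite 1 [hsplit]
        abel
      have hX'h : Homog n (l' + 1) X' := hX.add (hH.low.smul _)
      have hlow0 : low A n (0 : Fn) = 0 := by
        funext S
        unfold low
        split_ifs
        · simp
        · rfl
      have hrl : (1 - v) • rai A n (low A n H) = (v ^ l' - v ^ (n - l')) • H := by
        have h1 := rai_low hA (show l' ≤ n by omega) hH
        rw [hrH, hlow0, sub_zero] at h1
        exact h1
      have hX'r : rai A n X' = 0 := by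
        have h1 : (1 - v) • rai A n X' = 0 := by
          rw [hX', rai_add, rai_smul, hrX2, smul_add, smul_comm (1 - v) (κ * t), hrl, smul_smul,
            smul_smul, ← add_smul]
          have h2 : (1 - v) * -(v ^ n) + κ * t * (v ^ l' - v ^ (n - l')) = 0 := by
            have h3 := coef_eq hA b l' hub
            have h4 : n - l' = b + 1 + l' := by omega
            rw [h4, hκ, ht, hn, hv', h3]
            ring
          rw [h2, zero_smul]
        exact (smul_eq_zero.1 h1).resolve_left hv1
      have hX'span : X' ∈ spanVec A (n + 1) b L := by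
        rcases Nat.lt_or_ge n (2 * (l' + 1)) with h1 | h1
        · have h2 : n = 2 * (l' + 1) - 1 := by omega
          have h3 : X' = 0 := by
            refine ker_small hA (hΔ 1 (by omega)) (l := l' + 1) (by omega) ?_ ?_
            · rw [← h2]
              exact hX'h
            · rw [← h2]
              exact hX'r
          rw [h3]
          exact Submodule.zero_mem _
        · obtain ⟨b', rfl⟩ : ∃ b', b = b' + 1 := ⟨b - 1, by omega⟩
          have h2 := ih' (l' + 1) hl h1 X' hX'h hX'r
          have h3 : n - 2 * (l' + 1) = b' := by omega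
          rw [h3] at h2
          have h4 := stp_mem (A := A) (c' := b' + 1) (Or.inl rfl) (by omega) h2
          have h5 : stp A n b' (b' + 1) X' = ph A (b' + 1) • X' := by
            unfold stp
            rw [if_pos rfl]
          rw [h5] at h4
          have h6 := Submodule.smul_mem _ (ph A (b' + 1))⁻¹ h4
          rw [smul_smul, inv_mul_cancel₀ hpb, one_smul] at h6
          exact h6
      rw [hFX]
      exact Submodule.sub_mem _ hX'span (Submodule.smul_mem _ _ hDspan)

end Pool.Agent.H61.KR
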