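import Mathlib
import Pool.Agent.H69.AMM.Mixed
import Pool.Agent.H70.KR.Newt

set_option autoImplicit false

/-! # Quantum finite braids are annihilated by products of `X - A ^ h` on the coloured space

PROOF of `exists_ann`. `mixed_criterion` gives `μ` with
`trace (ρ ^ m * P) = ∑ over h in μ of A ^ (m h)`, `ρ = (braidRep ..).val`, `P = mixIdem k c N A`.
Fix `A`, `hA`. `H := goodIdem_mix k c β.2`; `M := compr (fun z => mixIdem k c N z) (cabled k β) A hA`;
`H.trace_pow A hA m : trace (M ^ m) = ctrace .. m + (card - trace P)`, and `ctrace .. m` is by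
definition `trace (ρ ^ m * P)`. For `m = 0` (`pow_zero`, `one_mul`): `trace P = card μ`
(`Multiset.card`, as a complex number), and `H.trace_const` gives `d : ℕ`, `d ≤ card (FusionPath ..)`,
`trace P = d`, so `card μ = d` and `trace (M ^ m) = (L.map (· ^ m)).sum` for
`L = μ.map (fun h => A ^ h) + Multiset.replicate (card (FusionPath N c N) - d) 1`
(`A ^ (m h) = (A ^ h) ^ m`: `zpow_mul`, `zpow_natCast`). `charpoly_of_traces M L` (Newt.lean) and
Cayley-Hamilton (`Matrix.aeval_self_charpoly`) give `aeval M Q = 0` for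
`Q = (L.map fun x => X - C x).prod = (Λ.map fun h => X - C (A ^ h)).prod` with
`Λ = μ + Multiset.replicate _ 0`. By `H.compr_pow` and linearity
`aeval M Q = aeval ρ Q * P + (Q.eval 1) • (1 - P)` (`Polynomial.induction_on'` or
`Polynomial.aeval_eq_sum_range`), so multiplying by `P` on the right (`P * P = P`, `H.idem A hA`)
`aeval ρ Q * P = 0`. -/

namespace Pool.Agent.H61.KR

open Pool.Agent.H69.AMU Pool.Agent.H69.AMU.FusionPath Matrix Polynomial

variable {n N : ℕ}

theorem exists_ann (k : ColVec n N) (c : ℕ) (β : pureBraid n) (hcase : ¬ EventuallyInfinite k c β)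
    (A : ℂ) (hA : Admissible N N A) :
    ∃ Λ : Multiset ℤ,
      aeval (braidRep N c N A hA (cabled k (β : BraidGroup n))).val
        ((Λ.map fun h => (X - C (A ^ h) : ℂ[X])).prod) * mixIdem k c N A = 0 := by
  classical
  obtain ⟨μ, hμ⟩ := mixed_criterion k c β hcase
  have H := goodIdem_mix k c β.2
  obtain ⟨ρ, hρ⟩ : ∃ ρ, ρ = (braidRep N c N A hA (cabled k (β : BraidGroup n))).val := ⟨_, rfl⟩
  obtain ⟨P, hP⟩ : ∃ P, P = mixIdem k c N A := ⟨_, rfl⟩
  obtain ⟨M, hM⟩ : ∃ M, M = compr (fun z => mixIdem k c N z) (cabled k (β : BraidGroup n)) A hA :=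
    ⟨_, rfl⟩
  obtain ⟨d, hd, hd'⟩ := H.trace_const
  have htP : trace (mixIdem k c N A) = d := hd' A hA
  have hcard : (Multiset.card μ : ℂ) = d := by
    have h0 := hμ A hA 0
    rw [pow_zero, one_mul, htP] at h0
    rw [h0]
    simp
  obtain ⟨r, hr⟩ : ∃ r, r = Fintype.card (FusionPath N c N) - d := ⟨_, rfl⟩
  obtain ⟨L, hL⟩ : ∃ L : Multiset ℂ, L = μ.map (fun h => A ^ h) + Multiset.replicate r 1 :=
    ⟨_, rfl⟩
  have htr : ∀ m : ℕ, (M ^ m).trace = (L.map (· ^ m)).sum := by
    intro m
    have h1 := H.trace_pow A hA m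
    have h2 : ctrace (fun z => mixIdem k c N z) (cabled k (β : BraidGroup n)) A hA m =
        (μ.map fun h => A ^ ((m : ℤ) * h)).sum := hμ A hA m
    rw [hM, h1, h2, htP, hL, Multiset.map_add, Multiset.sum_add, Multiset.map_map,
      Multiset.map_replicate, one_pow, Multiset.sum_replicate, nsmul_eq_mul, mul_one, hr,
      Nat.cast_sub hd]
    congr 2
    refine Multiset.map_congr rfl fun h _ => ?_
    rw [Function.comp_apply, mul_comm, _root_.zpow_mul, zpow_natCast]
  have hch := Pool.Agent.H70.KR.charpoly_of_traces M L htr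
  have hCH : aeval M (L.map fun x => X - C x).prod = 0 := by
    rw [← hch]
    exact Matrix.aeval_self_charpoly M
  have hidem : P * P = P := by
    rw [hP]
    exact H.idem A hA
  have key : ∀ q : ℂ[X], aeval M q * P = aeval ρ q * P := by
    intro q
    induction q using Polynomial.induction_on' with
    | add p q hp hq => rw [map_add, map_add, add_mul, add_mul, hp, hq]
    | monomial m a =>
      have h1 : M ^ m = ρ ^ m * P + (1 - P) := by
        rw [hM, hρ, hP]
        exact H.compr_pow A hA m
      rw [aeval_monomial, aeval_monomial, mul_assoc, mul_assoc, h1, add_mul, sub_mul, one_mul,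
        hidem, sub_self, add_zero, mul_assoc, hidem]
  refine ⟨μ + Multiset.replicate r 0, ?_⟩
  have h3 : ((μ + Multiset.replicate r 0).map fun h : ℤ => (X - C (A ^ h) : ℂ[X])) =
      L.map fun x => X - C x := by
    rw [hL, Multiset.map_add, Multiset.map_add, Multiset.map_map, Multiset.map_replicate,
      Multiset.map_replicate, zpow_zero]
    rfl
  rw [h3, ← hρ, ← hP, ← key, hCH, zero_mul]

end Pool.Agent.H61.KR
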