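import Mathlib
import Pool.Agent.H69.AMU.Cable

set_option autoImplicit false

/-! # Krammer operators: definitions

Vectors `Pr n → K` have coordinates `(i, j)`, `i < j < n`.  `exd` extends them by `0` to functions
on `ℕ × ℕ`, `res` restricts functions.  `kcf`: crossing of `g, g+1` in the coordinates `c`
(few sums), `kdf`: the same in the coordinates `d` (nonnegative at `t = 0`, `0 ≤ s ≤ 1`).
`d = dcf c`, `c = cdf d`. -/

namespace Pool.Agent.H61.KR

open Pool.Agent.H69.AMU

/-- Pairs `i < j < n`. -/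
abbrev Pr (n : ℕ) : Type := {p : Fin n × Fin n // p.1 < p.2}

/-- The pair `(i, j)`. -/
def prk {n : ℕ} (i j : ℕ) (h : i < j) (h' : j < n) : Pr n := ⟨(⟨i, h.trans h'⟩, ⟨j, h'⟩), h⟩

section

variable {K : Type*} [CommRing K] {n : ℕ}

/-- The vector as a function of natural numbers, `0` outside of `i < j < n`. -/
def exd (d : Pr n → K) : ℕ → ℕ → K := fun i j => if h : i < j ∧ j < n then d (prk i j h.1 h.2) else 0

/-- The vector of a function. -/
def res (n : ℕ) (F : ℕ → ℕ → K) : Pr n → K := fun p => F p.1.1 p.1.2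

lemma res_exd (d : Pr n → K) : res n (exd d) = d := by
  funext p
  obtain ⟨⟨⟨i, hi⟩, ⟨j, hj⟩⟩, h⟩ := p
  have h' : i < j ∧ j < n := ⟨h, hj⟩
  show exd d i j = _
  unfold exd
  rw [dif_pos h']
  rfl

lemma exd_res (F : ℕ → ℕ → K) {i j : ℕ} (h : i < j) (h' : j < n) : exd (res n F) i j = F i j := by
  unfold exd
  rw [dif_pos ⟨h, h'⟩]
  rfl

lemma exd_add (d d' : Pr n → K) : exd (d + d') = exd d + exd d' := by
  funext i j
  simp only [exd, Pi.add_apply]
  split_ifs <;> simp

lemma exd_smul (a : K) (d : Pr n → K) : exd (a • d) = a • exd d := by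
  funext i j
  simp only [exd, Pi.smul_apply, smul_eq_mul]
  split_ifs <;> simp

/-- The crossing of `g, g+1` in the coordinates `c`. -/
def kcf (n : ℕ) (t s : K) (g : ℕ) (F : ℕ → ℕ → K) : ℕ → ℕ → K := fun i j =>
  if i = g ∧ j = g + 1 then
    t * s ^ 2 * F g (g + 1) - s * (1 - s) * ∑ a ∈ Finset.range g, F a g
      - t * s * (1 - s) * ∑ b ∈ Finset.Ico (g + 2) n, F g b
  else if j = g then (1 - s) * F i g + F i (g + 1)
  else if j = g + 1 then s * F i g
  else if i = g then (1 - s) * F g j + F (g + 1) j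
  else if i = g + 1 then s * F g j
  else F i j

/-- The inverse of the crossing `g, g+1` in the coordinates `c`; `t' = 1/t`, `s' = 1/s`. -/
def kci (n : ℕ) (t s t' s' : K) (g : ℕ) (F : ℕ → ℕ → K) : ℕ → ℕ → K := fun i j =>
  if i = g ∧ j = g + 1 then
    t' * s' ^ 2 * (F g (g + 1) + (1 - s) * ∑ a ∈ Finset.range g, F a (g + 1)
      + t * (1 - s) * ∑ b ∈ Finset.Ico (g + 2) n, F (g + 1) b)
  else if j = g then s' * F i (g + 1)
  else if j = g + 1 then F i g - (1 - s) * s' * F i (g + 1)
  else if i = g then s' * F (g + 1) j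
  else if i = g + 1 then F g j - (1 - s) * s' * F (g + 1) j
  else F i j

/-- The crossing of `g, g+1` in the coordinates `d`: the Krammer operator. -/
def kdf (n : ℕ) (t s : K) (g : ℕ) (F : ℕ → ℕ → K) : ℕ → ℕ → K := fun i j =>
  if i = g ∧ j = g + 1 then
    t * (s ^ 2 * F g (g + 1)
      - (1 - s) * ∑ a ∈ Finset.range g, s ^ (g - 1 - a) * s ^ 2 * F a (g + 1)
      - s * (1 - s) * ∑ b ∈ Finset.Ico (g + 2) n, F g b
      + (1 - s) ^ 2 * ∑ a ∈ Finset.range g, ∑ b ∈ Finset.Ico (g + 2) n, s ^ (g - 1 - a) * s * F a b)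
  else if j = g then (1 - s) * F i g + F i (g + 1)
  else if j = g + 1 then s * F i g
  else if i = g then F (g + 1) j
  else if i = g + 1 then s * F g j + (1 - s) * F (g + 1) j
  else F i j

/-- From the coordinates `c` to the coordinates `d`. -/
def dcf (s : K) (F : ℕ → ℕ → K) : ℕ → ℕ → K := fun i j =>
  F i j + (1 - s) * ∑ a ∈ Finset.range i, F a j

/-- From the coordinates `d` to the coordinates `c`. -/
def cdf (s : K) (F : ℕ → ℕ → K) : ℕ → ℕ → K := fun i j =>
  F i j - (1 - s) * ∑ a ∈ Finset.range i, s ^ (i - 1 - a) * F a j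

/-- `F` and `F'` agree at all pairs. -/
def Eqn (n : ℕ) (F F' : ℕ → ℕ → K) : Prop := ∀ i j, i < j → j < n → F i j = F' i j

lemma res_eq_iff {F F' : ℕ → ℕ → K} : res n F = res n F' ↔ Eqn n F F' := by
  constructor
  · intro h i j hij hj
    exact congrFun h (prk i j hij hj)
  · intro h
    funext p
    exact h _ _ p.2 p.1.2.2

lemma exd_res_eqn (F : ℕ → ℕ → K) : Eqn n (exd (res n F)) F := fun _ _ h h' => exd_res F h h'

lemma Eqn.symm {F F' : ℕ → ℕ → K} (h : Eqn n F F') : Eqn n F' F :=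
  fun i j hij hj => (h i j hij hj).symm

lemma Eqn.trans {F F' F'' : ℕ → ℕ → K} (h : Eqn n F F') (h' : Eqn n F' F'') : Eqn n F F'' :=
  fun i j hij hj => (h i j hij hj).trans (h' i j hij hj)

lemma kcf_congr {t s : K} {g : ℕ} (hg : g + 1 < n) {F F' : ℕ → ℕ → K} (h : Eqn n F F') :
    Eqn n (kcf n t s g F) (kcf n t s g F') := by
  intro i j hij hj
  unfold kcf
  have h1 : ∑ a ∈ Finset.range g, F a g = ∑ a ∈ Finset.range g, F' a g :=
    Finset.sum_congr rfl fun a ha => h a g (Finset.mem_range.1 ha) (by omega)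
  have h2 : ∑ b ∈ Finset.Ico (g + 2) n, F g b = ∑ b ∈ Finset.Ico (g + 2) n, F' g b :=
    Finset.sum_congr rfl fun b hb => by
      rw [Finset.mem_Ico] at hb
      exact h g b (by omega) (by omega)
  have h3 := h g (g + 1) (by omega) hg
  split_ifs with c1 c2 c3 c4 c5
  · rw [h1, h2, h3]
  · subst c2
    rw [h i j (by omega) (by omega), h i (j + 1) (by omega) (by omega)]
  · rw [h i g (by omega) (by omega)]
  · rw [h g j (by omega) (by omega), h (g + 1) j (by omega) (by omega)]
  · rw [h g j (by omega) (by omega)]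
  · exact h i j hij hj

lemma kci_congr {t s t' s' : K} {g : ℕ} (hg : g + 1 < n) {F F' : ℕ → ℕ → K} (h : Eqn n F F') :
    Eqn n (kci n t s t' s' g F) (kci n t s t' s' g F') := by
  intro i j hij hj
  unfold kci
  have h1 : ∑ a ∈ Finset.range g, F a (g + 1) = ∑ a ∈ Finset.range g, F' a (g + 1) :=
    Finset.sum_congr rfl fun a ha => h a (g + 1) (by have := Finset.mem_range.1 ha; omega) (by omega)
  have h2 : ∑ b ∈ Finset.Ico (g + 2) n, F (g + 1) b = ∑ b ∈ Finset.Ico (g + 2) n, F' (g + 1) b :=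
    Finset.sum_congr rfl fun b hb => by
      rw [Finset.mem_Ico] at hb
      exact h (g + 1) b (by omega) (by omega)
  have h3 := h g (g + 1) (by omega) hg
  split_ifs with c1 c2 c3 c4 c5
  · rw [h1, h2, h3]
  · rw [h i (g + 1) (by omega) (by omega)]
  · rw [h i g (by omega) (by omega), h i (g + 1) (by omega) (by omega)]
  · rw [h (g + 1) j (by omega) (by omega)]
  · rw [h g j (by omega) (by omega), h (g + 1) j (by omega) (by omega)]
  · exact h i j hij hj

lemma kdf_congr {t s : K} {g : ℕ} (hg : g + 1 < n) {F F' : ℕ → ℕ → K} (h : Eqn n F F') :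
    Eqn n (kdf n t s g F) (kdf n t s g F') := by
  intro i j hij hj
  unfold kdf
  have h1 : ∑ a ∈ Finset.range g, s ^ (g - 1 - a) * s ^ 2 * F a (g + 1)
      = ∑ a ∈ Finset.range g, s ^ (g - 1 - a) * s ^ 2 * F' a (g + 1) :=
    Finset.sum_congr rfl fun a ha => by
      rw [h a (g + 1) (by have := Finset.mem_range.1 ha; omega) (by omega)]
  have h2 : ∑ b ∈ Finset.Ico (g + 2) n, F g b = ∑ b ∈ Finset.Ico (g + 2) n, F' g b :=
    Finset.sum_congr rfl fun b hb => by
      rw [Finset.mem_Ico] at hb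
      exact h g b (by omega) (by omega)
  have h3 := h g (g + 1) (by omega) hg
  have h4 : ∑ a ∈ Finset.range g, ∑ b ∈ Finset.Ico (g + 2) n, s ^ (g - 1 - a) * s * F a b
      = ∑ a ∈ Finset.range g, ∑ b ∈ Finset.Ico (g + 2) n, s ^ (g - 1 - a) * s * F' a b :=
    Finset.sum_congr rfl fun a ha => Finset.sum_congr rfl fun b hb => by
      rw [Finset.mem_Ico] at hb
      have := Finset.mem_range.1 ha
      rw [h a b (by omega) (by omega)]
  split_ifs with c1 c2 c3 c4 c5
  · rw [h1, h2, h3, h4]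
  · subst c2
    rw [h i j (by omega) (by omega), h i (j + 1) (by omega) (by omega)]
  · rw [h i g (by omega) (by omega)]
  · rw [h (g + 1) j (by omega) (by omega)]
  · rw [h g j (by omega) (by omega), h (g + 1) j (by omega) (by omega)]
  · exact h i j hij hj

lemma dcf_congr {s : K} {F F' : ℕ → ℕ → K} (h : Eqn n F F') : Eqn n (dcf s F) (dcf s F') := by
  intro i j hij hj
  unfold dcf
  rw [h i j hij hj, Finset.sum_congr rfl fun a ha => h a j
    (by have := Finset.mem_range.1 ha; omega) hj]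

lemma cdf_congr {s : K} {F F' : ℕ → ℕ → K} (h : Eqn n F F') : Eqn n (cdf s F) (cdf s F') := by
  intro i j hij hj
  unfold cdf
  rw [h i j hij hj, Finset.sum_congr rfl fun a ha => by
    rw [h a j (by have := Finset.mem_range.1 ha; omega) hj]]

end

end Pool.Agent.H61.KR
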