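import Mathlib
import Pool.Agent.H61.KR.KDef

set_option autoImplicit false

/-! # Krammer operators: relations on functions -/

namespace Pool.Agent.H61.KR

variable {K : Type*} [CommRing K] {n : ℕ}

section rules

variable (t s : K) (g : ℕ) (F : ℕ → ℕ → K)

lemma kcf_gg : kcf n t s g F g (g + 1) = t * s ^ 2 * F g (g + 1)
    - s * (1 - s) * ∑ a ∈ Finset.range g, F a g
    - t * s * (1 - s) * ∑ b ∈ Finset.Ico (g + 2) n, F g b := by
  unfold kcf
  rw [if_pos ⟨rfl, rfl⟩]

lemma kcf_left {i : ℕ} (h : i < g) : kcf n t s g F i g = (1 - s) * F i g + F i (g + 1) := by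
  unfold kcf
  rw [if_neg (by omega), if_pos rfl]

lemma kcf_left' {i : ℕ} (h : i < g) : kcf n t s g F i (g + 1) = s * F i g := by
  unfold kcf
  rw [if_neg (by omega), if_neg (by omega), if_pos rfl]

lemma kcf_right {j : ℕ} (h : g + 1 < j) :
    kcf n t s g F g j = (1 - s) * F g j + F (g + 1) j := by
  unfold kcf
  rw [if_neg (by omega), if_neg (by omega), if_neg (by omega), if_pos rfl]

lemma kcf_right' {j : ℕ} (h : g + 1 < j) : kcf n t s g F (g + 1) j = s * F g j := by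
  unfold kcf
  rw [if_neg (by omega), if_neg (by omega), if_neg (by omega), if_neg (by omega), if_pos rfl]

lemma kcf_out {i j : ℕ} (h1 : i ≠ g) (h2 : i ≠ g + 1) (h3 : j ≠ g) (h4 : j ≠ g + 1) :
    kcf n t s g F i j = F i j := by
  unfold kcf
  rw [if_neg (by omega), if_neg h3, if_neg h4, if_neg h1, if_neg h2]

lemma kci_gg (t' s' : K) : kci n t s t' s' g F g (g + 1) = t' * s' ^ 2 * (F g (g + 1)
      + (1 - s) * ∑ a ∈ Finset.range g, F a (g + 1)
      + t * (1 - s) * ∑ b ∈ Finset.Ico (g + 2) n, F (g + 1) b) := by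
  unfold kci
  rw [if_pos ⟨rfl, rfl⟩]

lemma kci_left (t' s' : K) {i : ℕ} (h : i < g) :
    kci n t s t' s' g F i g = s' * F i (g + 1) := by
  unfold kci
  rw [if_neg (by omega), if_pos rfl]

lemma kci_left' (t' s' : K) {i : ℕ} (h : i < g) :
    kci n t s t' s' g F i (g + 1) = F i g - (1 - s) * s' * F i (g + 1) := by
  unfold kci
  rw [if_neg (by omega), if_neg (by omega), if_pos rfl]

lemma kci_right (t' s' : K) {j : ℕ} (h : g + 1 < j) :
    kci n t s t' s' g F g j = s' * F (g + 1) j := by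
  unfold kci
  rw [if_neg (by omega), if_neg (by omega), if_neg (by omega), if_pos rfl]

lemma kci_right' (t' s' : K) {j : ℕ} (h : g + 1 < j) :
    kci n t s t' s' g F (g + 1) j = F g j - (1 - s) * s' * F (g + 1) j := by
  unfold kci
  rw [if_neg (by omega), if_neg (by omega), if_neg (by omega), if_neg (by omega), if_pos rfl]

lemma kci_out (t' s' : K) {i j : ℕ} (h1 : i ≠ g) (h2 : i ≠ g + 1) (h3 : j ≠ g) (h4 : j ≠ g + 1) :
    kci n t s t' s' g F i j = F i j := by
  unfold kci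
  rw [if_neg (by omega), if_neg h3, if_neg h4, if_neg h1, if_neg h2]

end rules

/-- Far commutation. -/
lemma kcf_comm (t s : K) {g h : ℕ} (hgh : g + 2 ≤ h) (hh : h + 1 < n) (F : ℕ → ℕ → K) :
    Eqn n (kcf n t s g (kcf n t s h F)) (kcf n t s h (kcf n t s g F)) := by
  -- sums
  have a1 : ∀ F : ℕ → ℕ → K, ∑ a ∈ Finset.range g, kcf n t s h F a g
      = ∑ a ∈ Finset.range g, F a g := fun F =>
    Finset.sum_congr rfl fun a ha => by
      have := Finset.mem_range.1 ha
      exact kcf_out t s h F (by omega) (by omega) (by omega) (by omega)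
  have hIco : ∀ f : ℕ → K, ∑ b ∈ Finset.Ico (g + 2) n, f b
      = (∑ b ∈ Finset.Ico (g + 2) h, f b) + (f h + (f (h + 1) + ∑ b ∈ Finset.Ico (h + 2) n, f b)) := by
    intro f
    rw [← Finset.sum_Ico_consecutive f (by omega : g + 2 ≤ h) (by omega : h ≤ n),
      Finset.sum_eq_sum_Ico_succ_bot (by omega : h < n),
      Finset.sum_eq_sum_Ico_succ_bot (by omega : h + 1 < n)]
  have a2 : ∀ F : ℕ → ℕ → K, ∑ b ∈ Finset.Ico (g + 2) n, kcf n t s h F g b
      = ∑ b ∈ Finset.Ico (g + 2) n, F g b := by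
    intro F
    rw [hIco, hIco, kcf_left t s h F (by omega), kcf_left' t s h F (by omega)]
    have e1 : ∑ b ∈ Finset.Ico (g + 2) h, kcf n t s h F g b = ∑ b ∈ Finset.Ico (g + 2) h, F g b :=
      Finset.sum_congr rfl fun b hb => by
        rw [Finset.mem_Ico] at hb
        exact kcf_out t s h F (by omega) (by omega) (by omega) (by omega)
    have e2 : ∑ b ∈ Finset.Ico (h + 2) n, kcf n t s h F g b = ∑ b ∈ Finset.Ico (h + 2) n, F g b :=
      Finset.sum_congr rfl fun b hb => by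
        rw [Finset.mem_Ico] at hb
        exact kcf_out t s h F (by omega) (by omega) (by omega) (by omega)
    rw [e1, e2]
    ring
  have hrange : ∀ f : ℕ → K, ∑ b ∈ Finset.range h, f b
      = (∑ b ∈ Finset.range g, f b) + (f g + (f (g + 1) + ∑ b ∈ Finset.Ico (g + 2) h, f b)) := by
    intro f
    rw [Finset.range_eq_Ico, Finset.range_eq_Ico,
      ← Finset.sum_Ico_consecutive f (by omega : 0 ≤ g) (by omega : g ≤ h),
      Finset.sum_eq_sum_Ico_succ_bot (by omega : g < h),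
      Finset.sum_eq_sum_Ico_succ_bot (by omega : g + 1 < h)]
  have a3 : ∀ F : ℕ → ℕ → K, ∑ a ∈ Finset.range h, kcf n t s g F a h
      = ∑ a ∈ Finset.range h, F a h := by
    intro F
    rw [hrange, hrange, kcf_right t s g F (by omega), kcf_right' t s g F (by omega)]
    have e1 : ∑ b ∈ Finset.range g, kcf n t s g F b h = ∑ b ∈ Finset.range g, F b h :=
      Finset.sum_congr rfl fun b hb => by
        rw [Finset.mem_range] at hb
        exact kcf_out t s g F (by omega) (by omega) (by omega) (by omega)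
    have e2 : ∑ b ∈ Finset.Ico (g + 2) h, kcf n t s g F b h = ∑ b ∈ Finset.Ico (g + 2) h, F b h :=
      Finset.sum_congr rfl fun b hb => by
        rw [Finset.mem_Ico] at hb
        exact kcf_out t s g F (by omega) (by omega) (by omega) (by omega)
    rw [e1, e2]
    ring
  have a4 : ∀ F : ℕ → ℕ → K, ∑ b ∈ Finset.Ico (h + 2) n, kcf n t s g F h b
      = ∑ b ∈ Finset.Ico (h + 2) n, F h b := fun F =>
    Finset.sum_congr rfl fun b hb => by
      rw [Finset.mem_Ico] at hb
      exact kcf_out t s g F (by omega) (by omega) (by omega) (by omega)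
  intro i j hij hj
  have hcase : (i = g ∧ j = g + 1) ∨ (i = h ∧ j = h + 1) ∨ (i < g ∧ j = g) ∨ (i < g ∧ j = g + 1)
      ∨ (i = g ∧ g + 1 < j ∧ j ≠ h ∧ j ≠ h + 1) ∨ (i = g + 1 ∧ g + 1 < j ∧ j ≠ h ∧ j ≠ h + 1)
      ∨ (i ≠ g ∧ i ≠ g + 1 ∧ i < h ∧ j = h) ∨ (i ≠ g ∧ i ≠ g + 1 ∧ i < h ∧ j = h + 1)
      ∨ (i = h ∧ h + 1 < j) ∨ (i = h + 1 ∧ h + 1 < j) ∨ (i = g ∧ j = h) ∨ (i = g ∧ j = h + 1)
      ∨ (i = g + 1 ∧ j = h) ∨ (i = g + 1 ∧ j = h + 1)
      ∨ (i ≠ g ∧ i ≠ g + 1 ∧ i ≠ h ∧ i ≠ h + 1 ∧ j ≠ g ∧ j ≠ g + 1 ∧ j ≠ h ∧ j ≠ h + 1) := by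
    omega
  rcases hcase with h1 | h1 | h1 | h1 | h1 | h1 | h1 | h1 | h1 | h1 | h1 | h1 | h1 | h1 | h1
  · obtain ⟨rfl, rfl⟩ := h1
    simp (disch := omega) only [kcf_gg, kcf_out, a1, a2]
  · obtain ⟨rfl, rfl⟩ := h1
    simp (disch := omega) only [kcf_gg, kcf_out, a3, a4]
  · obtain ⟨h1, rfl⟩ := h1
    simp (disch := omega) only [kcf_left, kcf_out]
  · obtain ⟨h1, rfl⟩ := h1
    simp (disch := omega) only [kcf_left', kcf_out]
  · obtain ⟨rfl, h1, h2, h3⟩ := h1
    simp (disch := omega) only [kcf_right, kcf_out]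
  · obtain ⟨rfl, h1, h2, h3⟩ := h1
    simp (disch := omega) only [kcf_right', kcf_out]
  · obtain ⟨h1, h2, h3, rfl⟩ := h1
    simp (disch := omega) only [kcf_left, kcf_out]
  · obtain ⟨h1, h2, h3, rfl⟩ := h1
    simp (disch := omega) only [kcf_left', kcf_out]
  · obtain ⟨rfl, h1⟩ := h1
    simp (disch := omega) only [kcf_right, kcf_out]
  · obtain ⟨rfl, h1⟩ := h1
    simp (disch := omega) only [kcf_right', kcf_out]
  · obtain ⟨rfl, rfl⟩ := h1
    simp (disch := omega) only [kcf_left, kcf_left', kcf_right, kcf_right', kcf_out]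
    ring
  · obtain ⟨rfl, rfl⟩ := h1
    simp (disch := omega) only [kcf_left, kcf_left', kcf_right, kcf_right', kcf_out]
    ring
  · obtain ⟨rfl, rfl⟩ := h1
    simp (disch := omega) only [kcf_left, kcf_left', kcf_right, kcf_right', kcf_out]
    ring
  · obtain ⟨rfl, rfl⟩ := h1
    simp (disch := omega) only [kcf_left, kcf_left', kcf_right, kcf_right', kcf_out]
  · obtain ⟨h1, h2, h3, h4, h5, h6, h7, h8⟩ := h1
    simp (disch := omega) only [kcf_out]

end Pool.Agent.H61.KR
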