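import Mathlib
import Pool.Agent.H61.KR.KRel

set_option autoImplicit false
set_option linter.unusedSimpArgs false

/-! # Krammer operators: the braid relation -/

namespace Pool.Agent.H61.KR

variable {K : Type*} [CommRing K] {n : ℕ}

section sums

variable (t s : K) {g : ℕ} (F : ℕ → ℕ → K)

lemma sumA_g : ∑ a ∈ Finset.range g, kcf n t s g F a g
    = (1 - s) * (∑ a ∈ Finset.range g, F a g) + ∑ a ∈ Finset.range g, F a (g + 1) := by
  rw [Finset.mul_sum, ← Finset.sum_add_distrib]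
  exact Finset.sum_congr rfl fun a ha => kcf_left t s g F (Finset.mem_range.1 ha)

lemma sumA_g1 : ∑ a ∈ Finset.range g, kcf n t s g F a (g + 1)
    = s * ∑ a ∈ Finset.range g, F a g := by
  rw [Finset.mul_sum]
  exact Finset.sum_congr rfl fun a ha => kcf_left' t s g F (Finset.mem_range.1 ha)

lemma sumA_g2 : ∑ a ∈ Finset.range g, kcf n t s g F a (g + 2) = ∑ a ∈ Finset.range g, F a (g + 2) :=
  Finset.sum_congr rfl fun a ha => by
    have := Finset.mem_range.1 ha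
    exact kcf_out t s g F (by omega) (by omega) (by omega) (by omega)

lemma sumA'_g : ∑ a ∈ Finset.range g, kcf n t s (g + 1) F a g = ∑ a ∈ Finset.range g, F a g :=
  Finset.sum_congr rfl fun a ha => by
    have := Finset.mem_range.1 ha
    exact kcf_out t s (g + 1) F (by omega) (by omega) (by omega) (by omega)

lemma sumA'_g1 : ∑ a ∈ Finset.range g, kcf n t s (g + 1) F a (g + 1)
    = (1 - s) * (∑ a ∈ Finset.range g, F a (g + 1)) + ∑ a ∈ Finset.range g, F a (g + 2) := by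
  rw [Finset.mul_sum, ← Finset.sum_add_distrib]
  exact Finset.sum_congr rfl fun a ha => kcf_left t s (g + 1) F
    (by have := Finset.mem_range.1 ha; omega)

lemma sumA'_g2 : ∑ a ∈ Finset.range g, kcf n t s (g + 1) F a (g + 2)
    = s * ∑ a ∈ Finset.range g, F a (g + 1) := by
  rw [Finset.mul_sum]
  exact Finset.sum_congr rfl fun a ha => kcf_left' t s (g + 1) F
    (by have := Finset.mem_range.1 ha; omega)

lemma sumB_g : ∑ b ∈ Finset.Ico (g + 3) n, kcf n t s g F g b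
    = (1 - s) * (∑ b ∈ Finset.Ico (g + 3) n, F g b) + ∑ b ∈ Finset.Ico (g + 3) n, F (g + 1) b := by
  rw [Finset.mul_sum, ← Finset.sum_add_distrib]
  exact Finset.sum_congr rfl fun b hb => kcf_right t s g F
    (by have := Finset.mem_Ico.1 hb; omega)

lemma sumB_g1 : ∑ b ∈ Finset.Ico (g + 3) n, kcf n t s g F (g + 1) b
    = s * ∑ b ∈ Finset.Ico (g + 3) n, F g b := by
  rw [Finset.mul_sum]
  exact Finset.sum_congr rfl fun b hb => kcf_right' t s g F
    (by have := Finset.mem_Ico.1 hb; omega)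

lemma sumB_g2 : ∑ b ∈ Finset.Ico (g + 3) n, kcf n t s g F (g + 2) b
    = ∑ b ∈ Finset.Ico (g + 3) n, F (g + 2) b :=
  Finset.sum_congr rfl fun b hb => by
    have := Finset.mem_Ico.1 hb
    exact kcf_out t s g F (by omega) (by omega) (by omega) (by omega)

lemma sumB'_g : ∑ b ∈ Finset.Ico (g + 3) n, kcf n t s (g + 1) F g b
    = ∑ b ∈ Finset.Ico (g + 3) n, F g b :=
  Finset.sum_congr rfl fun b hb => by
    have := Finset.mem_Ico.1 hb
    exact kcf_out t s (g + 1) F (by omega) (by omega) (by omega) (by omega)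

lemma sumB'_g1 : ∑ b ∈ Finset.Ico (g + 3) n, kcf n t s (g + 1) F (g + 1) b
    = (1 - s) * (∑ b ∈ Finset.Ico (g + 3) n, F (g + 1) b)
      + ∑ b ∈ Finset.Ico (g + 3) n, F (g + 2) b := by
  rw [Finset.mul_sum, ← Finset.sum_add_distrib]
  exact Finset.sum_congr rfl fun b hb => kcf_right t s (g + 1) F
    (by have := Finset.mem_Ico.1 hb; omega)

lemma sumB'_g2 : ∑ b ∈ Finset.Ico (g + 3) n, kcf n t s (g + 1) F (g + 2) b
    = s * ∑ b ∈ Finset.Ico (g + 3) n, F (g + 1) b := by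
  rw [Finset.mul_sum]
  exact Finset.sum_congr rfl fun b hb => kcf_right' t s (g + 1) F
    (by have := Finset.mem_Ico.1 hb; omega)

/-- The value at `(g, g+1)` with the sum split. -/
lemma kcf_gg' (hg : g + 2 < n) : kcf n t s g F g (g + 1) = t * s ^ 2 * F g (g + 1)
    - s * (1 - s) * ∑ a ∈ Finset.range g, F a g
    - t * s * (1 - s) * (F g (g + 2) + ∑ b ∈ Finset.Ico (g + 3) n, F g b) := by
  rw [kcf_gg, Finset.sum_eq_sum_Ico_succ_bot (by omega : g + 2 < n)]

/-- The value at `(g+1, g+2)` with the sum split. -/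
lemma kcf_gg'' : kcf n t s (g + 1) F (g + 1) (g + 2) = t * s ^ 2 * F (g + 1) (g + 2)
    - s * (1 - s) * ((∑ a ∈ Finset.range g, F a (g + 1)) + F g (g + 1))
    - t * s * (1 - s) * ∑ b ∈ Finset.Ico (g + 3) n, F (g + 1) b := by
  rw [show g + 2 = g + 1 + 1 from rfl, kcf_gg, Finset.sum_range_succ]

lemma kcf_left1 : kcf n t s (g + 1) F g (g + 1) = (1 - s) * F g (g + 1) + F g (g + 2) :=
  kcf_left t s (g + 1) F (by omega)

lemma kcf_left1' : kcf n t s (g + 1) F g (g + 2) = s * F g (g + 1) :=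
  kcf_left' t s (g + 1) F (by omega)

lemma kcf_right1 : kcf n t s g F g (g + 2) = (1 - s) * F g (g + 2) + F (g + 1) (g + 2) :=
  kcf_right t s g F (by omega)

lemma kcf_right1' : kcf n t s g F (g + 1) (g + 2) = s * F g (g + 2) :=
  kcf_right' t s g F (by omega)

lemma kcf_ll {i : ℕ} (h : i < g) : kcf n t s (g + 1) F i (g + 1)
    = (1 - s) * F i (g + 1) + F i (g + 2) :=
  kcf_left t s (g + 1) F (by omega)

lemma kcf_ll' {i : ℕ} (h : i < g) : kcf n t s (g + 1) F i (g + 2) = s * F i (g + 1) :=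
  kcf_left' t s (g + 1) F (by omega)

lemma kcf_rr {j : ℕ} (h : g + 2 < j) : kcf n t s (g + 1) F (g + 1) j
    = (1 - s) * F (g + 1) j + F (g + 2) j :=
  kcf_right t s (g + 1) F (by omega)

lemma kcf_rr' {j : ℕ} (h : g + 2 < j) : kcf n t s (g + 1) F (g + 2) j = s * F (g + 1) j :=
  kcf_right' t s (g + 1) F (by omega)

end sums

/-- The braid relation. -/
lemma kcf_braid (t s : K) {g : ℕ} (hg : g + 2 < n) (F : ℕ → ℕ → K) :
    Eqn n (kcf n t s g (kcf n t s (g + 1) (kcf n t s g F)))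
      (kcf n t s (g + 1) (kcf n t s g (kcf n t s (g + 1) F))) := by
  intro i j hij hj
  have hcase : (i = g ∧ j = g + 1) ∨ (i = g ∧ j = g + 2) ∨ (i = g + 1 ∧ j = g + 2)
      ∨ (i < g ∧ j = g) ∨ (i < g ∧ j = g + 1) ∨ (i < g ∧ j = g + 2)
      ∨ (i = g ∧ g + 2 < j) ∨ (i = g + 1 ∧ g + 2 < j) ∨ (i = g + 2 ∧ g + 2 < j)
      ∨ (i ≠ g ∧ i ≠ g + 1 ∧ i ≠ g + 2 ∧ j ≠ g ∧ j ≠ g + 1 ∧ j ≠ g + 2) := by
    omega
  rcases hcase with h1 | h1 | h1 | h1 | h1 | h1 | h1 | h1 | h1 | h1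
  · obtain ⟨rfl, rfl⟩ := h1
    simp only [kcf_gg' t s _ hg, kcf_gg'', kcf_left1, kcf_left1', kcf_right1, kcf_right1',
      sumA_g, sumA_g1, sumA_g2, sumA'_g, sumA'_g1, sumA'_g2, sumB_g, sumB_g1, sumB_g2, sumB'_g,
      sumB'_g1, sumB'_g2]
    ring
  · obtain ⟨rfl, rfl⟩ := h1
    simp only [kcf_gg' t s _ hg, kcf_gg'', kcf_left1, kcf_left1', kcf_right1, kcf_right1',
      sumA_g, sumA_g1, sumA_g2, sumA'_g, sumA'_g1, sumA'_g2, sumB_g, sumB_g1, sumB_g2, sumB'_g,
      sumB'_g1, sumB'_g2]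
    ring
  · obtain ⟨rfl, rfl⟩ := h1
    simp only [kcf_gg' t s _ hg, kcf_gg'', kcf_left1, kcf_left1', kcf_right1, kcf_right1',
      sumA_g, sumA_g1, sumA_g2, sumA'_g, sumA'_g1, sumA'_g2, sumB_g, sumB_g1, sumB_g2, sumB'_g,
      sumB'_g1, sumB'_g2]
    ring
  · obtain ⟨h1, rfl⟩ := h1
    simp (disch := omega) only [kcf_left, kcf_left', kcf_ll, kcf_ll', kcf_out]
    ring
  · obtain ⟨h1, rfl⟩ := h1
    simp (disch := omega) only [kcf_left, kcf_left', kcf_ll, kcf_ll', kcf_out]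
    ring
  · obtain ⟨h1, rfl⟩ := h1
    simp (disch := omega) only [kcf_left, kcf_left', kcf_ll, kcf_ll', kcf_out]
  · obtain ⟨rfl, h1⟩ := h1
    simp (disch := omega) only [kcf_right, kcf_right', kcf_rr, kcf_rr', kcf_out]
    ring
  · obtain ⟨rfl, h1⟩ := h1
    simp (disch := omega) only [kcf_right, kcf_right', kcf_rr, kcf_rr', kcf_out]
    ring
  · obtain ⟨rfl, h1⟩ := h1
    simp (disch := omega) only [kcf_right, kcf_right', kcf_rr, kcf_rr', kcf_out]
  · obtain ⟨h1, h2, h3, h4, h5, h6⟩ := h1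
    simp (disch := omega) only [kcf_out]

end Pool.Agent.H61.KR
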