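import Mathlib
import Pool.Agent.H61.KR.KRel

set_option autoImplicit false
set_option linter.unusedSimpArgs false

/-! # Krammer operators: inverses and coordinate change -/

namespace Pool.Agent.H61.KR

variable {K : Type*} [CommRing K] {n : ℕ}

/-- Inverse. -/
lemma kci_kcf {t s t' s' : K} (ht : t * t' = 1) (hs : s * s' = 1) {g : ℕ} (hg : g + 1 < n)
    (F : ℕ → ℕ → K) : Eqn n (kci n t s t' s' g (kcf n t s g F)) F := by
  have a1 : ∑ a ∈ Finset.range g, kcf n t s g F a (g + 1) = s * ∑ a ∈ Finset.range g, F a g := by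
    rw [Finset.mul_sum]
    exact Finset.sum_congr rfl fun a ha => kcf_left' t s g F (Finset.mem_range.1 ha)
  have a2 : ∑ b ∈ Finset.Ico (g + 2) n, kcf n t s g F (g + 1) b
      = s * ∑ b ∈ Finset.Ico (g + 2) n, F g b := by
    rw [Finset.mul_sum]
    exact Finset.sum_congr rfl fun b hb => kcf_right' t s g F
      (by have := Finset.mem_Ico.1 hb; omega)
  intro i j hij hj
  have hcase : (i = g ∧ j = g + 1) ∨ (i < g ∧ j = g) ∨ (i < g ∧ j = g + 1)
      ∨ (i = g ∧ g + 1 < j) ∨ (i = g + 1 ∧ g + 1 < j)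
      ∨ (i ≠ g ∧ i ≠ g + 1 ∧ j ≠ g ∧ j ≠ g + 1) := by
    omega
  rcases hcase with h1 | h1 | h1 | h1 | h1 | h1
  · obtain ⟨rfl, rfl⟩ := h1
    rw [kci_gg, a1, a2, kcf_gg]
    linear_combination (F i (i + 1) * t * t' * (s * s' + 1)) * hs + F i (i + 1) * ht
  · obtain ⟨h1, rfl⟩ := h1
    rw [kci_left t s _ _ t' s' h1, kcf_left' t s _ F h1]
    linear_combination F i j * hs
  · obtain ⟨h1, rfl⟩ := h1
    rw [kci_left' t s _ _ t' s' h1, kcf_left' t s _ F h1, kcf_left t s _ F h1]
    linear_combination (-(1 - s) * F i g) * hs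
  · obtain ⟨rfl, h1⟩ := h1
    rw [kci_right t s _ _ t' s' h1, kcf_right' t s _ F h1]
    linear_combination F i j * hs
  · obtain ⟨rfl, h1⟩ := h1
    rw [kci_right' t s _ _ t' s' h1, kcf_right' t s _ F h1, kcf_right t s _ F h1]
    linear_combination (-(1 - s) * F g j) * hs
  · obtain ⟨h1, h2, h3, h4⟩ := h1
    rw [kci_out t s _ _ t' s' h1 h2 h3 h4, kcf_out t s _ F h1 h2 h3 h4]

lemma kcf_kci {t s t' s' : K} (ht : t * t' = 1) (hs : s * s' = 1) {g : ℕ} (hg : g + 1 < n)
    (F : ℕ → ℕ → K) : Eqn n (kcf n t s g (kci n t s t' s' g F)) F := by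
  have a1 : ∑ a ∈ Finset.range g, kci n t s t' s' g F a g
      = s' * ∑ a ∈ Finset.range g, F a (g + 1) := by
    rw [Finset.mul_sum]
    exact Finset.sum_congr rfl fun a ha => kci_left t s g F t' s' (Finset.mem_range.1 ha)
  have a2 : ∑ b ∈ Finset.Ico (g + 2) n, kci n t s t' s' g F g b
      = s' * ∑ b ∈ Finset.Ico (g + 2) n, F (g + 1) b := by
    rw [Finset.mul_sum]
    exact Finset.sum_congr rfl fun b hb => kci_right t s g F t' s'
      (by have := Finset.mem_Ico.1 hb; omega)
  intro i j hij hj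
  have hcase : (i = g ∧ j = g + 1) ∨ (i < g ∧ j = g) ∨ (i < g ∧ j = g + 1)
      ∨ (i = g ∧ g + 1 < j) ∨ (i = g + 1 ∧ g + 1 < j)
      ∨ (i ≠ g ∧ i ≠ g + 1 ∧ j ≠ g ∧ j ≠ g + 1) := by
    omega
  rcases hcase with h1 | h1 | h1 | h1 | h1 | h1
  · obtain ⟨rfl, rfl⟩ := h1
    rw [kcf_gg, a1, a2, kci_gg]
    set X := ∑ a ∈ Finset.range i, F a (i + 1)
    set Y := ∑ b ∈ Finset.Ico (i + 2) n, F (i + 1) b
    set x := F i (i + 1)
    linear_combination (x + (1 - s) * X + t * (1 - s) * Y) * (t * t' * (s * s' + 1)) * hs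
      + (x + (1 - s) * X + t * (1 - s) * Y) * ht - (1 - s) * X * hs - t * (1 - s) * Y * hs
  · obtain ⟨h1, rfl⟩ := h1
    rw [kcf_left t s _ _ h1, kci_left t s _ F t' s' h1, kci_left' t s _ F t' s' h1]
    ring
  · obtain ⟨h1, rfl⟩ := h1
    rw [kcf_left' t s _ _ h1, kci_left t s _ F t' s' h1]
    linear_combination F i (g + 1) * hs
  · obtain ⟨rfl, h1⟩ := h1
    rw [kcf_right t s _ _ h1, kci_right t s _ F t' s' h1, kci_right' t s _ F t' s' h1]
    ring
  · obtain ⟨rfl, h1⟩ := h1
    rw [kcf_right' t s _ _ h1, kci_right t s _ F t' s' h1]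
    linear_combination F (g + 1) j * hs
  · obtain ⟨h1, h2, h3, h4⟩ := h1
    rw [kcf_out t s _ _ h1 h2 h3 h4, kci_out t s _ F t' s' h1 h2 h3 h4]

/-- Recursion for the weighted sums. -/
lemma wsum_succ (s : K) (F : ℕ → K) (i : ℕ) :
    ∑ a ∈ Finset.range (i + 1), s ^ (i + 1 - 1 - a) * F a
      = s * (∑ a ∈ Finset.range i, s ^ (i - 1 - a) * F a) + F i := by
  rw [Finset.sum_range_succ, show i + 1 - 1 - i = 0 by omega, pow_zero, one_mul, Finset.mul_sum]
  congr 1
  refine Finset.sum_congr rfl fun a ha => ?_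
  have := Finset.mem_range.1 ha
  rw [show i + 1 - 1 - a = (i - 1 - a) + 1 by omega, pow_succ]
  ring

lemma sum_cdf (s : K) (F : ℕ → ℕ → K) (i j : ℕ) :
    ∑ a ∈ Finset.range i, cdf s F a j = ∑ a ∈ Finset.range i, s ^ (i - 1 - a) * F a j := by
  induction i with
  | zero => simp
  | succ i ih =>
    rw [wsum_succ s (fun a => F a j), Finset.sum_range_succ, ih, cdf]
    ring

lemma wsum_dcf (s : K) (F : ℕ → ℕ → K) (i j : ℕ) :
    ∑ a ∈ Finset.range i, s ^ (i - 1 - a) * dcf s F a j = ∑ a ∈ Finset.range i, F a j := by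
  induction i with
  | zero => simp
  | succ i ih =>
    rw [wsum_succ s (fun a => dcf s F a j), Finset.sum_range_succ, ih, dcf]
    ring

/-- The two coordinate changes are inverse. -/
lemma cdf_dcf (s : K) (F : ℕ → ℕ → K) : cdf s (dcf s F) = F := by
  funext i j
  rw [cdf, wsum_dcf, dcf]
  ring

lemma dcf_cdf (s : K) (F : ℕ → ℕ → K) : dcf s (cdf s F) = F := by
  funext i j
  rw [dcf, sum_cdf, cdf]
  ring

/-- The coordinate change intertwines. -/
lemma kdf_dcf (t s : K) {g : ℕ} (hg : g + 1 < n) (F : ℕ → ℕ → K) :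
    Eqn n (kdf n t s g (dcf s F)) (dcf s (kcf n t s g F)) := by
  have b1 : ∑ a ∈ Finset.range g, kcf n t s g F a (g + 1) = s * ∑ a ∈ Finset.range g, F a g := by
    rw [Finset.mul_sum]
    exact Finset.sum_congr rfl fun a ha => kcf_left' t s g F (Finset.mem_range.1 ha)
  intro i j hij hj
  have hcase : (i = g ∧ j = g + 1) ∨ (i < g ∧ j = g) ∨ (i < g ∧ j = g + 1)
      ∨ (i = g ∧ g + 1 < j) ∨ (i = g + 1 ∧ g + 1 < j)
      ∨ (i < g ∧ g + 1 < j) ∨ (g + 1 < i) ∨ (j < g) := by
    omega
  rcases hcase with h1 | h1 | h1 | h1 | h1 | h1 | h1 | h1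
  · obtain ⟨rfl, rfl⟩ := h1
    rw [kdf, if_pos ⟨rfl, rfl⟩]
    -- the two sums over `a`
    have e1 : ∑ a ∈ Finset.range i, s ^ (i - 1 - a) * s ^ 2 * dcf s F a (i + 1)
        = s ^ 2 * ∑ a ∈ Finset.range i, F a (i + 1) := by
      rw [← wsum_dcf s F i (i + 1), Finset.mul_sum]
      exact Finset.sum_congr rfl fun a _ => by ring
    have e2 : ∑ a ∈ Finset.range i, ∑ b ∈ Finset.Ico (i + 2) n, s ^ (i - 1 - a) * s * dcf s F a b
        = s * ∑ b ∈ Finset.Ico (i + 2) n, ∑ a ∈ Finset.range i, F a b := by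
      rw [Finset.sum_comm, Finset.mul_sum]
      refine Finset.sum_congr rfl fun b _ => ?_
      rw [← wsum_dcf s F i b, Finset.mul_sum]
      exact Finset.sum_congr rfl fun a _ => by ring
    have e3 : ∑ b ∈ Finset.Ico (i + 2) n, dcf s F i b = (∑ b ∈ Finset.Ico (i + 2) n, F i b)
        + (1 - s) * ∑ b ∈ Finset.Ico (i + 2) n, ∑ a ∈ Finset.range i, F a b := by
      rw [Finset.mul_sum, ← Finset.sum_add_distrib]
      rfl
    rw [e1, e2, e3]
    show _ = kcf n t s i F i (i + 1) + (1 - s) * ∑ a ∈ Finset.range i, kcf n t s i F a (i + 1)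
    rw [b1, kcf_gg]
    show t * (s ^ 2 * (F i (i + 1) + (1 - s) * ∑ a ∈ Finset.range i, F a (i + 1)) - _ - _ + _) = _
    ring
  · obtain ⟨h1, rfl⟩ := h1
    rw [kdf, if_neg (by omega), if_pos rfl]
    show _ = kcf n t s j F i j + (1 - s) * ∑ a ∈ Finset.range i, kcf n t s j F a j
    have e1 : ∑ a ∈ Finset.range i, kcf n t s j F a j
        = (1 - s) * (∑ a ∈ Finset.range i, F a j) + ∑ a ∈ Finset.range i, F a (j + 1) := by
      rw [Finset.mul_sum, ← Finset.sum_add_distrib]
      exact Finset.sum_congr rfl fun a ha => kcf_left t s j F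
        (by have := Finset.mem_range.1 ha; omega)
    rw [e1, kcf_left t s j F h1]
    simp only [dcf]
    ring
  · obtain ⟨h1, rfl⟩ := h1
    rw [kdf, if_neg (by omega), if_neg (by omega), if_pos rfl]
    show _ = kcf n t s g F i (g + 1) + (1 - s) * ∑ a ∈ Finset.range i, kcf n t s g F a (g + 1)
    have e1 : ∑ a ∈ Finset.range i, kcf n t s g F a (g + 1)
        = s * (∑ a ∈ Finset.range i, F a g) := by
      rw [Finset.mul_sum]
      exact Finset.sum_congr rfl fun a ha => kcf_left' t s g F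
        (by have := Finset.mem_range.1 ha; omega)
    rw [e1, kcf_left' t s g F h1]
    simp only [dcf]
    ring
  · obtain ⟨rfl, h1⟩ := h1
    rw [kdf, if_neg (by omega), if_neg (by omega), if_neg (by omega), if_pos rfl]
    show _ = kcf n t s i F i j + (1 - s) * ∑ a ∈ Finset.range i, kcf n t s i F a j
    have e1 : ∑ a ∈ Finset.range i, kcf n t s i F a j = ∑ a ∈ Finset.range i, F a j :=
      Finset.sum_congr rfl fun a ha => by
        have := Finset.mem_range.1 ha
        exact kcf_out t s i F (by omega) (by omega) (by omega) (by omega)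
    rw [e1, kcf_right t s i F h1]
    simp only [dcf, Finset.sum_range_succ]
    ring
  · obtain ⟨rfl, h1⟩ := h1
    rw [kdf, if_neg (by omega), if_neg (by omega), if_neg (by omega), if_neg (by omega), if_pos rfl]
    show _ = kcf n t s g F (g + 1) j + (1 - s) * ∑ a ∈ Finset.range (g + 1), kcf n t s g F a j
    have e1 : ∑ a ∈ Finset.range g, kcf n t s g F a j = ∑ a ∈ Finset.range g, F a j :=
      Finset.sum_congr rfl fun a ha => by
        have := Finset.mem_range.1 ha
        exact kcf_out t s g F (by omega) (by omega) (by omega) (by omega)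
    rw [Finset.sum_range_succ, e1, kcf_right t s g F h1, kcf_right' t s g F h1]
    simp only [dcf, Finset.sum_range_succ]
    ring
  · obtain ⟨h1, h2⟩ := h1
    rw [kdf, if_neg (by omega), if_neg (by omega), if_neg (by omega), if_neg (by omega),
      if_neg (by omega)]
    show _ = kcf n t s g F i j + (1 - s) * ∑ a ∈ Finset.range i, kcf n t s g F a j
    have e1 : ∑ a ∈ Finset.range i, kcf n t s g F a j = ∑ a ∈ Finset.range i, F a j :=
      Finset.sum_congr rfl fun a ha => by
        have := Finset.mem_range.1 ha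
        exact kcf_out t s g F (by omega) (by omega) (by omega) (by omega)
    rw [e1, kcf_out t s g F (by omega) (by omega) (by omega) (by omega)]
    rfl
  · rw [kdf, if_neg (by omega), if_neg (by omega), if_neg (by omega), if_neg (by omega),
      if_neg (by omega)]
    show _ = kcf n t s g F i j + (1 - s) * ∑ a ∈ Finset.range i, kcf n t s g F a j
    have e0 : ∀ f : ℕ → K, ∑ a ∈ Finset.range i, f a
        = (∑ a ∈ Finset.range g, f a) + (f g + (f (g + 1) + ∑ a ∈ Finset.Ico (g + 2) i, f a)) := by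
      intro f
      rw [Finset.range_eq_Ico, Finset.range_eq_Ico,
        ← Finset.sum_Ico_consecutive f (by omega : 0 ≤ g) (by omega : g ≤ i),
        Finset.sum_eq_sum_Ico_succ_bot (by omega : g < i),
        Finset.sum_eq_sum_Ico_succ_bot (by omega : g + 1 < i)]
    have e1 : ∑ a ∈ Finset.range g, kcf n t s g F a j = ∑ a ∈ Finset.range g, F a j :=
      Finset.sum_congr rfl fun a ha => by
        have := Finset.mem_range.1 ha
        exact kcf_out t s g F (by omega) (by omega) (by omega) (by omega)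
    have e2 : ∑ a ∈ Finset.Ico (g + 2) i, kcf n t s g F a j = ∑ a ∈ Finset.Ico (g + 2) i, F a j :=
      Finset.sum_congr rfl fun a ha => by
        have := Finset.mem_Ico.1 ha
        exact kcf_out t s g F (by omega) (by omega) (by omega) (by omega)
    rw [e0, e1, e2, kcf_right t s g F (by omega), kcf_right' t s g F (by omega),
      kcf_out t s g F (by omega) (by omega) (by omega) (by omega)]
    show F i j + (1 - s) * ∑ a ∈ Finset.range i, F a j = _
    rw [e0]
    ring
  · rw [kdf, if_neg (by omega), if_neg (by omega), if_neg (by omega), if_neg (by omega),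
      if_neg (by omega)]
    show _ = kcf n t s g F i j + (1 - s) * ∑ a ∈ Finset.range i, kcf n t s g F a j
    have e1 : ∑ a ∈ Finset.range i, kcf n t s g F a j = ∑ a ∈ Finset.range i, F a j :=
      Finset.sum_congr rfl fun a ha => by
        have := Finset.mem_range.1 ha
        exact kcf_out t s g F (by omega) (by omega) (by omega) (by omega)
    rw [e1, kcf_out t s g F (by omega) (by omega) (by omega) (by omega)]
    rfl

end Pool.Agent.H61.KR
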