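import Mathlib
import Pool.Agent.H61.KR.KBr
import Pool.Agent.H61.KR.KInv

set_option autoImplicit false

/-! # Krammer representation: the homomorphisms -/

namespace Pool.Agent.H61.KR

open Pool.Agent.H69.AMU Matrix

section

variable {K : Type*} [CommRing K] {n : ℕ}

lemma kcf_lin (n : ℕ) (t s : K) (g : ℕ) (F F' : ℕ → ℕ → K) :
    kcf n t s g (F + F') = kcf n t s g F + kcf n t s g F' := by
  funext i j
  simp only [kcf, Pi.add_apply, Finset.sum_add_distrib]
  split_ifs <;> ring

lemma kcf_smul (n : ℕ) (t s : K) (g : ℕ) (a : K) (F : ℕ → ℕ → K) :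
    kcf n t s g (a • F) = a • kcf n t s g F := by
  funext i j
  simp only [kcf, Pi.smul_apply, smul_eq_mul, ← Finset.mul_sum]
  split_ifs <;> ring

lemma kci_lin (n : ℕ) (t s t' s' : K) (g : ℕ) (F F' : ℕ → ℕ → K) :
    kci n t s t' s' g (F + F') = kci n t s t' s' g F + kci n t s t' s' g F' := by
  funext i j
  simp only [kci, Pi.add_apply, Finset.sum_add_distrib]
  split_ifs <;> ring

lemma kci_smul (n : ℕ) (t s t' s' : K) (g : ℕ) (a : K) (F : ℕ → ℕ → K) :
    kci n t s t' s' g (a • F) = a • kci n t s t' s' g F := by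
  funext i j
  simp only [kci, Pi.smul_apply, smul_eq_mul, ← Finset.mul_sum]
  split_ifs <;> ring

lemma kdf_lin (n : ℕ) (t s : K) (g : ℕ) (F F' : ℕ → ℕ → K) :
    kdf n t s g (F + F') = kdf n t s g F + kdf n t s g F' := by
  funext i j
  simp only [kdf, Pi.add_apply, Finset.sum_add_distrib, mul_add]
  split_ifs <;> ring

lemma kdf_smul (n : ℕ) (t s : K) (g : ℕ) (a : K) (F : ℕ → ℕ → K) :
    kdf n t s g (a • F) = a • kdf n t s g F := by
  funext i j
  have e : ∀ x y : K, x * (a * y) = a * (x * y) := fun x y => by ring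
  simp only [kdf, Pi.smul_apply, smul_eq_mul, e, ← Finset.mul_sum]
  split_ifs <;> ring

lemma dcf_lin (s : K) (F F' : ℕ → ℕ → K) : dcf s (F + F') = dcf s F + dcf s F' := by
  funext i j
  simp only [dcf, Pi.add_apply, Finset.sum_add_distrib]
  ring

lemma dcf_smul (s : K) (a : K) (F : ℕ → ℕ → K) : dcf s (a • F) = a • dcf s F := by
  funext i j
  simp only [dcf, Pi.smul_apply, smul_eq_mul, ← Finset.mul_sum]
  ring

lemma cdf_lin (s : K) (F F' : ℕ → ℕ → K) : cdf s (F + F') = cdf s F + cdf s F' := by
  funext i j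
  simp only [cdf, Pi.add_apply, Finset.sum_add_distrib, mul_add]
  ring

lemma cdf_smul (s : K) (a : K) (F : ℕ → ℕ → K) : cdf s (a • F) = a • cdf s F := by
  funext i j
  have e : ∀ x y : K, x * (a * y) = a * (x * y) := fun x y => by ring
  simp only [cdf, Pi.smul_apply, smul_eq_mul, e, ← Finset.mul_sum]
  ring

lemma res_add (F F' : ℕ → ℕ → K) : res n (F + F') = res n F + res n F' := rfl

lemma res_smul (a : K) (F : ℕ → ℕ → K) : res n (a • F) = a • res n F := rfl

/-- The linear map of a linear operation on functions. -/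
def lin (n : ℕ) (T : (ℕ → ℕ → K) → (ℕ → ℕ → K)) (h1 : ∀ F F', T (F + F') = T F + T F')
    (h2 : ∀ (a : K) F, T (a • F) = a • T F) : Module.End K (Pr n → K) where
  toFun d := res n (T (exd d))
  map_add' d d' := by rw [exd_add, h1, res_add]
  map_smul' a d := by rw [exd_smul, h2, res_smul]; rfl

/-- The crossing in the coordinates `c`, as a unit. -/
def kcU (n : ℕ) (t s : Kˣ) (g : ℕ) : (Module.End K (Pr n → K))ˣ :=
  if h : g + 1 < n then
    { val := lin n (kcf n (t : K) s g) (kcf_lin n _ _ g) (kcf_smul n _ _ g)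
      inv := lin n (kci n (t : K) s (↑t⁻¹ : K) (↑s⁻¹ : K) g) (kci_lin n _ _ _ _ g)
        (kci_smul n _ _ _ _ g)
      val_inv := by
        apply LinearMap.ext
        intro d
        show res n (kcf n (t : K) s g (exd (res n (kci n (t : K) s (↑t⁻¹ : K) (↑s⁻¹ : K) g (exd d))))) = d
        rw [← res_exd d, res_eq_iff, res_exd d]
        exact (kcf_congr h (exd_res_eqn _)).trans (kcf_kci (Units.mul_inv t) (Units.mul_inv s) h _)
      inv_val := by
        apply LinearMap.ext
        intro d
        show res n (kci n (t : K) s (↑t⁻¹ : K) (↑s⁻¹ : K) g (exd (res n (kcf n (t : K) s g (exd d))))) = d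
        rw [← res_exd d, res_eq_iff, res_exd d]
        exact (kci_congr h (exd_res_eqn _)).trans (kci_kcf (Units.mul_inv t) (Units.mul_inv s) h _) }
  else 1

lemma kcU_apply (t s : Kˣ) {g : ℕ} (h : g + 1 < n) (d : Pr n → K) :
    (kcU n t s g).val d = res n (kcf n (t : K) s g (exd d)) := by
  rw [kcU, dif_pos h]
  rfl

lemma artinSeq_kcU (t s : Kˣ) : ArtinSeq (kcU n t s) (n - 1) := by
  constructor
  · intro i j hij hj
    apply Units.ext
    apply LinearMap.ext
    intro d
    rw [Units.val_mul, Units.val_mul, Module.End.mul_apply, Module.End.mul_apply,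
      kcU_apply t s (by omega), kcU_apply t s (by omega), kcU_apply t s (by omega),
      kcU_apply t s (by omega), res_eq_iff]
    exact ((kcf_congr (by omega) (exd_res_eqn _)).trans (kcf_comm _ _ hij (by omega) _)).trans
      (kcf_congr (by omega) (exd_res_eqn _)).symm
  · intro i hi
    apply Units.ext
    apply LinearMap.ext
    intro d
    simp only [Units.val_mul, Module.End.mul_apply]
    rw [kcU_apply t s (by omega : i + 1 < n), kcU_apply t s (by omega : i + 1 + 1 < n),
      kcU_apply t s (by omega : i + 1 < n), kcU_apply t s (by omega : i + 1 + 1 < n),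
      kcU_apply t s (by omega : i + 1 < n), kcU_apply t s (by omega : i + 1 + 1 < n), res_eq_iff]
    refine (kcf_congr (by omega) ((exd_res_eqn _).trans
      (kcf_congr (by omega) (exd_res_eqn _)))).trans ?_
    refine Eqn.trans ?_ (kcf_congr (by omega) ((exd_res_eqn _).trans
      (kcf_congr (by omega) (exd_res_eqn _)))).symm
    exact kcf_braid _ _ (by omega) _

/-- The Krammer representation in the coordinates `c`. -/
def krc (n : ℕ) (t s : Kˣ) : BraidGroup n →* (Module.End K (Pr n → K))ˣ :=
  braidLift (artinSeq_kcU t s)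

/-- The coordinate change, as a unit. -/
def dcU (n : ℕ) (s : K) : (Module.End K (Pr n → K))ˣ where
  val := lin n (dcf s) (dcf_lin s) (dcf_smul s)
  inv := lin n (cdf s) (cdf_lin s) (cdf_smul s)
  val_inv := by
    apply LinearMap.ext
    intro d
    show res n (dcf s (exd (res n (cdf s (exd d))))) = d
    rw [← res_exd d, res_eq_iff, res_exd d]
    refine (dcf_congr (exd_res_eqn _)).trans ?_
    rw [dcf_cdf]
    exact fun _ _ _ _ => rfl
  inv_val := by
    apply LinearMap.ext
    intro d
    show res n (cdf s (exd (res n (dcf s (exd d))))) = d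
    rw [← res_exd d, res_eq_iff, res_exd d]
    refine (cdf_congr (exd_res_eqn _)).trans ?_
    rw [cdf_dcf]
    exact fun _ _ _ _ => rfl

/-- The Krammer representation in the coordinates `d`. -/
def krd (n : ℕ) (t s : Kˣ) : BraidGroup n →* (Module.End K (Pr n → K))ˣ :=
  (MulAut.conj (dcU n (s : K))).toMonoidHom.comp (krc n t s)

lemma krd_apply (t s : Kˣ) (b : BraidGroup n) :
    krd n t s b = dcU n (s : K) * krc n t s b * (dcU n (s : K))⁻¹ := rfl

/-- The generators act by `kdf`. -/
lemma krd_gen (t s : Kˣ) {g : ℕ} (h : g + 1 < n) (d : Pr n → K) :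
    (krd n t s (gen n g)).val d = res n (kdf n (t : K) s g (exd d)) := by
  have e1 : krc n t s (gen n g) = kcU n t s g := braidLift_gen _ (by omega)
  rw [krd_apply, e1, Units.val_mul, Units.val_mul, Module.End.mul_apply, Module.End.mul_apply,
    kcU_apply t s h]
  show res n (dcf (s : K) (exd (res n (kcf n (t : K) s g (exd (res n (cdf (s : K) (exd d)))))))) = _
  rw [res_eq_iff]
  refine (dcf_congr ((exd_res_eqn _).trans (kcf_congr h (exd_res_eqn _)))).trans ?_
  refine (kdf_dcf _ _ h _).symm.trans ?_
  rw [dcf_cdf]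
  exact fun _ _ _ _ => rfl

/-- The Krammer matrices. -/
noncomputable def kr (n : ℕ) (t s : Kˣ) : BraidGroup n →* (Matrix (Pr n) (Pr n) K)ˣ :=
  (Units.map (LinearMap.toMatrixAlgEquiv' (R := K) (n := Pr n)).toAlgHom.toMonoidHom).comp (krd n t s)

lemma kr_mulVec (t s : Kˣ) (b : BraidGroup n) (d : Pr n → K) :
    (kr n t s b).val *ᵥ d = (krd n t s b).val d := by
  show (LinearMap.toMatrix' (krd n t s b).val) *ᵥ d = _
  rw [← Matrix.toLin'_apply, Matrix.toLin'_toMatrix']

/-- The generators. -/
lemma kr_gen (t s : Kˣ) {g : ℕ} (h : g + 1 < n) (d : Pr n → K) :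
    (kr n t s (gen n g)).val *ᵥ d = res n (kdf n (t : K) s g (exd d)) := by
  rw [kr_mulVec, krd_gen t s h]

lemma exd_map {L : Type*} [CommRing L] (f : K →+* L) (d : Pr n → K) (i j : ℕ) :
    f (exd d i j) = exd (fun p => f (d p)) i j := by
  unfold exd
  split_ifs <;> simp

/-- Naturality in the ring. -/
lemma kr_map {L : Type*} [CommRing L] (f : K →+* L) (t s : Kˣ) (b : BraidGroup n) :
    (kr n t s b).val.map f = (kr n (Units.map (f : K →* L) t) (Units.map (f : K →* L) s) b).val := by
  have hgen : ∀ g, g < n - 1 → (kr n t s (gen n g)).val.map f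
      = (kr n (Units.map (f : K →* L) t) (Units.map (f : K →* L) s) (gen n g)).val := by
    intro g hg
    apply Matrix.ext_of_mulVec_single
    intro q
    rw [kr_gen _ _ (by omega)]
    funext p
    rw [Matrix.mulVec_single_one]
    show f ((kr n t s (gen n g)).val p q) = _
    have e := congrFun (kr_gen t s (by omega : g + 1 < n) (Pi.single q 1)) p
    rw [Matrix.mulVec_single_one] at e
    have e' : (kr n t s (gen n g)).val p q
      = res n (kdf n (t : K) s g (exd (Pi.single q 1))) p := e
    have e1 : (fun p => f ((Pi.single q 1 : Pr n → K) p)) = (Pi.single q 1 : Pr n → L) := by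
      funext p
      by_cases hp : p = q
      · subst hp; simp
      · simp [hp]
    rw [e']
    show f (kdf n (t : K) s g (exd (Pi.single q 1)) p.1.1 p.1.2)
      = kdf n (f t) (f s) g (exd (Pi.single q 1)) p.1.1 p.1.2
    rw [← e1]
    simp only [kdf]
    split_ifs <;> simp only [map_mul, map_sub, map_add, map_pow, map_one, map_sum, exd_map]
  have hmem : b ∈ Subgroup.closure (gen n '' Set.Iio (n - 1)) := by
    rw [closure_gen]; exact Subgroup.mem_top b
  induction hmem using Subgroup.closure_induction with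
  | mem x hx =>
    obtain ⟨i, hi, rfl⟩ := hx
    exact hgen i hi
  | one =>
    rw [map_one, map_one, Units.val_one, Units.val_one]
    exact Matrix.map_one f (map_zero f) (map_one f)
  | mul x y _ _ hx hy =>
    rw [map_mul, map_mul, Units.val_mul, Units.val_mul, Matrix.map_mul, hx, hy]
  | inv x _ hx =>
    have h1 : (kr n t s x⁻¹).val.map f * (kr n t s x).val.map f = 1 := by
      rw [← Matrix.map_mul, ← Units.val_mul, ← map_mul, inv_mul_cancel, map_one, Units.val_one]
      exact Matrix.map_one f (map_zero f) (map_one f)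
    rw [hx] at h1
    have h2 : (kr n (Units.map (f : K →* L) t) (Units.map (f : K →* L) s) x⁻¹).val
        * (kr n (Units.map (f : K →* L) t) (Units.map (f : K →* L) s) x).val = 1 := by
      rw [← Units.val_mul, ← map_mul, inv_mul_cancel, map_one, Units.val_one]
    exact (kr n (Units.map (f : K →* L) t) (Units.map (f : K →* L) s) x).isUnit.mul_right_cancel
      (h1.trans h2.symm)

end

end Pool.Agent.H61.KR
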