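import Mathlib
import Pool.Agent.H61.KR.KHom
import Pool.Agent.H70.KR.Def

set_option autoImplicit false
set_option linter.unusedSimpArgs false

/-! # Krammer's matrices: the homomorphism has the matrices of `H70/KR/Def.lean` -/

namespace Pool.Agent.H61.KR

open Pool.Agent.H69.AMU Matrix

variable {K : Type*} [CommRing K] {n : ℕ}

lemma exd_single (q : Pr n) (a b : ℕ) :
    exd (Pi.single q (1 : K) : Pr n → K) a b = if a = q.1.1 ∧ b = q.1.2 then 1 else 0 := by
  obtain ⟨⟨⟨i, hi⟩, ⟨j, hj⟩⟩, h⟩ := q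
  have h' : i < j := h
  unfold exd
  by_cases hab : a = i ∧ b = j
  · obtain ⟨rfl, rfl⟩ := hab
    rw [dif_pos ⟨h', hj⟩, if_pos ⟨rfl, rfl⟩]
    exact Pi.single_eq_same _ _
  · rw [if_neg hab]
    split_ifs with h1
    · apply Pi.single_eq_of_ne
      intro h2
      apply hab
      have h3 := congrArg (fun x : Pr n => (x.1.1 : ℕ)) h2
      have h4 := congrArg (fun x : Pr n => (x.1.2 : ℕ)) h2
      exact ⟨h3, h4⟩
    · rfl

lemma sum_ind1 (S : Finset ℕ) (f : ℕ → K) (x y c : ℕ) :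
    ∑ a ∈ S, f a * (if a = x ∧ c = y then (1 : K) else 0) = if x ∈ S ∧ c = y then f x else 0 := by
  by_cases hc : c = y
  · simp only [hc, and_true, mul_ite, mul_one, mul_zero]
    rw [Finset.sum_ite_eq']
  · simp [hc]

/-- The generators are given by the explicit matrices. -/
theorem kr_gen_entries (t s : Kˣ) {k : ℕ} (hk : k < n - 1) :
    (kr n t s (gen n k)).val = Pool.Agent.H70.KR.kr (t : K) (s : K) n k := by
  ext p q
  have e := congrFun (kr_gen t s (by omega : k + 1 < n) (Pi.single q 1)) p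
  rw [Matrix.mulVec_single_one] at e
  have e' : (kr n t s (gen n k)).val p q
    = kdf n (t : K) s k (exd (Pi.single q 1)) p.1.1 p.1.2 := e
  rw [e']
  obtain ⟨⟨⟨i, hi⟩, ⟨j, hj⟩⟩, hij⟩ := p
  obtain ⟨⟨⟨a, ha⟩, ⟨b, hb⟩⟩, hab⟩ := q
  have hij' : i < j := hij
  have hab' : a < b := hab
  have hs1 : ∑ x ∈ Finset.range k, (s : K) ^ (k - 1 - x) * (s : K) ^ 2 *
      (if x = a ∧ k + 1 = b then (1 : K) else 0)
      = if a < k ∧ k + 1 = b then (s : K) ^ (k - 1 - a) * (s : K) ^ 2 else 0 := by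
    rw [sum_ind1]
    simp only [Finset.mem_range]
  have hs2 : ∑ y ∈ Finset.Ico (k + 2) n, (if k = a ∧ y = b then (1 : K) else 0)
      = if k = a ∧ k + 1 < b then 1 else 0 := by
    have h1 : ∀ y ∈ Finset.Ico (k + 2) n, (if k = a ∧ y = b then (1 : K) else 0)
        = 1 * (if y = b ∧ k = a then (1 : K) else 0) := by
      intro y _
      rw [one_mul]
      simp only [and_comm]
    rw [Finset.sum_congr rfl h1, sum_ind1 (Finset.Ico (k + 2) n) (fun _ => (1 : K))]
    have h2 : (b ∈ Finset.Ico (k + 2) n ∧ k = a) = (k = a ∧ k + 1 < b) := by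
      rw [Finset.mem_Ico]
      apply propext
      constructor
      · rintro ⟨h1, h2⟩; exact ⟨h2, by omega⟩
      · rintro ⟨h1, h2⟩; exact ⟨⟨by omega, hb⟩, h1⟩
    simp only [h2]
  have hs3 : ∑ x ∈ Finset.range k, ∑ y ∈ Finset.Ico (k + 2) n, (s : K) ^ (k - 1 - x) * (s : K) *
      (if x = a ∧ y = b then (1 : K) else 0)
      = if a < k ∧ k + 1 < b then (s : K) ^ (k - 1 - a) * (s : K) else 0 := by
    have h1 : ∀ x ∈ Finset.range k, ∑ y ∈ Finset.Ico (k + 2) n, (s : K) ^ (k - 1 - x) * (s : K) *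
        (if x = a ∧ y = b then (1 : K) else 0)
        = (if k + 1 < b then (s : K) ^ (k - 1 - x) * (s : K) else 0) *
          (if x = a ∧ (0 : ℕ) = 0 then 1 else 0) := by
      intro x _
      have h2 : ∀ y ∈ Finset.Ico (k + 2) n, (s : K) ^ (k - 1 - x) * (s : K) *
          (if x = a ∧ y = b then (1 : K) else 0)
          = (s : K) ^ (k - 1 - x) * (s : K) * (if y = b ∧ x = a then (1 : K) else 0) := by
        intro y _
        simp only [and_comm]
      rw [Finset.sum_congr rfl h2,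
        sum_ind1 (Finset.Ico (k + 2) n) (fun _ => (s : K) ^ (k - 1 - x) * (s : K))]
      have h3 : (b ∈ Finset.Ico (k + 2) n ∧ x = a) = (k + 1 < b ∧ x = a) := by
        rw [Finset.mem_Ico]
        apply propext
        constructor
        · rintro ⟨h1, h2⟩; exact ⟨by omega, h2⟩
        · rintro ⟨h1, h2⟩; exact ⟨⟨by omega, hb⟩, h2⟩
      simp only [h3]
      by_cases c1 : k + 1 < b <;> by_cases c2 : x = a <;> simp [c1, c2]
    rw [Finset.sum_congr rfl h1, sum_ind1]
    simp only [Finset.mem_range, and_true]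
    by_cases c1 : a < k <;> by_cases c2 : k + 1 < b <;> simp [c1, c2]
  show kdf n (t : K) s k (exd (Pi.single ⟨(⟨a, ha⟩, ⟨b, hb⟩), hab⟩ 1)) i j = _
  simp only [kdf, exd_single, hs1, hs2, hs3]
  have hpq : ((⟨(⟨i, hi⟩, ⟨j, hj⟩), hij⟩ : Pr n) = ⟨(⟨a, ha⟩, ⟨b, hb⟩), hab⟩)
      = (i = a ∧ j = b) := by
    simp [Subtype.ext_iff, Prod.ext_iff, Fin.ext_iff]
  unfold Pool.Agent.H70.KR.kr
  simp only [hpq]
  clear hs1 hs2 hs3 e e' hpq
  have hcq : (a = k ∧ b = k + 1) ∨ (a < k ∧ b = k) ∨ (a < k ∧ b = k + 1) ∨ (a = k ∧ k + 1 < b)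
      ∨ (a = k + 1 ∧ k + 1 < b) ∨ (a < k ∧ k + 1 < b) ∨ (b < k) ∨ (k + 1 < a) := by omega
  have hcp : (i = k ∧ j = k + 1) ∨ (i < k ∧ j = k) ∨ (i < k ∧ j = k + 1) ∨ (i = k ∧ k + 1 < j)
      ∨ (i = k + 1 ∧ k + 1 < j) ∨ (i < k ∧ k + 1 < j) ∨ (j < k) ∨ (k + 1 < i) := by omega
  have hpw : a < k → (s : K) ^ (k - a + 1) = (s : K) ^ (k - 1 - a) * (s : K) ^ 2 := by
    intro h
    rw [← pow_add]
    congr 1
    omega
  have hpw' : a < k → (s : K) ^ (k - a) = (s : K) ^ (k - 1 - a) * (s : K) := by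
    intro h
    rw [← pow_succ]
    congr 1
    omega
  rcases hcq with h | h | h | h | h | h | h | h <;>
    rcases hcp with h' | h' | h' | h' | h' | h' | h' | h' <;>
    by_cases hA : i = a <;> by_cases hB : j = b <;>
    first
    | (exfalso; omega)
    | ((repeat (first | rw [if_pos (by omega)] | rw [if_neg (by omega)])) <;>
        first
        | rfl
        | ring1
        | (rw [hpw (by omega)]; ring1)
        | (rw [hpw' (by omega)]; ring1))

end Pool.Agent.H61.KR
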