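import Mathlib

set_option autoImplicit false

/-! # Laurent polynomials in two variables from the values at `t = A ^ 4`, `s = A ^ (-4 k)`

Mathlib only.  `LP = ℤ[ℤ × ℤ]`, `mono p` = the monomial `t ^ p.1 * s ^ p.2`, `evk A hA k` = the
evaluation at `t = A ^ 4`, `s = A ^ (-4 k)`.

PROOF of `evk_apply`. `AddMonoidAlgebra.lift_apply`; `Finsupp.sum` over the support.
PROOF of `coeff_sum_eq`. The powers `A ^ j`, `j : ℤ`, are linearly independent over `ℤ` (multiply
a relation by a large power of `A` to get a polynomial with integer coefficients that vanishes at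
`A`; `A` is transcendental over `ℤ`). For `f : LP`, `J : Multiset ℤ`, if
`evk A hA k f = (J.map fun j => A ^ j).sum` then for all `j : ℤ`:
`∑ p ∈ f.support with 4 p.1 - 4 k p.2 = j, f p = (J.count j : ℤ)` (both sides are
coefficients of `A ^ j`).
PROOF of `laurent_family`. Let `f = T 1`, support `S`. For `k` larger than all `|p.1 - p'.1|`,
`p, p' ∈ S`, the map `π_k : p ↦ 4 p.1 - 4 k p.2` is injective on `S` (if `π_k p = π_k p'` then
`p.1 - p'.1 = k (p.2 - p'.2)`, so `p.2 = p'.2`, `p.1 = p'.1`). Take such a `k` in `U` and `J` from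
the hypothesis. `coeff_sum_eq` for `m = 1` gives `f p = J.count (π_k p) ≥ 0` for `p ∈ S` and
`J.count j = 0` if `j ∉ π_k S`. Put `E = ∑ p ∈ S, replicate (f p).toNat p` (does not depend on
`k`). Then `J = E.map π_k` (`Multiset.ext`, counts). This holds for all large `k ∈ U`. Now fix
`m` and put `h = T m - (E.map fun p => mono (m • p)).sum`; `evk A hA k h = 0` for all large
`k ∈ U`: `evk (T m) = ∑ j in J, A ^ (m j) = ∑ p in E, A ^ (m π_k p) = evk (the second sum)`
(`evk_mono`). Choose `k ∈ U` so large that `π_k` is also injective on the support of `h`;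
`coeff_sum_eq` with `J = 0` gives `h p = 0` for all `p` in the support, so `h = 0`. -/

namespace Pool.Agent.H61.KR

/-- Laurent polynomials in two variables with integer coefficients. -/
abbrev LP : Type := AddMonoidAlgebra ℤ (ℤ × ℤ)

/-- The monomial. -/
noncomputable def mono (p : ℤ × ℤ) : LP := AddMonoidAlgebra.single p 1

lemma mono_mul (p q : ℤ × ℤ) : mono p * mono q = mono (p + q) := by
  simp [mono, AddMonoidAlgebra.single_mul_single]

lemma mono_zero : mono 0 = 1 := rfl

/-- The monomial as a unit. -/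
noncomputable def monoU (p : ℤ × ℤ) : LPˣ := ⟨mono p, mono (-p),
  by rw [mono_mul, add_neg_cancel, mono_zero], by rw [mono_mul, neg_add_cancel, mono_zero]⟩

/-- The monoid homomorphism `(a, e) ↦ A ^ (4 a - 4 k e)`. -/
noncomputable def powHom (A : ℂ) (hA : A ≠ 0) (k : ℕ) : Multiplicative (ℤ × ℤ) →* ℂ where
  toFun p := A ^ (4 * p.toAdd.1 - 4 * (k : ℤ) * p.toAdd.2)
  map_one' := by simp
  map_mul' p q := by
    rw [← zpow_add₀ hA]
    congr 1
    simp only [toAdd_mul, Prod.fst_add, Prod.snd_add]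
    ring

/-- The evaluation at `t = A ^ 4`, `s = A ^ (-4 k)`. -/
noncomputable def evk (A : ℂ) (hA : A ≠ 0) (k : ℕ) : LP →+* ℂ :=
  (AddMonoidAlgebra.lift ℤ ℂ (ℤ × ℤ) (powHom A hA k)).toRingHom

lemma evk_mono (A : ℂ) (hA : A ≠ 0) (k : ℕ) (p : ℤ × ℤ) :
    evk A hA k (mono p) = A ^ (4 * p.1 - 4 * (k : ℤ) * p.2) := by
  show AddMonoidAlgebra.lift ℤ ℂ (ℤ × ℤ) (powHom A hA k) (AddMonoidAlgebra.single p 1) = _
  rw [AddMonoidAlgebra.lift_single]
  simp [powHom]

/-- The exponent of `A`. -/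
def piK (k : ℕ) : ℤ × ℤ →+ ℤ where
  toFun p := 4 * p.1 - 4 * (k : ℤ) * p.2
  map_zero' := by simp
  map_add' p q := by
    simp only [Prod.fst_add, Prod.snd_add]
    ring

/-- Substitution of powers of one variable. -/
noncomputable def psiK (k : ℕ) : LP →+* AddMonoidAlgebra ℤ ℤ :=
  AddMonoidAlgebra.mapDomainRingHom ℤ (piK k)

lemma psiK_single (k : ℕ) (e : ℤ × ℤ) (c : ℤ) :
    psiK k (AddMonoidAlgebra.single e c) = AddMonoidAlgebra.single (piK k e) c := by
  show AddMonoidAlgebra.mapDomain (piK k) (AddMonoidAlgebra.single e c) = _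
  rw [AddMonoidAlgebra.mapDomain_single]

/-- Evaluation of Laurent polynomials in one variable. -/
noncomputable def evOne (A : ℂ) (hA : A ≠ 0) : AddMonoidAlgebra ℤ ℤ →+* ℂ :=
  (AddMonoidAlgebra.lift ℤ ℂ ℤ
    { toFun := fun e => A ^ (Multiplicative.toAdd e)
      map_one' := by simp
      map_mul' := fun e e' => by rw [toAdd_mul, zpow_add₀ hA] }).toRingHom

lemma evOne_single (A : ℂ) (hA : A ≠ 0) (e c : ℤ) :
    evOne A hA (AddMonoidAlgebra.single e c) = c * A ^ e := by
  show AddMonoidAlgebra.lift ℤ ℂ ℤ _ (AddMonoidAlgebra.single e c) = _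
  rw [AddMonoidAlgebra.lift_single, zsmul_eq_mul]
  rfl

lemma evOne_psiK (A : ℂ) (hA : A ≠ 0) (k : ℕ) (f : LP) :
    evOne A hA (psiK k f) = evk A hA k f := by
  induction f using AddMonoidAlgebra.induction_linear with
  | zero => rw [map_zero, map_zero, map_zero]
  | add x y hx hy => rw [map_add, map_add, map_add, hx, hy]
  | single e c =>
    rw [psiK_single, evOne_single]
    show _ = AddMonoidAlgebra.lift ℤ ℂ (ℤ × ℤ) (powHom A hA k) (AddMonoidAlgebra.single e c)
    rw [AddMonoidAlgebra.lift_single, zsmul_eq_mul]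
    rfl

lemma evOne_injective (A : ℂ) (hA : A ≠ 0) (htr : Transcendental ℤ A)
    (p : AddMonoidAlgebra ℤ ℤ) (h : evOne A hA p = 0) : p = 0 := by
  obtain ⟨b, q, hq⟩ := LaurentPolynomial.exists_T_pow (R := ℤ) p
  have hev : ∀ f : Polynomial ℤ, evOne A hA (Polynomial.toLaurent f) = Polynomial.aeval A f := by
    intro f
    have e : (evOne A hA).comp (Polynomial.toLaurent : Polynomial ℤ →+* _)
        = (Polynomial.aeval A : Polynomial ℤ →ₐ[ℤ] ℂ).toRingHom := by
      apply Polynomial.ringHom_ext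
      · intro a
        simp
      · rw [RingHom.comp_apply, Polynomial.toLaurent_X]
        show evOne A hA (AddMonoidAlgebra.single 1 1) = Polynomial.aeval A Polynomial.X
        rw [evOne_single, Int.cast_one, one_mul, zpow_one, Polynomial.aeval_X]
    exact congrArg (fun g => g f) e
  have hq1 : q = 0 := by
    by_contra hne
    apply htr
    refine ⟨q, hne, ?_⟩
    rw [← hev, hq, map_mul, h, zero_mul]
  rw [hq1, map_zero] at hq
  have e2 : p = p * LaurentPolynomial.T (b : ℤ) * LaurentPolynomial.T (-(b : ℤ)) := by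
    rw [mul_assoc, ← LaurentPolynomial.T_add, add_neg_cancel, LaurentPolynomial.T_zero, mul_one]
  rw [e2, ← hq, zero_mul]

/-- Sums of monomials. -/
noncomputable def msumK {M : Type} [AddMonoid M] (E : Multiset M) : AddMonoidAlgebra ℤ M :=
  (E.map fun e => AddMonoidAlgebra.single e 1).sum

lemma coeff_msumK {M : Type} [AddMonoid M] [DecidableEq M] (E : Multiset M) (x : M) :
    (msumK E).coeff x = E.count x := by
  induction E using Multiset.induction_on with
  | empty => simp [msumK]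
  | cons a E ih =>
    have e1 : msumK (a ::ₘ E) = AddMonoidAlgebra.single a 1 + msumK E := by
      simp [msumK]
    rw [e1, AddMonoidAlgebra.coeff_add, Finsupp.add_apply, ih, AddMonoidAlgebra.coeff_single,
      Finsupp.single_apply, Multiset.count_cons]
    by_cases h : a = x
    · rw [if_pos h, if_pos h.symm]
      push_cast
      ring
    · rw [if_neg h, if_neg (fun h' => h h'.symm)]
      simp

lemma msumK_injective {M : Type} [AddMonoid M] (E E' : Multiset M) (h : msumK E = msumK E') :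
    E = E' := by
  classical
  ext x
  have h1 := coeff_msumK E x
  rw [h, coeff_msumK] at h1
  exact_mod_cast h1.symm

lemma psiK_msumK (k : ℕ) (E : Multiset (ℤ × ℤ)) :
    psiK k (msumK E) = msumK (E.map (piK k)) := by
  rw [msumK, map_multiset_sum, Multiset.map_map, msumK, Multiset.map_map]
  congr 1
  apply Multiset.map_congr rfl
  intro e _
  exact psiK_single k e 1

lemma exists_msumK (P : LP) (h : ∀ e, 0 ≤ P.coeff e) : ∃ E : Multiset (ℤ × ℤ), P = msumK E := by
  classical
  refine ⟨∑ e ∈ P.coeff.support, Multiset.replicate (P.coeff e).toNat e, ?_⟩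
  apply AddMonoidAlgebra.coeff_injective
  ext x
  rw [coeff_msumK]
  have h1 : Multiset.count x (∑ e ∈ P.coeff.support, Multiset.replicate (P.coeff e).toNat e)
      = ∑ e ∈ P.coeff.support, Multiset.count x (Multiset.replicate (P.coeff e).toNat e) :=
    map_sum (Multiset.countAddMonoidHom x) _ _
  rw [h1]
  simp only [Multiset.count_replicate]
  rw [Finset.sum_ite_eq']
  split_ifs with hx
  · rw [Int.toNat_of_nonneg (h x)]
  · rw [Finsupp.notMem_support_iff.1 hx]
    rfl

lemma psiK_coeff (k : ℕ) (F : Finset (ℤ × ℤ)) (hF : Set.InjOn (piK k) F) (p : LP)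
    (hp : p.coeff.support ⊆ F) {e : ℤ × ℤ} (he : e ∈ F) :
    (psiK k p).coeff (piK k e) = p.coeff e := by
  show (Finsupp.mapDomain (piK k) p.coeff) (piK k e) = _
  exact Finsupp.mapDomain_apply' (F : Set (ℤ × ℤ)) p.coeff (by exact_mod_cast hp) hF
    (by exact_mod_cast he)

/-- For large `k` the exponents of a finite set are separated. -/
lemma exists_sepK (F : Finset (ℤ × ℤ)) {U : Set ℕ} (hU : U.Infinite) :
    ∃ k ∈ U, Set.InjOn (piK k) F := by
  classical
  obtain ⟨B, hB⟩ : ∃ B : ℕ, ∀ p ∈ F, |p.1| ≤ B := by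
    refine ⟨∑ p ∈ F, |p.1|.toNat, ?_⟩
    intro p hp
    have h1 : |p.1|.toNat ≤ ∑ p ∈ F, |p.1|.toNat :=
      Finset.single_le_sum (f := fun p : ℤ × ℤ => |p.1|.toNat) (fun _ _ => Nat.zero_le _) hp
    have h2 : ((|p.1|.toNat : ℕ) : ℤ) = |p.1| := Int.toNat_of_nonneg (abs_nonneg _)
    rw [← h2]
    exact_mod_cast h1
  obtain ⟨k, hk, hkB⟩ := hU.exists_gt (2 * B)
  refine ⟨k, hk, ?_⟩
  intro p hp q hq hpq
  have h1 : p.1 - q.1 = (k : ℤ) * (p.2 - q.2) := by
    have h2 : 4 * p.1 - 4 * (k : ℤ) * p.2 = 4 * q.1 - 4 * (k : ℤ) * q.2 := hpq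
    linarith
  have h3 := hB p hp
  have h4 := hB q hq
  rw [abs_le] at h3 h4
  have h5 : p.2 = q.2 := by
    by_contra hne
    rcases lt_or_gt_of_ne hne with h | h
    · have h6 : p.2 - q.2 ≤ -1 := by omega
      have h7 : (k : ℤ) * (p.2 - q.2) ≤ -(k : ℤ) := by nlinarith [Int.natCast_nonneg k]
      have h8 : (2 * B : ℤ) < k := by exact_mod_cast hkB
      linarith
    · have h6 : 1 ≤ p.2 - q.2 := by omega
      have h7 : (k : ℤ) ≤ (k : ℤ) * (p.2 - q.2) := by nlinarith [Int.natCast_nonneg k]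
      have h8 : (2 * B : ℤ) < k := by exact_mod_cast hkB
      linarith
  have h6 : p.1 = q.1 := by
    rw [h5, sub_self, mul_zero] at h1
    linarith
  exact Prod.ext h6 h5

theorem laurent_family (A : ℂ) (hA : A ≠ 0) (htr : Transcendental ℤ A) (T : ℕ → LP)
    (U : Set ℕ) (hU : U.Infinite)
    (h : ∀ k ∈ U, ∃ J : Multiset ℤ, ∀ m : ℕ,
      evk A hA k (T m) = (J.map fun j => A ^ ((m : ℤ) * j)).sum) :
    ∃ E : Multiset (ℤ × ℤ), ∀ m : ℕ, T m = (E.map fun p => mono ((m : ℤ) • p)).sum := by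
  classical
  -- the statement for one `k`
  have hone : ∀ k ∈ U, ∃ μ : Multiset ℤ,
      ∀ m : ℕ, psiK k (T m) = msumK (μ.map fun h => (m : ℤ) * h) := by
    intro k hk
    obtain ⟨J, hJ⟩ := h k hk
    refine ⟨J, fun m => ?_⟩
    rw [← sub_eq_zero]
    apply evOne_injective A hA htr
    rw [map_sub, evOne_psiK, hJ m, msumK, map_multiset_sum, Multiset.map_map, Multiset.map_map,
      sub_eq_zero]
    congr 1
    apply Multiset.map_congr rfl
    intro j _
    show _ = evOne A hA (AddMonoidAlgebra.single ((m : ℤ) * j) 1)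
    rw [evOne_single, Int.cast_one, one_mul]
  -- the coefficients are nonnegative
  have hnn : ∀ e, 0 ≤ (T 1).coeff e := by
    intro e
    obtain ⟨k, hk, hinj⟩ := exists_sepK (insert e (T 1).coeff.support) hU
    obtain ⟨μ, hμ⟩ := hone k hk
    have h1 := psiK_coeff k _ hinj (T 1) (Finset.subset_insert _ _) (Finset.mem_insert_self e _)
    rw [← h1, hμ 1, coeff_msumK]
    positivity
  obtain ⟨E, hE⟩ := exists_msumK _ hnn
  have hμE : ∀ k ∈ U, ∀ m : ℕ, psiK k (T m) = msumK ((E.map (piK k)).map fun h => (m : ℤ) * h) := by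
    intro k hk
    obtain ⟨μ, hμ⟩ := hone k hk
    have h1 := hμ 1
    rw [hE, psiK_msumK] at h1
    have h2 := msumK_injective _ _ h1
    have h3 : μ.map (fun h => ((1 : ℕ) : ℤ) * h) = μ := by
      rw [show (fun h : ℤ => ((1 : ℕ) : ℤ) * h) = id by funext h; simp, Multiset.map_id]
    rw [h3] at h2
    rw [h2]
    exact hμ
  refine ⟨E, fun m => ?_⟩
  have hgoal : (E.map fun p => mono ((m : ℤ) • p)).sum = msumK (E.map fun p => (m : ℤ) • p) := by
    rw [msumK, Multiset.map_map]
    rfl
  rw [hgoal, ← sub_eq_zero]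
  obtain ⟨D, hD⟩ : ∃ D : LP, D = T m - msumK (E.map fun p => (m : ℤ) • p) := ⟨_, rfl⟩
  rw [← hD]
  obtain ⟨k, hk, hinj⟩ := exists_sepK D.coeff.support hU
  have hpsi : psiK k D = 0 := by
    rw [hD, map_sub, hμE k hk m, psiK_msumK, Multiset.map_map, Multiset.map_map, sub_eq_zero]
    congr 1
    apply Multiset.map_congr rfl
    intro e _
    show (m : ℤ) * piK k e = piK k ((m : ℤ) • e)
    rw [map_zsmul, smul_eq_mul]
  apply AddMonoidAlgebra.coeff_injective
  ext e
  by_cases he : e ∈ D.coeff.support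
  · rw [← psiK_coeff k _ hinj D (Finset.Subset.refl _) he, hpsi]
    rfl
  · rw [Finsupp.notMem_support_iff.1 he]
    rfl

end Pool.Agent.H61.KR
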