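import Mathlib
import Pool.Agent.H61.KR.FRho
import Pool.Agent.H69.AMM.Mixed

set_option autoImplicit false

/-! # The colour idempotents act trivially on functions killed by `cap` inside of the blocks -/

namespace Pool.Agent.H61.KR

open Pool.Agent.H69.AMU Pool.Agent.H69.AMU.FusionPath Matrix

variable {n N c L : ℕ} {A : ℂ}

lemma Phi_sub (w w' : FusionPath N c L → ℂ) : Phi A (w - w') = Phi A w - Phi A w' := by
  simp [Phi, sub_smul, Finset.sum_sub_distrib]

lemma cap_zero' (A : ℂ) (g : ℕ) : cap A g 0 = 0 := by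
  funext S
  simp [cap]

lemma Phi_jonesWenzl (hA : A ≠ 0) (hΔ : ∀ i ≤ N, unknot A i ≠ 0) (hL : N ≤ L) (m j : ℕ)
    (hj : m + j ≤ N) (w : FusionPath N c L → ℂ)
    (h : ∀ g, m ≤ g → g + 1 < m + j → cap A g (Phi A w) = 0) :
    Phi A (jonesWenzl (cupcap N c L A) A m j *ᵥ w) = Phi A w := by
  induction j using Nat.strong_induction_on generalizing w with
  | _ j ih =>
    rcases j with _ | _ | j
    · simp [jonesWenzl]
    · simp [jonesWenzl]
    · have e1 := ih (j + 1) (by omega) (by omega) w (fun g h1 h2 => h g h1 (by omega))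
      set J := jonesWenzl (cupcap N c L A) A m (j + 1) with hJ
      have e2 : Phi A (cupcap N c L A (m + j) *ᵥ (J *ᵥ w)) = 0 := by
        rw [Phi_cupcap hA hΔ hL (m + j) (by omega), e1, h (m + j) (by omega) (by omega)]
      have e3 := ih (j + 1) (by omega) (by omega) (cupcap N c L A (m + j) *ᵥ (J *ᵥ w))
        (fun g h1 h2 => by rw [e2, cap_zero'])
      rw [e2] at e3
      rw [jonesWenzl_succ, ← hJ, Matrix.sub_mulVec, Phi_sub, Matrix.smul_mulVec, Phi_smul,
        Matrix.mul_assoc, ← Matrix.mulVec_mulVec, ← Matrix.mulVec_mulVec, e1]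
      rw [← hJ] at e3
      rw [e3, smul_zero, sub_zero]

lemma Phi_mixProj (hA : A ≠ 0) (hΔ : ∀ i ≤ N, unknot A i ≠ 0) (hL : N ≤ L) (k : Fin n → ℕ)
    (hk : offset k n ≤ N) (w : FusionPath N c L → ℂ)
    (h : ∀ a : Fin n, ∀ g, offset k a ≤ g → g + 1 < offset k a + k a → cap A g (Phi A w) = 0)
    (i : ℕ) (hi : i ≤ n) :
    Phi A (mixProj (cupcap N c L A) A k i *ᵥ w) = Phi A w := by
  induction i generalizing w with
  | zero => simp [mixProj]
  | succ i ih =>
    have h0 := offset_succ k (by omega : i < n)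
    have h1 := offset_mono k (by omega : i + 1 ≤ n)
    have e1 := Phi_jonesWenzl (c := c) hA hΔ hL (offset k i) (k ⟨i, by omega⟩) (by omega) w
      (fun g h1 h2 => h ⟨i, by omega⟩ g h1 h2)
    rw [mixProj_succ k (by omega : i < n), ← Matrix.mulVec_mulVec, ih _ (by rwa [e1]) (by omega), e1]

lemma Phi_mixIdem (hA : A ≠ 0) (hΔ : ∀ i ≤ N, unknot A i ≠ 0) (hL : N ≤ L) (k : ColVec n N)
    (w : FusionPath N c L → ℂ)
    (h : ∀ a : Fin n, ∀ g, offset k.1 a ≤ g → g + 1 < offset k.1 a + k.1 a →
      cap A g (Phi A w) = 0) :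
    Phi A (mixIdem k c L A *ᵥ w) = Phi A w :=
  Phi_mixProj hA hΔ hL k.1 (by rw [k.offset_last]) w h n le_rfl

/-- The constant colour vector. -/
def constCol (n k : ℕ) : ColVec n (n * k) := ⟨fun _ => k, by simp⟩

lemma offset_const (n k : ℕ) {i : ℕ} (hi : i ≤ n) : offset (constCol n k).1 i = i * k := by
  induction i with
  | zero => rw [offset_zero, zero_mul]
  | succ i ih =>
    rw [offset_succ _ (by omega : i < n), ih (by omega)]
    show i * k + k = _
    ring

lemma constCol_perm (n k : ℕ) (π : Equiv.Perm (Fin n)) : (constCol n k).perm π = constCol n k := rfl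

/-- Cabling with constant colours. -/
lemma cabled_const (n k : ℕ) (hk : 0 < k) (b : BraidGroup n) :
    cabled (constCol n k) b = cable n k hk b := by
  have hmem : b ∈ Subgroup.closure (gen n '' Set.Iio (n - 1)) := by
    rw [closure_gen]; exact Subgroup.mem_top b
  induction hmem using Subgroup.closure_induction with
  | mem x hx =>
    obtain ⟨i, hi, rfl⟩ := hx
    have hi' : i < n - 1 := hi
    rw [cabled_gen hi', cable_gen hk hi', offset_const n k (by omega)]
    rfl
  | one => rw [cabled_one, map_one]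
  | mul x y _ _ hx hy => rw [cabled_mul, map_mul, constCol_perm, hx, hy]
  | inv x _ hx =>
    rw [map_inv, ← hx]
    have h2 := cabled_mul (constCol n k) x⁻¹ x
    rw [inv_mul_cancel, cabled_one, constCol_perm] at h2
    exact eq_inv_of_mul_eq_one_left h2.symm

end Pool.Agent.H61.KR
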