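import Mathlib
import Pool.Agent.H61.KR.Coc

set_option autoImplicit false

/-! # Offsets and exchange of colours -/

namespace Pool.Agent.H61.KR

open Pool.Agent.H69.AMU

/-- First position of the block `i`. -/
def off (κ : ℕ → ℕ) (i : ℕ) : ℕ := ∑ j ∈ Finset.range i, κ j

/-- Exchange of the colours `i`, `i+1`. -/
def swc (i : ℕ) : Equiv.Perm (ℕ → ℕ) where
  toFun κ := κ ∘ Equiv.swap i (i + 1)
  invFun κ := κ ∘ Equiv.swap i (i + 1)
  left_inv κ := by ext x; simp
  right_inv κ := by ext x; simp

lemma swc_left (i : ℕ) (κ : ℕ → ℕ) : swc i κ i = κ (i + 1) := by simp [swc]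
lemma swc_right (i : ℕ) (κ : ℕ → ℕ) : swc i κ (i + 1) = κ i := by simp [swc]
lemma swc_of_ne {i j : ℕ} (κ : ℕ → ℕ) (h1 : j ≠ i) (h2 : j ≠ i + 1) : swc i κ j = κ j := by
  simp [swc, Equiv.swap_apply_of_ne_of_ne h1 h2]

/-- Proof: induction on `j` (`Finset.sum_range_succ`), or `Finset.sum_equiv`. For `j ≤ i` all terms
agree (`swc_of_ne`); for `j = i + 2` the sum is symmetric; beyond, add equal terms. -/
lemma off_swc_of_ne (i : ℕ) (κ : ℕ → ℕ) {j : ℕ} (hj : j ≠ i + 1) : off (swc i κ) j = off κ j := by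
  rcases Nat.lt_or_ge i j with h | h
  · unfold off
    refine Finset.sum_equiv (Equiv.swap i (i + 1)) ?_ ?_
    · intro x
      rw [Finset.mem_range, Finset.mem_range, Equiv.swap_apply_def]
      split_ifs <;> omega
    · intro x _
      rfl
  · unfold off
    refine Finset.sum_congr rfl fun x hx => ?_
    rw [Finset.mem_range] at hx
    exact swc_of_ne κ (by omega) (by omega)

/-- Proof: `off κ (i+1) = off κ i + κ i`, the previous lemma for `j = i` and `swc_left`. -/
lemma off_swc_succ (i : ℕ) (κ : ℕ → ℕ) : off (swc i κ) (i + 1) = off κ i + κ (i + 1) := by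
  have h1 : off (swc i κ) (i + 1) = off (swc i κ) i + swc i κ i := Finset.sum_range_succ _ _
  rw [h1, off_swc_of_ne i κ (by omega), swc_left]

lemma off_succ (κ : ℕ → ℕ) (i : ℕ) : off κ (i + 1) = off κ i + κ i := Finset.sum_range_succ _ _

lemma off_mono (κ : ℕ → ℕ) {i j : ℕ} (h : i ≤ j) : off κ i ≤ off κ j :=
  Finset.sum_le_sum_of_subset (Finset.range_mono h)

/-- The colours satisfy the Artin relations. Proof: `Equiv.ext`, `funext`, and the relations of the
transpositions `Equiv.swap` on `ℕ` (case analysis on the argument, `simp [swc, Equiv.swap_apply_def]`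
and `split_ifs <;> omega`, or `Equiv.swap_mul_swap_mul_swap`). -/
lemma artinSeq_swc (M : ℕ) : ArtinSeq swc M := by
  constructor
  · intro i j hij _
    refine Equiv.ext fun κ => funext fun x => ?_
    show κ (Equiv.swap j (j + 1) (Equiv.swap i (i + 1) x)) = κ (Equiv.swap i (i + 1) (Equiv.swap j (j + 1) x))
    congr 1
    simp only [Equiv.swap_apply_def]
    split_ifs <;> omega
  · intro i _
    refine Equiv.ext fun κ => funext fun x => ?_
    show κ (Equiv.swap i (i + 1) (Equiv.swap (i + 1) (i + 1 + 1) (Equiv.swap i (i + 1) x))) =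
      κ (Equiv.swap (i + 1) (i + 1 + 1) (Equiv.swap i (i + 1) (Equiv.swap (i + 1) (i + 1 + 1) x)))
    congr 1
    simp only [Equiv.swap_apply_def]
    split_ifs <;> omega

end Pool.Agent.H61.KR
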