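import Mathlib
import Pool.Agent.H61.KR.Off

set_option autoImplicit false

/-! # Mixed cabling

For a colouring `κ : ℕ → ℕ` (only `κ 0, ..., κ (n-1)` matter) with `off κ n = N` the strand `i` of a
braid on `n` strands is replaced by `κ i` parallel strands.  The generator `i` becomes
`blk (gen N) (off κ i) (κ (i+1)) (κ i)`. -/

namespace Pool.Agent.H61.KR

open Pool.Agent.H69.AMU

/-- The coloured generator. -/
def mf (n N : ℕ) (i : ℕ) (κ : ℕ → ℕ) : BraidGroup N :=
  if off κ n = N then blk (gen N) (off κ i) (κ (i + 1)) (κ i) else 1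

/-- The braid relation for three blocks of sizes `a, b, c` (source order).
Proof: `blk_add` gives `blk s m c b * blk s (m+b) c a = blk s m c (b + a)` and
`blk s m c a * blk s (m+a) c b = blk s m c (a + b)`; then `blk s m c (a+b) * blk s m b a
= blk s (m+c) b a * blk s m c (a+b)` by `conj_blk` (with `x := blk s m c (a+b)`, `t := c`,
hypothesis from `blk_slide`).  See `blk_braid` for the case of equal sizes. -/
lemma blk_braid_mixed {G : Type*} [Group G] {s : ℕ → G} {M : ℕ} (hs : ArtinSeq s M)
    (m a b c : ℕ) (hM : m + a + b + c ≤ M + 1) :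
    blk s m c b * blk s (m + b) c a * blk s m b a
      = blk s (m + c) b a * blk s m c a * blk s (m + a) c b := by
  have h1 : blk s m c (b + a) = blk s m c b * blk s (m + b) c a :=
    blk_add hs m c b a (by omega)
  have h2 : blk s m c (a + b) = blk s m c a * blk s (m + a) c b :=
    blk_add hs m c a b (by omega)
  have h3 : blk s m c (b + a) * blk s m b a = blk s (m + c) b a * blk s m c (b + a) :=
    conj_blk m b a c (fun j hj hj' => blk_slide hs m c (b + a) (by omega) j hj (by omega))
  rw [← h1, h3, Nat.add_comm b a, h2, mul_assoc]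

/-- Proof: `base := artinSeq_swc`. If `off κ n ≠ N` all factors are `1` (by `off_swc_of_ne`, the
sum over `n` does not change: `n ≠ i + 1` as `i + 1 < n`). If `off κ n = N`:
`comm`: for `i + 2 ≤ j` the two block crossings are `blk (gen N) (off κ i) (κ (i+1)) (κ i)` and
`blk (gen N) (off κ j) (κ (j+1)) (κ j)` before and after the other exchange (`off_swc_of_ne`,
`swc_of_ne`; for the crossing `j` after the exchange `i`: `off (swc i κ) j = off κ j` as
`j ≠ i + 1`), and they commute by `blk_comm_blk` (`off κ i + κ i + κ (i+1) = off κ (i+2) ≤ off κ j`,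
`off κ j + κ j + κ (j+1) = off κ (j+2) ≤ off κ n = N`).
`braid`: `blk_braid_mixed` with `m = off κ i`, `a = κ i`, `b = κ (i+1)`, `c = κ (i+2)`; the colours
after `i` are `(b, a, c)`, after `i, i+1` they are `(b, c, a)`, after `i+1` they are `(a, c, b)`,
after `i+1, i` they are `(c, a, b)`; offsets by `off_swc_of_ne`, `off_swc_succ`. -/
lemma colArtin_mf (n N : ℕ) : ColArtin swc (mf n N) (n - 1) := by
  have hoff : ∀ (κ : ℕ → ℕ) (i : ℕ), i < n - 1 → off (swc i κ) n = off κ n := by
    intro κ i hi
    exact off_swc_of_ne i κ (by omega)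
  refine ⟨artinSeq_swc _, ?_, ?_⟩
  · intro i j hij hj κ
    by_cases hκ : off κ n = N
    · have e1 : off (swc j κ) n = N := by rw [hoff κ j hj, hκ]
      have e2 : off (swc i κ) n = N := by rw [hoff κ i (by omega), hκ]
      rw [mf, mf, mf, mf, if_pos e1, if_pos hκ, if_pos e2, if_pos hκ,
        off_swc_of_ne j κ (show i ≠ j + 1 by omega), off_swc_of_ne i κ (show j ≠ i + 1 by omega),
        swc_of_ne κ (show i + 1 ≠ j by omega) (show i + 1 ≠ j + 1 by omega),
        swc_of_ne κ (show i ≠ j by omega) (show i ≠ j + 1 by omega),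
        swc_of_ne κ (show j + 1 ≠ i by omega) (show j + 1 ≠ i + 1 by omega),
        swc_of_ne κ (show j ≠ i by omega) (show j ≠ i + 1 by omega)]
      have h1 : off κ (i + 2) ≤ off κ j := off_mono κ hij
      have h2 : off κ (j + 2) ≤ off κ n := off_mono κ (by omega)
      have h3 : off κ (i + 2) = off κ i + κ i + κ (i + 1) := by
        rw [off_succ, off_succ]
      have h4 : off κ (j + 2) = off κ j + κ j + κ (j + 1) := by
        rw [off_succ, off_succ]
      exact blk_comm_blk (artinSeq_gen N) _ _ _ _ _ _ (by omega) (by omega)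
    · have e1 : off (swc j κ) n ≠ N := by rw [hoff κ j hj]; exact hκ
      have e2 : off (swc i κ) n ≠ N := by rw [hoff κ i (by omega)]; exact hκ
      rw [mf, mf, mf, mf, if_neg e1, if_neg hκ, if_neg e2, if_neg hκ]
  · intro i hi κ
    by_cases hκ : off κ n = N
    · have e1 : off (swc i κ) n = N := by rw [hoff κ i (by omega), hκ]
      have e2 : off (swc (i + 1) κ) n = N := by rw [hoff κ (i + 1) hi, hκ]
      have e3 : off (swc (i + 1) (swc i κ)) n = N := by rw [hoff _ (i + 1) hi, e1]
      have e4 : off (swc i (swc (i + 1) κ)) n = N := by rw [hoff _ i (by omega), e2]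
      rw [mf, mf, mf, mf, mf, mf, if_pos e1, if_pos e2, if_pos e3, if_pos e4, if_pos hκ, if_pos hκ]
      have a1 : off (swc (i + 1) (swc i κ)) i = off κ i := by
        rw [off_swc_of_ne _ _ (by omega), off_swc_of_ne _ _ (by omega)]
      have a2 : swc (i + 1) (swc i κ) (i + 1) = κ (i + 2) := by
        rw [swc_left, swc_of_ne κ (by omega) (by omega)]
      have a3 : swc (i + 1) (swc i κ) i = κ (i + 1) := by
        rw [swc_of_ne _ (by omega) (by omega), swc_left]
      have b1 : off (swc i κ) (i + 1) = off κ i + κ (i + 1) := off_swc_succ i κ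
      have b2 : swc i κ (i + 1 + 1) = κ (i + 2) := by
        rw [swc_of_ne κ (by omega) (by omega)]
      have b3 : swc i κ (i + 1) = κ i := swc_right i κ
      have c1 : off (swc i (swc (i + 1) κ)) (i + 1) = off κ i + κ (i + 2) := by
        rw [off_swc_succ, off_swc_of_ne _ _ (by omega), swc_left]
      have c2 : swc i (swc (i + 1) κ) (i + 1 + 1) = κ (i + 1) := by
        rw [swc_of_ne _ (by omega) (by omega), swc_right]
      have c3 : swc i (swc (i + 1) κ) (i + 1) = κ i := by
        rw [swc_right, swc_of_ne _ (by omega) (by omega)]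
      have d1 : off (swc (i + 1) κ) i = off κ i := off_swc_of_ne _ _ (by omega)
      have d2 : swc (i + 1) κ (i + 1) = κ (i + 2) := swc_left _ _
      have d3 : swc (i + 1) κ i = κ i := swc_of_ne _ (by omega) (by omega)
      have f1 : off κ (i + 1) = off κ i + κ i := off_succ κ i
      rw [a1, a2, a3, b1, b2, b3, c1, c2, c3, d1, d2, d3, f1]
      have h2 : off κ (i + 3) ≤ off κ n := off_mono κ (by omega)
      have h4 : off κ (i + 3) = off κ i + κ i + κ (i + 1) + κ (i + 2) := by
        rw [off_succ, off_succ, off_succ]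
      exact blk_braid_mixed (artinSeq_gen N) (off κ i) (κ i) (κ (i + 1)) (κ (i + 2)) (by omega)
    · have e1 : off (swc i κ) n ≠ N := by rw [hoff κ i (by omega)]; exact hκ
      have e2 : off (swc (i + 1) κ) n ≠ N := by rw [hoff κ (i + 1) hi]; exact hκ
      have e3 : off (swc (i + 1) (swc i κ)) n ≠ N := by rw [hoff _ (i + 1) hi]; exact e1
      have e4 : off (swc i (swc (i + 1) κ)) n ≠ N := by rw [hoff _ i (by omega)]; exact e2
      rw [mf, mf, mf, mf, mf, mf, if_neg e1, if_neg e2, if_neg e3, if_neg e4, if_neg hκ, if_neg hκ]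

/-- The mixed cabling of a braid at the (source) colours `κ`. -/
def mcab (n N : ℕ) (b : BraidGroup n) (κ : ℕ → ℕ) : BraidGroup N := coc (colArtin_mf n N) b κ

/-- The action of the braid group on the colours. -/
def actc (n : ℕ) : BraidGroup n →* Equiv.Perm (ℕ → ℕ) := braidLift (artinSeq_swc (n - 1))

lemma act_mf (n N : ℕ) : act (colArtin_mf n N) = actc n := rfl

/-- Proof: `braid_induction`; for generators `off_swc_of_ne`. -/
lemma off_actc (n : ℕ) (b : BraidGroup n) (κ : ℕ → ℕ) : off (actc n b κ) n = off κ n := by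
  refine braid_induction (P := fun b => ∀ κ : ℕ → ℕ, off (actc n b κ) n = off κ n)
    ?_ ?_ ?_ ?_ b κ
  · intro κ
    rw [map_one]
    rfl
  · intro i hi κ
    rw [actc, braidLift_gen _ hi]
    exact off_swc_of_ne i κ (by omega)
  · intro a b ha hb κ
    rw [map_mul, Equiv.Perm.mul_apply, ha, hb]
  · intro a ha κ
    rw [← ha (actc n a⁻¹ κ), ← Equiv.Perm.mul_apply, ← map_mul, mul_inv_cancel, map_one]
    rfl

lemma mcab_gen {n N : ℕ} {κ : ℕ → ℕ} (hκ : off κ n = N) {i : ℕ} (hi : i < n - 1) :
    mcab n N (gen n i) κ = blk (gen N) (off κ i) (κ (i + 1)) (κ i) := by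
  rw [mcab, coc_gen _ hi, mf, if_pos hκ]

end Pool.Agent.H61.KR
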