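import Mathlib
import Pool.Agent.H61.KR.BOne
import Pool.Agent.H61.KR.FRai
import Pool.Agent.H61.KR.MCab

set_option autoImplicit false

/-! # Block functions of one site (mixed colours) -/

namespace Pool.Agent.H61.KR

open Pool.Agent.H69.AMU

/-- The function of one site which is `G j` on the block `[off κ j, off κ (j+1))`, `j < n`. -/
noncomputable def psi1 (n : ℕ) (κ : ℕ → ℕ) (G : ℕ → ℂ) : Fn := fun S =>
  ∑ j ∈ Finset.range n, ∑ p ∈ Finset.Ico (off κ j) (off κ (j + 1)), if S = {p} then G j else 0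

/-- Proof: the blocks are disjoint (`off_mono`), so exactly one term survives. -/
lemma psi1_apply {n : ℕ} {κ : ℕ → ℕ} (G : ℕ → ℂ) {j p : ℕ} (hj : j < n) (h1 : off κ j ≤ p)
    (h2 : p < off κ (j + 1)) : psi1 n κ G {p} = G j := by
  unfold psi1
  simp only [Finset.singleton_inj, Finset.sum_ite_eq, Finset.mem_Ico]
  rw [Finset.sum_eq_single j]
  · rw [if_pos ⟨h1, h2⟩]
  · intro j' _ hne
    rw [if_neg]
    rintro ⟨h3, h4⟩
    rcases lt_or_gt_of_ne hne with h | h
    · have := off_mono κ (show j' + 1 ≤ j by omega)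
      omega
    · have := off_mono κ (show j + 1 ≤ j' by omega)
      omega
  · intro h
    exact absurd (Finset.mem_range.2 hj) h

/-- Every site below `off κ n` lies in a block. Proof: induction on `n` or `Nat.find`. -/
lemma exists_block {n : ℕ} {κ : ℕ → ℕ} {p : ℕ} (hp : p < off κ n) :
    ∃ j, j < n ∧ off κ j ≤ p ∧ p < off κ (j + 1) := by
  induction n with
  | zero => simp [off] at hp
  | succ n ih =>
    by_cases h : p < off κ n
    · obtain ⟨j, h1, h2⟩ := ih h
      exact ⟨j, by omega, h2⟩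
    · exact ⟨n, by omega, by omega, hp⟩

lemma homog_psi1 (n : ℕ) (κ : ℕ → ℕ) (G : ℕ → ℂ) : Homog (off κ n) 1 (psi1 n κ G) := by
  intro S hS
  unfold psi1 at hS
  obtain ⟨j, hj, hj'⟩ := Finset.exists_ne_zero_of_sum_ne_zero hS
  obtain ⟨p, hp, hp'⟩ := Finset.exists_ne_zero_of_sum_ne_zero hj'
  have hSp : S = {p} := by
    by_contra h
    exact hp' (if_neg h)
  rw [Finset.mem_Ico] at hp
  rw [Finset.mem_range] at hj
  have h1 := off_mono κ (show j + 1 ≤ n by omega)
  subst hSp
  refine ⟨?_, Finset.card_singleton p⟩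
  rw [Finset.singleton_subset_iff, Finset.mem_range]
  omega

/-- Functions of one site are determined by the values at singletons. Proof: `Finset.card_eq_one`. -/
lemma homog_one_ext {N : ℕ} {F F' : Fn} (hF : Homog N 1 F) (hF' : Homog N 1 F')
    (h : ∀ p < N, F {p} = F' {p}) : F = F' := by
  funext S
  by_cases hS : S ⊆ Finset.range N ∧ S.card = 1
  · obtain ⟨p, hp⟩ := Finset.card_eq_one.1 hS.2
    subst hp
    exact h p (Finset.mem_range.1 (Finset.singleton_subset_iff.1 hS.1))
  · rw [hF.eq_zero hS, hF'.eq_zero hS]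

private lemma sw_subset_range {N g : ℕ} (hg : g + 1 < N) {S : Finset ℕ}
    (h : sw g S ⊆ Finset.range N) : S ⊆ Finset.range N := by
  intro x hx
  have hx' : Equiv.swap g (g + 1) x ∈ sw g S := by
    rw [mem_sw, Equiv.swap_apply_self]
    exact hx
  have h1 := Finset.mem_range.1 (h hx')
  rw [Finset.mem_range]
  by_cases h2 : x = g
  · omega
  by_cases h3 : x = g + 1
  · omega
  rwa [Equiv.swap_apply_of_ne_of_ne h2 h3] at h1

private lemma homog_tr {N l' g : ℕ} {F : Fn} (v : ℂ) (hg : g + 1 < N) (hF : Homog N l' F) :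
    Homog N l' (tr v g F) := by
  intro S hS
  have h1 : F (sw g S) ≠ 0 → S ⊆ Finset.range N ∧ S.card = l' := by
    intro h
    have h2 := hF _ h
    exact ⟨sw_subset_range hg h2.1, by rw [← card_sw g S]; exact h2.2⟩
  by_cases h0 : F (sw g S) = 0
  · by_cases h3 : F S = 0
    · exfalso
      apply hS
      unfold tr
      rw [h0, h3]
      split_ifs <;> ring
    · exact hF _ h3
  · exact h1 h0

private lemma homog_trun {N l' m : ℕ} (v : ℂ) (l : ℕ) : ∀ {F : Fn}, m + l < N → Homog N l' F →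
    Homog N l' (trun v m l F) := by
  induction l with
  | zero => intro F _ hF; exact hF
  | succ l ih =>
    intro F h hF
    exact ih (by omega) (homog_tr v (by omega) hF)

/-- `tr`, `tblk` preserve the support. Proof: `sw g S ⊆ range N ↔ S ⊆ range N` for `g + 1 < N`,
`card_sw`; two inductions. -/
lemma Homog.tblk {N l' : ℕ} {F : Fn} (v : ℂ) (m k l : ℕ) (h : m + k + l ≤ N) (hF : Homog N l' F) :
    Homog N l' (tblk v m k l F) := by
  induction k with
  | zero => exact hF
  | succ k ih =>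
    have h1 := ih (by omega)
    exact homog_trun v l (by omega) h1

/-- The Burau crossing in the colours: `a` is the variable of the left strand. -/
def bG (i : ℕ) (a : ℂ) (G : ℕ → ℂ) : ℕ → ℂ := fun j =>
  if j = i then (1 - a) * G i + a * G (i + 1) else if j = i + 1 then G i else G j

/-- The crossing of the blocks `i`, `i+1`.
Proof: `rho_blk` (as `off κ i + κ (i+1) + κ i = off κ (i+2) ≤ off κ n = N`), `blk_sgu_apply`, and
`homog_one_ext`: at `{p}`, `p` in the block `j` of `swc i κ` (`exists_block`): `tblk_one`,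
`t1blk_apply` with `m = off κ i`, `k = κ (i+1)`, `l = κ i`, `x = G i`, `y = G (i+1)` (`psi1_apply`).
The block `i` of `swc i κ` is `[m, m+k)`, the block `i + 1` is `[m+k, m+k+l)` (`off_swc_succ`,
`off_swc_of_ne`), the other blocks are those of `κ`. `v^l = ((A^4)⁻¹)^(κ i)`. -/
lemma rho_psi1 (A : ℂ) (hA : A ≠ 0) {n N : ℕ} {κ : ℕ → ℕ} (hκ : off κ n = N) {i : ℕ}
    (hi : i + 1 < n) (G : ℕ → ℂ) :
    (rho A hA N (blk (gen N) (off κ i) (κ (i + 1)) (κ i))).val (psi1 n κ G)
      = A ^ (κ (i + 1) * κ i) • psi1 n (swc i κ) (bG i (((A ^ 4)⁻¹) ^ κ i) G) := by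
  have hs1 := off_succ κ i
  have hs2 := off_succ κ (i + 1)
  have hs3 := off_mono κ (show i + 1 + 1 ≤ n by omega)
  have hle : off κ i + κ (i + 1) + κ i ≤ N := by omega
  have hsn : off (swc i κ) n = N := by rw [off_swc_of_ne i κ (by omega), hκ]
  rw [rho_blk A hA hle, blk_sgu_apply]
  congr 1
  have hH : Homog N 1 (psi1 n κ G) := by
    have := homog_psi1 n κ G
    rwa [hκ] at this
  have hH' : Homog N 1 (psi1 n (swc i κ) (bG i (((A ^ 4)⁻¹) ^ κ i) G)) := by
    have := homog_psi1 n (swc i κ) (bG i (((A ^ 4)⁻¹) ^ κ i) G)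
    rwa [hsn] at this
  apply homog_one_ext (Homog.tblk _ _ _ _ hle hH) hH'
  intro p hp
  have h1 := congrFun (tblk_one ((A ^ 4)⁻¹) (off κ i) (κ (i + 1)) (κ i) (psi1 n κ G)) p
  rw [h1, t1blk_apply ((A ^ 4)⁻¹) (off κ i) (κ (i + 1)) (κ i) (fun p => psi1 n κ G {p}) (G i)
    (G (i + 1)) (fun p hp1 hp2 => psi1_apply G (by omega) hp1 (by omega))
    (fun p hp1 hp2 => psi1_apply G hi (by omega) (by omega))]
  have ho1 : off (swc i κ) (i + 1) = off κ i + κ (i + 1) := off_swc_succ i κ
  have ho0 : off (swc i κ) i = off κ i := off_swc_of_ne i κ (by omega)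
  have ho2 : off (swc i κ) (i + 1 + 1) = off κ (i + 1 + 1) := off_swc_of_ne i κ (by omega)
  split_ifs with h2 h3
  · rw [psi1_apply (κ := swc i κ) _ (show i < n by omega) (by omega) (by omega)]
    simp [bG]
  · rw [psi1_apply (κ := swc i κ) _ (show i + 1 < n by omega) (by omega) (by omega)]
    simp [bG]
  · obtain ⟨j, hj, hj1, hj2⟩ := exists_block (n := n) (κ := κ) (p := p) (by omega)
    have hji : j ≠ i := by
      rintro rfl
      omega
    have hji' : j ≠ i + 1 := by
      rintro rfl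
      omega
    have e1 : off (swc i κ) j = off κ j := off_swc_of_ne i κ hji'
    have e2 : off (swc i κ) (j + 1) = off κ (j + 1) := off_swc_of_ne i κ (by omega)
    rw [psi1_apply G hj hj1 hj2, psi1_apply (κ := swc i κ) _ hj (by omega) (by omega)]
    simp [bG, hji, hji']

/-- The raising operator. Proof: `rai A N F ∅ = ∑ p ∈ range N, v^p * F {p}` (no element of `∅`),
split `range N` into the blocks (`Finset.sum_Ico_consecutive` or induction on `n`), geometric sum:
`(1 - v) ∑ p ∈ Ico a b, v^p = v^a - v^b`; at `S ≠ ∅` the value is `0` by `homog_rai`. -/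
lemma rai_psi1 (A : ℂ) {n N : ℕ} {κ : ℕ → ℕ} (hκ : off κ n = N) (G : ℕ → ℂ)
    (hG : ∑ j ∈ Finset.range n, (((A ^ 4)⁻¹) ^ off κ j - ((A ^ 4)⁻¹) ^ off κ (j + 1)) * G j = 0)
    (hv : A ^ 4 ≠ 1) : rai A N (psi1 n κ G) = 0 := by
  set v : ℂ := (A ^ 4)⁻¹ with hvdef
  have hv1 : (1 : ℂ) - v ≠ 0 := by
    intro h
    have h1 : v = 1 := by linear_combination -h
    rw [hvdef] at h1
    exact hv (inv_eq_one.1 h1)
  have hkey : ∀ n' ≤ n, (1 - v) * ∑ p ∈ Finset.range (off κ n'), v ^ p * psi1 n κ G {p}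
      = ∑ j ∈ Finset.range n', (v ^ off κ j - v ^ off κ (j + 1)) * G j := by
    intro n'
    induction n' with
    | zero => intro _; simp [off]
    | succ n' ih =>
      intro hn'
      rw [Finset.sum_range_succ _ n', ← ih (by omega)]
      have hmono := off_mono κ (Nat.le_succ n')
      rw [← Finset.sum_range_add_sum_Ico _ hmono, mul_add]
      congr 1
      have h2 : ∑ p ∈ Finset.Ico (off κ n') (off κ (n' + 1)), v ^ p * psi1 n κ G {p}
          = (∑ p ∈ Finset.Ico (off κ n') (off κ (n' + 1)), v ^ p) * G n' := by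
        rw [Finset.sum_mul]
        refine Finset.sum_congr rfl fun p hp => ?_
        rw [Finset.mem_Ico] at hp
        rw [psi1_apply G (by omega) hp.1 hp.2]
      rw [show n'.succ = n' + 1 from rfl, h2, ← mul_assoc]
      congr 1
      have h3 := geom_sum_Ico_mul v hmono
      rw [show n'.succ = n' + 1 from rfl] at h3
      linear_combination -h3
  funext S
  by_cases hS : S = ∅
  · subst hS
    have h1 : rai A N (psi1 n κ G) ∅ = ∑ p ∈ Finset.range N, v ^ p * psi1 n κ G {p} := by
      unfold rai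
      simp [hvdef]
    rw [h1]
    have h2 := hkey n le_rfl
    rw [hG, hκ] at h2
    rcases mul_eq_zero.1 h2 with h3 | h3
    · exact absurd h3 hv1
    · rw [h3]; rfl
  · have hH : Homog N 1 (psi1 n κ G) := by
      have := homog_psi1 n κ G
      rwa [hκ] at this
    have h1 : Homog N 0 (rai A N (psi1 n κ G)) := homog_rai hH
    rw [h1.eq_zero (fun h => hS (Finset.card_eq_zero.1 h.2))]
    rfl

/-- Block functions are killed by `cap` inside of the blocks. Proof: at `S = {p}` with
`p ∈ {g, g+1}`: both in the same block, so the values agree (`psi1_apply`, `sw g {g} = {g+1}`);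
at other `S` with exactly one of `g, g+1` in `S` the values at `S` and `sw g S` vanish
(cardinality). -/
lemma cap_psi1 (A : ℂ) {n : ℕ} {κ : ℕ → ℕ} (G : ℕ → ℂ) {j g : ℕ} (hj : j < n)
    (h1 : off κ j ≤ g) (h2 : g + 1 < off κ (j + 1)) : cap A g (psi1 n κ G) = 0 := by
  have hsw1 : sw g {g} = {g + 1} := by simp [sw]
  have hsw2 : sw g {g + 1} = {g} := by simp [sw]
  have e1 : psi1 n κ G {g} = G j := psi1_apply G hj h1 (by omega)
  have e2 : psi1 n κ G {g + 1} = G j := psi1_apply G hj (by omega) h2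
  have key : ∀ S : Finset ℕ, (g ∈ S ∧ g + 1 ∉ S ∨ g ∉ S ∧ g + 1 ∈ S) →
      psi1 n κ G (sw g S) = psi1 n κ G S := by
    intro S hS
    by_cases hc : S.card = 1
    · obtain ⟨p, hp⟩ := Finset.card_eq_one.1 hc
      subst hp
      simp only [Finset.mem_singleton] at hS
      rcases hS with hS | hS
      · rw [← hS.1, hsw1, e1, e2]
      · rw [← hS.2, hsw2, e1, e2]
    · have hH := homog_psi1 n κ G
      rw [hH.eq_zero (fun h => hc h.2), hH.eq_zero (fun h => hc (by rw [← card_sw g S]; exact h.2))]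
  funext S
  unfold cap
  split_ifs with h3 h4
  · rw [key S (Or.inl h3)]; simp
  · rw [key S (Or.inr h4)]; simp
  · rfl

/-- Injectivity. Proof: `psi1_apply` at `p = off κ j`. -/
lemma psi1_inj {n : ℕ} {κ : ℕ → ℕ} (hκ : ∀ j < n, 0 < κ j) {G G' : ℕ → ℂ}
    (h : psi1 n κ G = psi1 n κ G') {j : ℕ} (hj : j < n) : G j = G' j := by
  have h1 := congrFun h {off κ j}
  have h2 := off_succ κ j
  have h3 := hκ j hj
  rwa [psi1_apply G hj le_rfl (by omega), psi1_apply G' hj le_rfl (by omega)] at h1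

lemma psi1_smul (n : ℕ) (κ : ℕ → ℕ) (c : ℂ) (G : ℕ → ℂ) :
    psi1 n κ (c • G) = c • psi1 n κ G := by
  funext S
  simp only [psi1, Pi.smul_apply, smul_eq_mul, Finset.mul_sum, mul_ite, mul_zero]

/-- Only the values `G j`, `j < n` matter. -/
lemma psi1_congr {n : ℕ} (κ : ℕ → ℕ) {G G' : ℕ → ℂ} (h : ∀ j < n, G j = G' j) :
    psi1 n κ G = psi1 n κ G' := by
  funext S
  unfold psi1
  refine Finset.sum_congr rfl fun j hj => Finset.sum_congr rfl fun p _ => ?_
  rw [h j (Finset.mem_range.1 hj)]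

end Pool.Agent.H61.KR
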