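import Mathlib
import Pool.Agent.H61.KR.BTwo
import Pool.Agent.H61.KR.Psi1

set_option autoImplicit false

/-! # Block functions of two sites (all blocks of size `k`) -/

namespace Pool.Agent.H61.KR

open Pool.Agent.H69.AMU

/-- The function of two sites `p < q < n * k` with value `G (p / k) (q / k)`
(`G i j` is only used for `i ≤ j < n`). -/
noncomputable def psi2 (n k : ℕ) (G : ℕ → ℕ → ℂ) : Fn := fun S =>
  ∑ p ∈ Finset.range (n * k), ∑ q ∈ Finset.range (n * k),
    if p < q ∧ S = {p, q} then G (p / k) (q / k) else 0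

private lemma pair_eq {p q p' q' : ℕ} (h : p < q) (h' : p' < q')
    (he : ({p, q} : Finset ℕ) = {p', q'}) : p = p' ∧ q = q' := by
  have h1 : p ∈ ({p', q'} : Finset ℕ) := by rw [← he]; simp
  have h2 : q ∈ ({p', q'} : Finset ℕ) := by rw [← he]; simp
  have h3 : p' ∈ ({p, q} : Finset ℕ) := by rw [he]; simp
  have h4 : q' ∈ ({p, q} : Finset ℕ) := by rw [he]; simp
  rw [Finset.mem_insert, Finset.mem_singleton] at h1 h2 h3 h4
  omega

private lemma psi2_apply' {n k : ℕ} (G : ℕ → ℕ → ℂ) {p q : ℕ} (hpq : p < q) :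
    psi2 n k G {p, q} = if q < n * k then G (p / k) (q / k) else 0 := by
  unfold psi2
  split_ifs with hq
  · rw [Finset.sum_eq_single p]
    · rw [Finset.sum_eq_single q]
      · rw [if_pos ⟨hpq, rfl⟩]
      · intro q' _ hne
        rw [if_neg]
        rintro ⟨h1, h2⟩
        exact hne (pair_eq hpq h1 h2).2.symm
      · intro h
        exact absurd (Finset.mem_range.2 hq) h
    · intro p' _ hne
      refine Finset.sum_eq_zero fun q' _ => ?_
      rw [if_neg]
      rintro ⟨h1, h2⟩
      exact hne (pair_eq hpq h1 h2).1.symm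
    · intro h
      exact absurd (Finset.mem_range.2 (hpq.trans hq)) h
  · refine Finset.sum_eq_zero fun p' _ => Finset.sum_eq_zero fun q' hq' => ?_
    rw [if_neg]
    rintro ⟨h1, h2⟩
    have h3 := (pair_eq hpq h1 h2).2
    rw [Finset.mem_range] at hq'
    omega

lemma psi2_apply {n k : ℕ} (G : ℕ → ℕ → ℂ) {p q : ℕ} (hpq : p < q) (hq : q < n * k) :
    psi2 n k G {p, q} = G (p / k) (q / k) := by
  rw [psi2_apply' G hpq, if_pos hq]

lemma homog_psi2 (n k : ℕ) (G : ℕ → ℕ → ℂ) : Homog (n * k) 2 (psi2 n k G) := by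
  intro S hS
  unfold psi2 at hS
  obtain ⟨p, hp, hp'⟩ := Finset.exists_ne_zero_of_sum_ne_zero hS
  obtain ⟨q, hq, hq'⟩ := Finset.exists_ne_zero_of_sum_ne_zero hp'
  have h : p < q ∧ S = {p, q} := by
    by_contra h
    exact hq' (if_neg h)
  obtain ⟨h1, rfl⟩ := h
  refine ⟨?_, Finset.card_pair h1.ne⟩
  intro x hx
  rw [Finset.mem_insert, Finset.mem_singleton] at hx
  rcases hx with rfl | rfl
  · exact hp
  · exact hq

/-- Functions of two sites are determined by the values at pairs. Proof: `Finset.card_eq_two`. -/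
lemma homog_two_ext {N : ℕ} {F F' : Fn} (hF : Homog N 2 F) (hF' : Homog N 2 F')
    (h : ∀ p q, p < q → q < N → F {p, q} = F' {p, q}) : F = F' := by
  funext S
  by_cases hS : S ⊆ Finset.range N ∧ S.card = 2
  · obtain ⟨x, y, hxy, rfl⟩ := Finset.card_eq_two.1 hS.2
    have hx : x < N := Finset.mem_range.1 (hS.1 (by simp))
    have hy : y < N := Finset.mem_range.1 (hS.1 (by simp))
    rcases lt_or_gt_of_ne hxy with h1 | h1
    · exact h x y h1 hy
    · rw [Finset.pair_comm x y]
      exact h y x h1 hx
  · rw [hF.eq_zero hS, hF'.eq_zero hS]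

private lemma div_block {k g a : ℕ} (h1 : g * k ≤ a) (h2 : a < g * k + k) : a / k = g :=
  Nat.div_eq_of_lt_le h1 (by rw [Nat.add_mul, one_mul]; exact h2)

/-- The crossing on functions of two blocks `i ≤ j`; `s = v^k`, `w = v^(k-1)`, crossing of the
blocks `g`, `g + 1`. -/
noncomputable def gG (s w : ℂ) (g : ℕ) (G : ℕ → ℕ → ℂ) : ℕ → ℕ → ℂ := fun i j =>
  if i = g ∧ j = g then s * s * G (g + 1) (g + 1) + (1 - s) * (s + w) * G g (g + 1)
      + (1 - s) * (1 - w) * G g g
  else if i = g ∧ j = g + 1 then (1 - w) * G g g + w * G g (g + 1)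
  else if i = g + 1 ∧ j = g + 1 then G g g
  else if i = g then (1 - s) * G g j + s * G (g + 1) j
  else if i = g + 1 then G g j
  else if j = g then (1 - s) * G i g + s * G i (g + 1)
  else if j = g + 1 then G i g
  else G i j

/-- Proof: `rho_blk`, `blk_sgu_apply` with `m = g k`, `homog_two_ext` (`Homog.tblk`), and at a pair
`p < q` (`tblk_two`, `psi2_apply`): both sites in the window `[g k, (g+2) k)`: `t2blk_apply` with
`x2 = G g g`, `x11 = G g (g+1)`, `x02 = G (g+1) (g+1)`; one site in the window: `t2blk_left`,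
`t2blk_right` and `t1blk_apply`; none: `t2blk_out`. A site `p` in `[i k, (i+1) k)` has
`p / k = i` (`Nat.div_eq_of_lt_le`). -/
lemma rho_psi2 (A : ℂ) (hA : A ≠ 0) {n k : ℕ} (hk : 1 ≤ k) {g : ℕ} (hg : g + 1 < n)
    (G : ℕ → ℕ → ℂ) :
    (rho A hA (n * k) (blk (gen (n * k)) (g * k) k k)).val (psi2 n k G)
      = A ^ (k * k) • psi2 n k (gG (((A ^ 4)⁻¹) ^ k) (((A ^ 4)⁻¹) ^ (k - 1)) g G) := by
  have hgn : (g + 2) * k ≤ n * k := Nat.mul_le_mul_right k (by omega)
  have hg2 : (g + 2) * k = g * k + k + k := by ring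
  have hle : g * k + k + k ≤ n * k := by omega
  rw [rho_blk A hA hle, blk_sgu_apply]
  congr 1
  set v : ℂ := (A ^ 4)⁻¹ with hv
  apply homog_two_ext (Homog.tblk _ _ _ _ hle (homog_psi2 n k G)) (homog_psi2 n k _)
  intro p q hpq hq
  rw [tblk_two v (g * k) k k (psi2 n k G) hpq, psi2_apply _ hpq hq]
  set f : ℕ → ℕ → ℂ := fun a b => psi2 n k G {a, b} with hf
  have hf' : ∀ a b, a < b → b < n * k → f a b = G (a / k) (b / k) := fun a b h1 h2 =>
    psi2_apply G h1 h2
  have b0 : ∀ a, g * k ≤ a → a < g * k + k → a / k = g := fun a h1 h2 => div_block h1 h2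
  have b1 : ∀ a, g * k + k ≤ a → a < g * k + k + k → a / k = g + 1 := fun a h1 h2 =>
    div_block (by rw [Nat.add_mul, one_mul]; exact h1) (by rw [Nat.add_mul, one_mul]; exact h2)
  have bl : ∀ a, a < g * k → a / k < g := fun a h => (Nat.div_lt_iff_lt_mul hk).2 h
  have br : ∀ a, g * k + k + k ≤ a → g + 2 ≤ a / k := fun a h =>
    (Nat.le_div_iff_mul_le hk).2 (by rw [hg2]; exact h)
  by_cases hpl : p < g * k
  · -- left context
    rw [t2blk_left v (g * k) k k f p hpl q hpq]
    have hp1 := bl p hpl
    rw [t1blk_apply v (g * k) k k (f p) (G (p / k) g) (G (p / k) (g + 1))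
      (fun a h1 h2 => by rw [hf' p a (by omega) (by omega), b0 a h1 h2])
      (fun a h1 h2 => by rw [hf' p a (by omega) (by omega), b1 a h1 h2])]
    split_ifs with h1 h2
    · have := b0 q h1.1 h1.2
      simp [gG, this, hp1.ne, (show p / k ≠ g + 1 by omega)]
    · have := b1 q h2.1 h2.2
      simp [gG, this, hp1.ne, (show p / k ≠ g + 1 by omega)]
    · rw [hf' p q hpq hq]
      have hq0 : q / k ≠ g := by
        intro h
        have h3 := Nat.div_add_mod q k
        have h4 := Nat.mod_lt q hk
        rw [h, mul_comm k g] at h3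
        omega
      have hq1 : q / k ≠ g + 1 := by
        intro h
        have h3 := Nat.div_add_mod q k
        have h4 := Nat.mod_lt q hk
        rw [h, mul_comm k (g + 1), Nat.add_mul, one_mul] at h3
        omega
      simp [gG, hp1.ne, (show p / k ≠ g + 1 by omega), hq0, hq1]
  · by_cases hqr : g * k + k + k ≤ q
    · -- right context
      rw [t2blk_right v (g * k) k k f q hqr p hpq]
      have hq1 := br q hqr
      rw [t1blk_apply v (g * k) k k (fun a => f a q) (G g (q / k)) (G (g + 1) (q / k))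
        (fun a h1 h2 => by
          rw [hf' a q (by omega) hq, b0 a h1 h2])
        (fun a h1 h2 => by
          rw [hf' a q (by omega) hq, b1 a h1 h2])]
      split_ifs with h1 h2
      · have := b0 p h1.1 h1.2
        simp [gG, this, (show q / k ≠ g by omega), (show q / k ≠ g + 1 by omega)]
      · have := b1 p h2.1 h2.2
        simp [gG, this, (show q / k ≠ g by omega), (show q / k ≠ g + 1 by omega)]
      · rw [hf' p q hpq hq]
        have hp1 := br p (by omega)
        simp [gG, (show q / k ≠ g by omega), (show q / k ≠ g + 1 by omega),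
          (show p / k ≠ g by omega), (show p / k ≠ g + 1 by omega)]
    · -- both in the window
      rw [t2blk_apply v (g * k) k k hk f (G g g) (G g (g + 1)) (G (g + 1) (g + 1))
        (fun a b h1 h2 h3 => by
          rw [hf' a b h2 (by omega), b0 a h1 (by omega), b0 b (by omega) h3])
        (fun a b h1 h2 h3 h4 => by
          rw [hf' a b (by omega) (by omega), b0 a h1 h2, b1 b h3 h4])
        (fun a b h1 h2 h3 => by
          rw [hf' a b h2 (by omega), b1 a h1 (by omega), b1 b (by omega) h3])
        p q (by omega) hpq (by omega)]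
      split_ifs with h1 h2
      · simp [gG, b0 p (by omega) (by omega), b0 q (by omega) h1]
      · simp [gG, b0 p (by omega) h2, b1 q (by omega) (by omega)]
      · simp [gG, b1 p (by omega) (by omega), b1 q (by omega) (by omega)]

private lemma sum_blocks (k : ℕ) (f : ℕ → ℂ) (n : ℕ) :
    ∑ p ∈ Finset.range (n * k), f p
      = ∑ b ∈ Finset.range n, ∑ r ∈ Finset.range k, f (b * k + r) := by
  induction n with
  | zero => simp
  | succ n ih =>
    rw [Nat.add_mul, one_mul, Finset.sum_range_add, Finset.sum_range_succ, ih]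

private lemma inner_geom (v : ℂ) (r : ℕ) : (1 - v) * ∑ r' ∈ Finset.range r, v ^ (r' + 1)
    = v - v ^ (r + 1) := by
  induction r with
  | zero => simp
  | succ r ih =>
    rw [Finset.sum_range_succ, mul_add, ih]
    ring

private lemma inner_sum (v : ℂ) (r : ℕ) : ∀ k, r < k → (1 - v) * ∑ r' ∈ Finset.range k,
    (if r' < r then v ^ (r' + 1) else if r < r' then v ^ r' else 0) = v - v ^ k := by
  intro k
  induction k with
  | zero => intro h; omega
  | succ k ih =>
    intro h
    by_cases hk : r < k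
    · rw [Finset.sum_range_succ, mul_add, ih hk, if_neg (by omega), if_pos hk]
      ring
    · have hrk : k = r := by omega
      subst hrk
      rw [Finset.sum_range_succ, if_neg (lt_irrefl _), if_neg (lt_irrefl _), add_zero]
      rw [← inner_geom]
      congr 1
      refine Finset.sum_congr rfl fun r' hr' => ?_
      rw [if_pos (Finset.mem_range.1 hr')]

private lemma rai_singleton (A : ℂ) {n k : ℕ} (G : ℕ → ℕ → ℂ) {x : ℕ} (hx : x < n * k) :
    rai A (n * k) (psi2 n k G) {x} = ∑ p ∈ Finset.range (n * k),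
      if p < x then ((A ^ 4)⁻¹) ^ (p + 1) * G (p / k) (x / k)
      else if x < p then ((A ^ 4)⁻¹) ^ p * G (x / k) (p / k) else 0 := by
  unfold rai
  rw [Finset.sum_filter]
  refine Finset.sum_congr rfl fun p hp => ?_
  rw [Finset.mem_range] at hp
  rcases lt_trichotomy p x with h | h | h
  · have h1 : p ∉ ({x} : Finset ℕ) := by
      rw [Finset.mem_singleton]; omega
    rw [if_pos h1, if_pos h, Finset.filter_singleton, if_pos h, Finset.card_singleton]
    rw [psi2_apply G h hx]
  · subst h
    simp
  · have h1 : p ∉ ({x} : Finset ℕ) := by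
      rw [Finset.mem_singleton]; omega
    rw [if_pos h1, if_neg (by omega), if_pos h, Finset.filter_singleton, if_neg (by omega),
      Finset.card_empty, add_zero, Finset.pair_comm p x, psi2_apply G h hp]

/-- The raising operator, `v = A^(-4)`, `s = v^k`: the value at `{x}`, `x = J k + r`, `r < k`, is
`∑_{p < x} v^(p+1) G(p/k, J) + ∑_{x < p < nk} v^p G(J, p/k)`; with
`(1-v) ∑_{p in block b} v^p = v^(bk) (1 - s)` and, inside of the block `J`,
`(1-v) (∑_{p < r} v^(p+1) + ∑_{r < p < k} v^p) = v - v^k` it becomes (times `1 - v`)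
`v ∑_{b<J} v^(bk)(1-s) G(b,J) + v^(Jk) (v - s) G(J,J) + ∑_{J<b<n} v^(bk)(1-s) G(J,b)`.
Proof: by this computation the hypothesis gives the value `0` at all singletons; other sets by
`homog_rai`. -/
lemma rai_psi2 (A : ℂ) {n k : ℕ} (hk : 1 ≤ k) (G : ℕ → ℕ → ℂ) (hv : A ^ 4 ≠ 1)
    (hG : ∀ J < n, (A ^ 4)⁻¹ * ∑ b ∈ Finset.range J,
        (((A ^ 4)⁻¹) ^ k) ^ b * (1 - ((A ^ 4)⁻¹) ^ k) * G b J
      + (((A ^ 4)⁻¹) ^ k) ^ J * ((A ^ 4)⁻¹ - ((A ^ 4)⁻¹) ^ k) * G J J
      + ∑ b ∈ Finset.Ico (J + 1) n, (((A ^ 4)⁻¹) ^ k) ^ b * (1 - ((A ^ 4)⁻¹) ^ k) * G J b = 0) :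
    rai A (n * k) (psi2 n k G) = 0 := by
  have hH : Homog (n * k) 1 (rai A (n * k) (psi2 n k G)) := homog_rai (homog_psi2 n k G)
  have hH0 : Homog (n * k) 1 (0 : Fn) := fun S hS => absurd rfl hS
  apply homog_one_ext hH hH0
  intro x hx
  rw [rai_singleton A G hx]
  change _ = (0 : ℂ)
  have hJn : x / k < n := (Nat.div_lt_iff_lt_mul hk).2 hx
  have hGx := hG (x / k) hJn
  set v : ℂ := (A ^ 4)⁻¹ with hvdef
  have hv1 : (1 : ℂ) - v ≠ 0 := by
    intro h
    have h1 : v = 1 := by linear_combination -h
    rw [hvdef] at h1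
    exact hv (inv_eq_one.1 h1)
  set J := x / k with hJ
  have hxm := Nat.div_add_mod x k
  have hxr := Nat.mod_lt x hk
  rw [← hJ, mul_comm k J] at hxm
  set r := x % k with hr
  have hgeo : ∀ c : ℕ, (1 - v) * ∑ r' ∈ Finset.range k, v ^ (c + r') = v ^ c * (1 - v ^ k) := by
    intro c
    have h1 : ∑ r' ∈ Finset.range k, v ^ (c + r') = v ^ c * ∑ r' ∈ Finset.range k, v ^ r' := by
      rw [Finset.mul_sum]
      exact Finset.sum_congr rfl fun r' _ => by rw [pow_add]
    have h2 := geom_sum_mul_neg v k
    rw [h1]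
    linear_combination v ^ c * h2
  have hb : ∀ b < n, (1 - v) * ∑ r' ∈ Finset.range k,
      (if b * k + r' < x then v ^ (b * k + r' + 1) * G ((b * k + r') / k) J
        else if x < b * k + r' then v ^ (b * k + r') * G J ((b * k + r') / k) else 0)
      = if b < J then v * ((v ^ k) ^ b * (1 - v ^ k) * G b J)
        else if b = J then (v ^ k) ^ J * (v - v ^ k) * G J J
        else (v ^ k) ^ b * (1 - v ^ k) * G J b := by
    intro b _
    have hpow : (v ^ k) ^ b = v ^ (b * k) := by rw [← pow_mul, mul_comm]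
    have hdiv : ∀ r' ∈ Finset.range k, (b * k + r') / k = b := fun r' hr' =>
      div_block (Nat.le_add_right _ _) (by rw [Finset.mem_range] at hr'; omega)
    split_ifs with h1 h2
    · have hbJ : b * k + k ≤ J * k := by
        have := Nat.mul_le_mul_right k (show b + 1 ≤ J from h1)
        rwa [Nat.add_mul, one_mul] at this
      have h3 : ∑ r' ∈ Finset.range k,
          (if b * k + r' < x then v ^ (b * k + r' + 1) * G ((b * k + r') / k) J
            else if x < b * k + r' then v ^ (b * k + r') * G J ((b * k + r') / k) else 0)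
          = (∑ r' ∈ Finset.range k, v ^ (b * k + r')) * (v * G b J) := by
        rw [Finset.sum_mul]
        refine Finset.sum_congr rfl fun r' hr' => ?_
        rw [hdiv r' hr']
        rw [Finset.mem_range] at hr'
        rw [if_pos (by omega)]
        ring
      rw [h3, ← mul_assoc, hgeo, hpow]
      ring
    · subst h2
      have h3 : ∑ r' ∈ Finset.range k,
          (if J * k + r' < x then v ^ (J * k + r' + 1) * G ((J * k + r') / k) J
            else if x < J * k + r' then v ^ (J * k + r') * G J ((J * k + r') / k) else 0)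
          = (∑ r' ∈ Finset.range k, if r' < r then v ^ (r' + 1) else if r < r' then v ^ r' else 0)
            * (v ^ (J * k) * G J J) := by
        rw [Finset.sum_mul]
        refine Finset.sum_congr rfl fun r' hr' => ?_
        rw [hdiv r' hr']
        rcases lt_trichotomy r' r with h | h | h
        · rw [if_pos (by omega), if_pos h]
          ring
        · rw [if_neg (by omega), if_neg (by omega), if_neg (by omega), if_neg (by omega), zero_mul]
        · rw [if_neg (by omega), if_pos (by omega), if_neg (by omega), if_pos h]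
          ring
      rw [h3, ← mul_assoc, inner_sum v r k hxr, hpow]
      ring
    · have hbJ : J * k + k ≤ b * k := by
        have := Nat.mul_le_mul_right k (show J + 1 ≤ b by omega)
        rwa [Nat.add_mul, one_mul] at this
      have h3 : ∑ r' ∈ Finset.range k,
          (if b * k + r' < x then v ^ (b * k + r' + 1) * G ((b * k + r') / k) J
            else if x < b * k + r' then v ^ (b * k + r') * G J ((b * k + r') / k) else 0)
          = (∑ r' ∈ Finset.range k, v ^ (b * k + r')) * G J b := by
        rw [Finset.sum_mul]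
        refine Finset.sum_congr rfl fun r' hr' => ?_
        rw [hdiv r' hr']
        rw [if_neg (by omega), if_pos (by omega)]
      rw [h3, ← mul_assoc, hgeo, hpow]
  have hmain : (1 - v) * ∑ p ∈ Finset.range (n * k),
      (if p < x then v ^ (p + 1) * G (p / k) J
      else if x < p then v ^ p * G J (p / k) else 0) = 0 := by
    rw [sum_blocks, Finset.mul_sum]
    rw [Finset.sum_congr rfl fun b hb' => hb b (Finset.mem_range.1 hb')]
    rw [← Finset.sum_range_add_sum_Ico _ (show J + 1 ≤ n by omega), Finset.sum_range_succ,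
      if_neg (lt_irrefl J), if_pos rfl, ← hGx, Finset.mul_sum]
    congr 1
    · congr 1
      refine Finset.sum_congr rfl fun b hb' => ?_
      rw [if_pos (Finset.mem_range.1 hb')]
    · refine Finset.sum_congr rfl fun b hb' => ?_
      rw [Finset.mem_Ico] at hb'
      rw [if_neg (by omega), if_neg (by omega)]
  rcases mul_eq_zero.1 hmain with h | h
  · exact absurd h hv1
  · exact h

/-- Proof: at a pair with exactly one of `g, g+1` (same block) the values of `psi2` at `S` and
`sw g S` agree. -/
lemma cap_psi2 (A : ℂ) {n k : ℕ} (G : ℕ → ℕ → ℂ) {j g : ℕ} (hj : j < n) (h1 : j * k ≤ g)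
    (h2 : g + 1 < (j + 1) * k) : cap A g (psi2 n k G) = 0 := by
  rw [Nat.add_mul, one_mul] at h2
  have e1 : g / k = j := div_block h1 (by omega)
  have e2 : (g + 1) / k = j := div_block (by omega) h2
  have hjn : j * k + k ≤ n * k := by
    have := Nat.mul_le_mul_right k (show j + 1 ≤ n from hj)
    rwa [Nat.add_mul, one_mul] at this
  have hsw : ∀ x y : ℕ, sw g {x, y} = {Equiv.swap g (g + 1) x, Equiv.swap g (g + 1) y} := by
    intro x y
    simp [sw, Finset.map_insert]
  have aux : ∀ x y : ℕ, x < y → (g ∈ ({x, y} : Finset ℕ) ∧ g + 1 ∉ ({x, y} : Finset ℕ) ∨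
      g ∉ ({x, y} : Finset ℕ) ∧ g + 1 ∈ ({x, y} : Finset ℕ)) →
      psi2 n k G (sw g {x, y}) = psi2 n k G {x, y} := by
    intro x y hxy hS
    simp only [Finset.mem_insert, Finset.mem_singleton] at hS
    rw [hsw]
    by_cases c1 : x = g
    · subst c1
      have hy1 : y ≠ x := by omega
      have hy2 : y ≠ x + 1 := by omega
      rw [Equiv.swap_apply_left, Equiv.swap_apply_of_ne_of_ne hy1 hy2,
        psi2_apply' G (show x + 1 < y by omega), psi2_apply' G hxy, e1, e2]
    by_cases c2 : x = g + 1
    · subst c2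
      have hy1 : y ≠ g := by omega
      have hy2 : y ≠ g + 1 := by omega
      rw [Equiv.swap_apply_right, Equiv.swap_apply_of_ne_of_ne hy1 hy2,
        psi2_apply' G (show g < y by omega), psi2_apply' G hxy, e1, e2]
    rw [Equiv.swap_apply_of_ne_of_ne c1 c2]
    by_cases c3 : y = g
    · subst c3
      rw [Equiv.swap_apply_left, psi2_apply' G (show x < y + 1 by omega), psi2_apply' G hxy, e1, e2,
        if_pos (by omega), if_pos (by omega)]
    · have c4 : y = g + 1 := by omega
      subst c4
      rw [Equiv.swap_apply_right, psi2_apply' G (show x < g by omega), psi2_apply' G hxy, e1, e2,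
        if_pos (by omega), if_pos (by omega)]
  have key : ∀ S : Finset ℕ, (g ∈ S ∧ g + 1 ∉ S ∨ g ∉ S ∧ g + 1 ∈ S) →
      psi2 n k G (sw g S) = psi2 n k G S := by
    intro S hS
    by_cases hc : S.card = 2
    · obtain ⟨x, y, hxy, rfl⟩ := Finset.card_eq_two.1 hc
      rcases lt_or_gt_of_ne hxy with h | h
      · exact aux x y h hS
      · rw [Finset.pair_comm x y] at hS ⊢
        exact aux y x h hS
    · have hH := homog_psi2 n k G
      rw [hH.eq_zero (fun h => hc h.2), hH.eq_zero (fun h => hc (by rw [← card_sw g S]; exact h.2))]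
  funext S
  unfold cap
  split_ifs with h3 h4
  · rw [key S (Or.inl h3)]; simp
  · rw [key S (Or.inr h4)]; simp
  · rfl

/-- Injectivity (`k ≥ 2`). Proof: `psi2_apply` at `p = i k`, `q = j k` for `i < j`, and at
`p = i k`, `q = i k + 1` for `i = j`. -/
lemma psi2_inj {n k : ℕ} (hk : 2 ≤ k) {G G' : ℕ → ℕ → ℂ} (h : psi2 n k G = psi2 n k G') {i j : ℕ}
    (hij : i ≤ j) (hj : j < n) : G i j = G' i j := by
  have hjn : j * k + k ≤ n * k := by
    have := Nat.mul_le_mul_right k (show j + 1 ≤ n from hj)
    rwa [Nat.add_mul, one_mul] at this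
  have e0 : ∀ b : ℕ, b * k / k = b := fun b => Nat.mul_div_cancel b (by omega)
  rcases hij.eq_or_lt with rfl | hlt
  · have h1 := congrFun h {i * k, i * k + 1}
    rwa [psi2_apply G (by omega) (by omega), psi2_apply G' (by omega) (by omega), e0,
      div_block (Nat.le_add_right _ _) (by omega)] at h1
  · have h1 := congrFun h {i * k, j * k}
    have h2 : i * k < j * k := Nat.mul_lt_mul_of_pos_right hlt (by omega)
    rwa [psi2_apply G h2 (by omega), psi2_apply G' h2 (by omega), e0, e0] at h1

lemma psi2_smul (n k : ℕ) (c : ℂ) (G : ℕ → ℕ → ℂ) :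
    psi2 n k (c • G) = c • psi2 n k G := by
  funext S
  simp only [psi2, Pi.smul_apply, smul_eq_mul, Finset.mul_sum, mul_ite, mul_zero]

/-- Only the values `G i j`, `i ≤ j < n` matter. -/
lemma psi2_congr {n k : ℕ} {G G' : ℕ → ℕ → ℂ} (h : ∀ i j, i ≤ j → j < n → G i j = G' i j) :
    psi2 n k G = psi2 n k G' := by
  funext S
  unfold psi2
  refine Finset.sum_congr rfl fun p hp => Finset.sum_congr rfl fun q hq => ?_
  rw [Finset.mem_range] at hp hq
  split_ifs with h'
  · apply h
    · exact Nat.div_le_div_right h'.1.le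
    · rcases Nat.eq_zero_or_pos k with rfl | hk
      · omega
      · exact (Nat.div_lt_iff_lt_mul hk).2 hq
  · rfl

end Pool.Agent.H61.KR
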