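import Mathlib
import Pool.Agent.H61.KR.KRel
import Pool.Agent.H61.KR.Psi2

set_option autoImplicit false
set_option linter.unusedSimpArgs false

/-! # The block function of a vector in the coordinates `c` -/

namespace Pool.Agent.H61.KR

open Pool.Agent.H69.AMU

/-- The values on pairs of blocks `i ≤ j` of the block function with coordinates `F`. -/
noncomputable def Gc (n : ℕ) (t s : ℂ) (F : ℕ → ℕ → ℂ) : ℕ → ℕ → ℂ := fun i j =>
  if i = j then (-(∑ b ∈ Finset.range i, F b i) - t * ∑ b ∈ Finset.Ico (i + 1) n, F i b)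
    / (s ^ (2 * i) * (1 - s) * (1 - t * s))
  else F i j / (s ^ (i + j) * (1 - s) ^ 2)

variable {n : ℕ}

lemma Gc_add (t s : ℂ) (F F' : ℕ → ℕ → ℂ) : Gc n t s (F + F') = Gc n t s F + Gc n t s F' := by
  funext i j
  simp only [Gc, Pi.add_apply, Finset.sum_add_distrib]
  split_ifs <;> ring

lemma Gc_smul (t s a : ℂ) (F : ℕ → ℕ → ℂ) : Gc n t s (a • F) = a • Gc n t s F := by
  funext i j
  simp only [Gc, Pi.smul_apply, smul_eq_mul, ← Finset.mul_sum]
  split_ifs <;> ring

lemma Gc_diag (t s : ℂ) (F : ℕ → ℕ → ℂ) (i : ℕ) : Gc n t s F i i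
    = (-(∑ b ∈ Finset.range i, F b i) - t * ∑ b ∈ Finset.Ico (i + 1) n, F i b)
    / (s ^ (2 * i) * (1 - s) * (1 - t * s)) := by
  rw [Gc, if_pos rfl]

lemma Gc_off (t s : ℂ) (F : ℕ → ℕ → ℂ) {i j : ℕ} (h : i < j) :
    Gc n t s F i j = F i j / (s ^ (i + j) * (1 - s) ^ 2) := by
  rw [Gc, if_neg (by omega)]

lemma Gc_congr {t s : ℂ} {F F' : ℕ → ℕ → ℂ} (h : Eqn n F F') {i j : ℕ} (hij : i ≤ j) (hj : j < n) :
    Gc n t s F i j = Gc n t s F' i j := by
  rcases eq_or_lt_of_le hij with rfl | h1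
  · rw [Gc_diag, Gc_diag, Finset.sum_congr rfl fun b hb => h b i (Finset.mem_range.1 hb) hj,
      Finset.sum_congr rfl fun b hb => h i b (by have := Finset.mem_Ico.1 hb; omega)
        (by have := Finset.mem_Ico.1 hb; omega)]
  · rw [Gc_off _ _ _ h1, Gc_off _ _ _ h1, h i j h1 hj]

lemma Gc_inj {t s : ℂ} (hs : s ≠ 0) (hs1 : s ≠ 1) {F F' : ℕ → ℕ → ℂ}
    (h : ∀ i j, i ≤ j → j < n → Gc n t s F i j = Gc n t s F' i j) : Eqn n F F' := by
  intro i j hij hj
  have h1 := h i j hij.le hj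
  rw [Gc_off _ _ _ hij, Gc_off _ _ _ hij] at h1
  have h2 : s ^ (i + j) * (1 - s) ^ 2 ≠ 0 :=
    mul_ne_zero (pow_ne_zero _ hs) (pow_ne_zero _ (sub_ne_zero.2 (Ne.symm hs1)))
  field_simp at h1
  exact h1

/-- The crossing. -/
lemma gG_Gc {t s : ℂ} (hs : s ≠ 0) (hs1 : s ≠ 1) (hts : t * s ≠ 1) {g : ℕ} (hg : g + 1 < n)
    (F : ℕ → ℕ → ℂ) {i j : ℕ} (hij : i ≤ j) (hj : j < n) :
    gG s (t * s) g (Gc n t s F) i j = Gc n t s (kcf n t s g F) i j := by
  have d1 : (1 : ℂ) - s ≠ 0 := sub_ne_zero.2 (Ne.symm hs1)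
  have d2 : (1 : ℂ) - t * s ≠ 0 := sub_ne_zero.2 (Ne.symm hts)
  have d3 : (1 : ℂ) - s * t ≠ 0 := by rw [mul_comm]; exact d2
  have hcase : (i = g ∧ j = g) ∨ (i = g ∧ j = g + 1) ∨ (i = g + 1 ∧ j = g + 1)
      ∨ (i = g ∧ g + 1 < j) ∨ (i = g + 1 ∧ g + 1 < j) ∨ (i < g ∧ j = g) ∨ (i < g ∧ j = g + 1)
      ∨ (i = j ∧ i < g) ∨ (i = j ∧ g + 1 < i) ∨ (i < j ∧ i ≠ g ∧ i ≠ g + 1 ∧ j ≠ g ∧ j ≠ g + 1) := by
    omega
  -- sums of the images
  have a1 : ∑ a ∈ Finset.range g, kcf n t s g F a g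
      = (1 - s) * (∑ a ∈ Finset.range g, F a g) + ∑ a ∈ Finset.range g, F a (g + 1) := by
    rw [Finset.mul_sum, ← Finset.sum_add_distrib]
    exact Finset.sum_congr rfl fun a ha => kcf_left t s g F (Finset.mem_range.1 ha)
  have a2 : ∑ a ∈ Finset.range g, kcf n t s g F a (g + 1) = s * ∑ a ∈ Finset.range g, F a g := by
    rw [Finset.mul_sum]
    exact Finset.sum_congr rfl fun a ha => kcf_left' t s g F (Finset.mem_range.1 ha)
  have b1 : ∑ b ∈ Finset.Ico (g + 2) n, kcf n t s g F g b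
      = (1 - s) * (∑ b ∈ Finset.Ico (g + 2) n, F g b) + ∑ b ∈ Finset.Ico (g + 2) n, F (g + 1) b := by
    rw [Finset.mul_sum, ← Finset.sum_add_distrib]
    exact Finset.sum_congr rfl fun b hb => kcf_right t s g F
      (by have := Finset.mem_Ico.1 hb; omega)
  have b2 : ∑ b ∈ Finset.Ico (g + 2) n, kcf n t s g F (g + 1) b
      = s * ∑ b ∈ Finset.Ico (g + 2) n, F g b := by
    rw [Finset.mul_sum]
    exact Finset.sum_congr rfl fun b hb => kcf_right' t s g F
      (by have := Finset.mem_Ico.1 hb; omega)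
  rcases hcase with h1 | h1 | h1 | h1 | h1 | h1 | h1 | h1 | h1 | h1
  · obtain ⟨rfl, rfl⟩ := h1
    rw [gG, if_pos ⟨rfl, rfl⟩, Gc_diag, Gc_diag, Gc_diag, Gc_off _ _ _ (by omega), a1,
      Finset.sum_range_succ, Finset.sum_eq_sum_Ico_succ_bot (by omega : j + 1 < n) (fun b => F j b),
      Finset.sum_eq_sum_Ico_succ_bot (by omega : j + 1 < n) (fun b => kcf n t s j F j b), b1, kcf_gg]
    have p1 : s ^ (2 * (j + 1)) = s ^ (2 * j) * s ^ 2 := by rw [← pow_add]; congr 1
    have p2 : s ^ (j + (j + 1)) = s ^ (2 * j) * s := by rw [← pow_succ]; congr 1; omega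
    have p3 : s ^ (2 * j) ≠ 0 := pow_ne_zero _ hs
    rw [p1, p2]
    field_simp
    ring
  · obtain ⟨rfl, rfl⟩ := h1
    rw [gG, if_neg (by omega), if_pos ⟨rfl, rfl⟩, Gc_diag, Gc_off _ _ _ (by omega),
      Gc_off _ _ _ (by omega), kcf_gg,
      Finset.sum_eq_sum_Ico_succ_bot (by omega : i + 1 < n) (fun b => F i b)]
    have p2 : s ^ (i + (i + 1)) = s ^ (2 * i) * s := by rw [← pow_succ]; congr 1; omega
    have p3 : s ^ (2 * i) ≠ 0 := pow_ne_zero _ hs
    rw [p2]
    field_simp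
    ring
  · obtain ⟨rfl, rfl⟩ := h1
    rw [gG, if_neg (by omega), if_neg (by omega), if_pos ⟨rfl, rfl⟩, Gc_diag, Gc_diag,
      Finset.sum_range_succ, a2, b2, kcf_gg,
      Finset.sum_eq_sum_Ico_succ_bot (by omega : g + 1 < n) (fun b => F g b)]
    have p1 : s ^ (2 * (g + 1)) = s ^ (2 * g) * s ^ 2 := by rw [← pow_add]; congr 1
    have p3 : s ^ (2 * g) ≠ 0 := pow_ne_zero _ hs
    rw [p1]
    field_simp
    ring
  · obtain ⟨rfl, h1⟩ := h1
    rw [gG, if_neg (by omega), if_neg (by omega), if_neg (by omega), if_pos rfl,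
      Gc_off _ _ _ (by omega), Gc_off _ _ _ (by omega), Gc_off _ _ _ (by omega),
      kcf_right t s i F h1]
    have p2 : s ^ (i + 1 + j) = s ^ (i + j) * s := by rw [← pow_succ]; congr 1; omega
    have p3 : s ^ (i + j) ≠ 0 := pow_ne_zero _ hs
    rw [p2]
    field_simp
  · obtain ⟨rfl, h1⟩ := h1
    rw [gG, if_neg (by omega), if_neg (by omega), if_neg (by omega), if_neg (by omega), if_pos rfl,
      Gc_off _ _ _ (by omega), Gc_off _ _ _ (by omega), kcf_right' t s g F h1]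
    have p2 : s ^ (g + 1 + j) = s ^ (g + j) * s := by rw [← pow_succ]; congr 1; omega
    have p3 : s ^ (g + j) ≠ 0 := pow_ne_zero _ hs
    rw [p2]
    field_simp
  · obtain ⟨h1, rfl⟩ := h1
    rw [gG, if_neg (by omega), if_neg (by omega), if_neg (by omega), if_neg (by omega),
      if_neg (by omega), if_pos rfl,
      Gc_off _ _ _ (by omega), Gc_off _ _ _ (by omega), Gc_off _ _ _ (by omega),
      kcf_left t s j F h1]
    have p2 : s ^ (i + (j + 1)) = s ^ (i + j) * s := by rw [← pow_succ]; congr 1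
    have p3 : s ^ (i + j) ≠ 0 := pow_ne_zero _ hs
    rw [p2]
    field_simp
  · obtain ⟨h1, rfl⟩ := h1
    rw [gG, if_neg (by omega), if_neg (by omega), if_neg (by omega), if_neg (by omega),
      if_neg (by omega), if_neg (by omega), if_pos rfl,
      Gc_off _ _ _ (by omega), Gc_off _ _ _ (by omega), kcf_left' t s g F h1]
    have p2 : s ^ (i + (g + 1)) = s ^ (i + g) * s := by rw [← pow_succ]; congr 1
    have p3 : s ^ (i + g) ≠ 0 := pow_ne_zero _ hs
    rw [p2]
    field_simp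
  · obtain ⟨rfl, h1⟩ := h1
    rw [gG, if_neg (by omega), if_neg (by omega), if_neg (by omega), if_neg (by omega),
      if_neg (by omega), if_neg (by omega), if_neg (by omega), Gc_diag, Gc_diag]
    have e0 : ∀ f : ℕ → ℂ, ∑ b ∈ Finset.Ico (i + 1) n, f b
        = (∑ b ∈ Finset.Ico (i + 1) g, f b) + (f g + (f (g + 1) + ∑ b ∈ Finset.Ico (g + 2) n, f b)) := by
      intro f
      rw [← Finset.sum_Ico_consecutive f (by omega : i + 1 ≤ g) (by omega : g ≤ n),
        Finset.sum_eq_sum_Ico_succ_bot (by omega : g < n),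
        Finset.sum_eq_sum_Ico_succ_bot (by omega : g + 1 < n)]
    have e1 : ∑ b ∈ Finset.range i, kcf n t s g F b i = ∑ b ∈ Finset.range i, F b i :=
      Finset.sum_congr rfl fun b hb => by
        have := Finset.mem_range.1 hb
        exact kcf_out t s g F (by omega) (by omega) (by omega) (by omega)
    have e2 : ∑ b ∈ Finset.Ico (i + 1) g, kcf n t s g F i b = ∑ b ∈ Finset.Ico (i + 1) g, F i b :=
      Finset.sum_congr rfl fun b hb => by
        have := Finset.mem_Ico.1 hb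
        exact kcf_out t s g F (by omega) (by omega) (by omega) (by omega)
    have e3 : ∑ b ∈ Finset.Ico (g + 2) n, kcf n t s g F i b = ∑ b ∈ Finset.Ico (g + 2) n, F i b :=
      Finset.sum_congr rfl fun b hb => by
        have := Finset.mem_Ico.1 hb
        exact kcf_out t s g F (by omega) (by omega) (by omega) (by omega)
    rw [e0 (fun b => F i b), e0 (fun b => kcf n t s g F i b), e1, e2, e3,
      kcf_left t s g F h1, kcf_left' t s g F h1]
    congr 1
    ring
  · obtain ⟨rfl, h1⟩ := h1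
    rw [gG, if_neg (by omega), if_neg (by omega), if_neg (by omega), if_neg (by omega),
      if_neg (by omega), if_neg (by omega), if_neg (by omega), Gc_diag, Gc_diag]
    have e0 : ∀ f : ℕ → ℂ, ∑ a ∈ Finset.range i, f a
        = (∑ a ∈ Finset.range g, f a) + (f g + (f (g + 1) + ∑ a ∈ Finset.Ico (g + 2) i, f a)) := by
      intro f
      rw [Finset.range_eq_Ico, Finset.range_eq_Ico,
        ← Finset.sum_Ico_consecutive f (by omega : 0 ≤ g) (by omega : g ≤ i),
        Finset.sum_eq_sum_Ico_succ_bot (by omega : g < i),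
        Finset.sum_eq_sum_Ico_succ_bot (by omega : g + 1 < i)]
    have e1 : ∑ a ∈ Finset.range g, kcf n t s g F a i = ∑ a ∈ Finset.range g, F a i :=
      Finset.sum_congr rfl fun a ha => by
        have := Finset.mem_range.1 ha
        exact kcf_out t s g F (by omega) (by omega) (by omega) (by omega)
    have e2 : ∑ a ∈ Finset.Ico (g + 2) i, kcf n t s g F a i = ∑ a ∈ Finset.Ico (g + 2) i, F a i :=
      Finset.sum_congr rfl fun a ha => by
        have := Finset.mem_Ico.1 ha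
        exact kcf_out t s g F (by omega) (by omega) (by omega) (by omega)
    have e3 : ∑ b ∈ Finset.Ico (i + 1) n, kcf n t s g F i b = ∑ b ∈ Finset.Ico (i + 1) n, F i b :=
      Finset.sum_congr rfl fun b hb => by
        have := Finset.mem_Ico.1 hb
        exact kcf_out t s g F (by omega) (by omega) (by omega) (by omega)
    rw [e0 (fun a => F a i), e0 (fun a => kcf n t s g F a i), e1, e2, e3,
      kcf_right t s g F h1, kcf_right' t s g F h1]
    congr 1
    ring
  · obtain ⟨h0, h1, h2, h3, h4⟩ := h1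
    rw [gG, if_neg (by omega), if_neg (by omega), if_neg (by omega), if_neg (by omega),
      if_neg (by omega), if_neg (by omega), if_neg (by omega), Gc_off _ _ _ h0, Gc_off _ _ _ h0,
      kcf_out t s g F h1 h2 h3 h4]

/-- The hypothesis of `rai_psi2`, `v = 1 / t`. -/
lemma rai_Gc {t s v : ℂ} (hv : v * t = 1) (hs : s ≠ 0) (hs1 : s ≠ 1) (hts : t * s ≠ 1)
    (F : ℕ → ℕ → ℂ) (J : ℕ) :
    v * ∑ b ∈ Finset.range J, s ^ b * (1 - s) * Gc n t s F b J
      + s ^ J * (v - s) * Gc n t s F J J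
      + ∑ b ∈ Finset.Ico (J + 1) n, s ^ b * (1 - s) * Gc n t s F J b = 0 := by
  have d1 : (1 : ℂ) - s ≠ 0 := sub_ne_zero.2 (Ne.symm hs1)
  have d2 : (1 : ℂ) - t * s ≠ 0 := sub_ne_zero.2 (Ne.symm hts)
  have d3 : (1 : ℂ) - s * t ≠ 0 := by rw [mul_comm]; exact d2
  have e1 : ∑ b ∈ Finset.range J, s ^ b * (1 - s) * Gc n t s F b J
      = (∑ b ∈ Finset.range J, F b J) / (s ^ J * (1 - s)) := by
    rw [Finset.sum_div]
    refine Finset.sum_congr rfl fun b hb => ?_
    rw [Gc_off _ _ _ (Finset.mem_range.1 hb), pow_add]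
    have p1 : s ^ b ≠ 0 := pow_ne_zero _ hs
    have p2 : s ^ J ≠ 0 := pow_ne_zero _ hs
    field_simp
  have e2 : ∑ b ∈ Finset.Ico (J + 1) n, s ^ b * (1 - s) * Gc n t s F J b
      = (∑ b ∈ Finset.Ico (J + 1) n, F J b) / (s ^ J * (1 - s)) := by
    rw [Finset.sum_div]
    refine Finset.sum_congr rfl fun b hb => ?_
    rw [Gc_off _ _ _ (by have := Finset.mem_Ico.1 hb; omega), pow_add]
    have p1 : s ^ b ≠ 0 := pow_ne_zero _ hs
    have p2 : s ^ J ≠ 0 := pow_ne_zero _ hs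
    field_simp
  rw [e1, e2, Gc_diag]
  set X := ∑ b ∈ Finset.range J, F b J
  set Y := ∑ b ∈ Finset.Ico (J + 1) n, F J b
  have p2 : s ^ J ≠ 0 := pow_ne_zero _ hs
  have e3 : v - s = v * (1 - t * s) := by linear_combination s * hv
  have e4 : s ^ (2 * J) = s ^ J * s ^ J := by rw [← pow_add]; congr 1; omega
  rw [e3, e4]
  field_simp
  linear_combination (-Y) * hv

end Pool.Agent.H61.KR
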