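import Mathlib
import Pool.Agent.H61.KR.KHom
import Pool.Agent.H61.KR.KGc
import Pool.Agent.H61.KR.Psi2

set_option autoImplicit false

/-! # The cabled braid acts on block functions of two sites by the Krammer matrices -/

namespace Pool.Agent.H61.KR

open Pool.Agent.H69.AMU Matrix

/-- Genericity of the Kauffman variable for the colour `k`. -/
structure GenA (A : ℂ) (k : ℕ) : Prop where
  ne : A ≠ 0
  s1 : ((A ^ 4)⁻¹) ^ k ≠ 1
  ts1 : A ^ 4 * ((A ^ 4)⁻¹) ^ k ≠ 1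
  v1 : A ^ 4 ≠ 1

/-- The unit `t = A ^ 4`. -/
noncomputable def tA {A : ℂ} (hA : A ≠ 0) : ℂˣ := Units.mk0 (A ^ 4) (pow_ne_zero _ hA)

/-- The unit `s = A ^ (-4 k)`. -/
noncomputable def sA {A : ℂ} (hA : A ≠ 0) (k : ℕ) : ℂˣ := (tA hA)⁻¹ ^ k

lemma tA_val {A : ℂ} (hA : A ≠ 0) : (tA hA : ℂ) = A ^ 4 := rfl

lemma sA_val {A : ℂ} (hA : A ≠ 0) (k : ℕ) : (sA hA k : ℂ) = ((A ^ 4)⁻¹) ^ k := by
  simp [sA, tA]

section

variable {n k : ℕ} {A : ℂ}

/-- The block function of a vector (coordinates `d`). -/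
noncomputable def xi (n k : ℕ) (A : ℂ) (d : Pr n → ℂ) : Fn :=
  psi2 n k (Gc n (A ^ 4) (((A ^ 4)⁻¹) ^ k) (cdf (((A ^ 4)⁻¹) ^ k) (exd d)))

lemma psi2_add (n k : ℕ) (G G' : ℕ → ℕ → ℂ) : psi2 n k (G + G') = psi2 n k G + psi2 n k G' := by
  funext S
  show psi2 n k (G + G') S = psi2 n k G S + psi2 n k G' S
  simp only [psi2, Pi.add_apply, ← Finset.sum_add_distrib]
  refine Finset.sum_congr rfl fun p _ => Finset.sum_congr rfl fun q _ => ?_
  split_ifs <;> simp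

lemma xi_add (d d' : Pr n → ℂ) : xi n k A (d + d') = xi n k A d + xi n k A d' := by
  rw [xi, exd_add, cdf_lin, Gc_add, psi2_add]
  rfl

lemma xi_smul (a : ℂ) (d : Pr n → ℂ) : xi n k A (a • d) = a • xi n k A d := by
  rw [xi, exd_smul, cdf_smul, Gc_smul, psi2_smul]
  rfl

lemma xi_zero : xi n k A (0 : Pr n → ℂ) = 0 := by
  have h := xi_smul (n := n) (k := k) (A := A) 0 0
  rwa [zero_smul, zero_smul] at h

/-- Injectivity. -/
lemma xi_inj (h : GenA A k) (hk : 2 ≤ k) {d d' : Pr n → ℂ} (hd : xi n k A d = xi n k A d') :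
    d = d' := by
  have hs : ((A ^ 4)⁻¹) ^ k ≠ 0 := pow_ne_zero _ (inv_ne_zero (pow_ne_zero _ h.ne))
  have h1 : Eqn n (cdf (((A ^ 4)⁻¹) ^ k) (exd d)) (cdf (((A ^ 4)⁻¹) ^ k) (exd d')) :=
    Gc_inj hs h.s1 fun i j hij hj => psi2_inj hk hd hij hj
  have h2 := dcf_congr (s := ((A ^ 4)⁻¹) ^ k) h1
  rw [dcf_cdf, dcf_cdf] at h2
  have h3 := res_eq_iff.2 h2
  rwa [res_exd, res_exd] at h3

lemma homog_xi (d : Pr n → ℂ) : Homog (n * k) 2 (xi n k A d) := homog_psi2 n k _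

lemma rai_xi (h : GenA A k) (hk : 1 ≤ k) (d : Pr n → ℂ) : rai A (n * k) (xi n k A d) = 0 := by
  have hs : ((A ^ 4)⁻¹) ^ k ≠ 0 := pow_ne_zero _ (inv_ne_zero (pow_ne_zero _ h.ne))
  have hv : (A ^ 4)⁻¹ * A ^ 4 = 1 := inv_mul_cancel₀ (pow_ne_zero _ h.ne)
  exact rai_psi2 A hk _ h.v1 fun J _ => rai_Gc hv hs h.s1 h.ts1 _ J

lemma cap_xi (d : Pr n → ℂ) {j g : ℕ} (hj : j < n) (h1 : j * k ≤ g) (h2 : g + 1 < (j + 1) * k) :
    cap A g (xi n k A d) = 0 := cap_psi2 A _ hj h1 h2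

/-- The scalar factor. -/
lemma artinSeq_scal (A : ℂ) (hA : A ≠ 0) (k M : ℕ) :
    ArtinSeq (fun _ : ℕ => (Units.mk0 A hA) ^ (k * k)) M :=
  ⟨fun _ _ _ _ => rfl, fun _ _ => rfl⟩

/-- The scalar factor of the cabled braid. -/
noncomputable def scal (n : ℕ) (A : ℂ) (hA : A ≠ 0) (k : ℕ) : BraidGroup n →* ℂˣ :=
  braidLift (artinSeq_scal A hA k (n - 1))

/-- The scalar factors are powers of `A`. -/
lemma scal_zpow (hA : A ≠ 0) (b : BraidGroup n) : ∃ e : ℤ, (scal n A hA k b : ℂ) = A ^ e := by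
  refine braid_induction (P := fun b => ∃ e : ℤ, (scal n A hA k b : ℂ) = A ^ e) ?_ ?_ ?_ ?_ b
  · exact ⟨0, by simp⟩
  · intro i hi
    refine ⟨(k * k : ℕ), ?_⟩
    rw [scal, braidLift_gen _ hi, zpow_natCast]
    simp
  · rintro a b ⟨e, he⟩ ⟨e', he'⟩
    exact ⟨e + e', by rw [map_mul, Units.val_mul, he, he', zpow_add₀ hA]⟩
  · rintro a ⟨e, he⟩
    exact ⟨-e, by rw [map_inv, Units.val_inv_eq_inv_val, he, _root_.zpow_neg]⟩

/-- The transfer. -/
theorem rho_xi (h : GenA A k) (hk : 1 ≤ k) (b : BraidGroup n) (d : Pr n → ℂ) :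
    (rho A h.ne (n * k) (cable n k hk b)).val (xi n k A d)
      = (scal n A h.ne k b : ℂ) • xi n k A ((krd n (tA h.ne) (sA h.ne k) b).val d) := by
  have hs : ((A ^ 4)⁻¹) ^ k ≠ 0 := pow_ne_zero _ (inv_ne_zero (pow_ne_zero _ h.ne))
  have key : ∀ b : BraidGroup n, ∀ d : Pr n → ℂ,
      (rho A h.ne (n * k) (cable n k hk b)).val (xi n k A d)
      = (scal n A h.ne k b : ℂ) • xi n k A ((krd n (tA h.ne) (sA h.ne k) b).val d) := by
    intro b
    refine braid_induction (P := fun b => ∀ d : Pr n → ℂ,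
      (rho A h.ne (n * k) (cable n k hk b)).val (xi n k A d)
      = (scal n A h.ne k b : ℂ) • xi n k A ((krd n (tA h.ne) (sA h.ne k) b).val d)) ?_ ?_ ?_ ?_ b
    · intro d
      simp
    · intro g hg d
      have hg' : g + 1 < n := by omega
      have e1 : (scal n A h.ne k (gen n g) : ℂ) = A ^ (k * k) := by
        rw [scal, braidLift_gen _ hg]
        simp
      rw [cable_gen _ hg, e1, krd_gen _ _ hg', xi, rho_psi2 A h.ne hk hg']
      congr 1
      rw [xi]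
      apply psi2_congr
      intro i j hij hj
      have e2 : ((A ^ 4)⁻¹) ^ (k - 1) = A ^ 4 * ((A ^ 4)⁻¹) ^ k := by
        obtain ⟨l, rfl⟩ : ∃ l, k = l + 1 := ⟨k - 1, by omega⟩
        have h4 : A ^ 4 * (A ^ 4)⁻¹ = 1 := mul_inv_cancel₀ (pow_ne_zero 4 h.ne)
        rw [Nat.add_sub_cancel]
        generalize A ^ 4 = x at h4 ⊢
        rw [pow_succ]
        linear_combination (-(x⁻¹ ^ l)) * h4
      rw [e2, gG_Gc hs h.s1 h.ts1 hg' _ hij hj]
      refine Gc_congr ?_ hij hj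
      rw [tA_val, sA_val]
      have e3 := kdf_dcf (A ^ 4) (((A ^ 4)⁻¹) ^ k) hg' (cdf (((A ^ 4)⁻¹) ^ k) (exd d))
      rw [dcf_cdf] at e3
      have e4 := cdf_congr (s := ((A ^ 4)⁻¹) ^ k) ((exd_res_eqn _).trans e3)
      rw [cdf_dcf] at e4
      exact e4.symm
    · intro a b ha hb d
      rw [map_mul, map_mul, Units.val_mul, Module.End.mul_apply, hb, map_smul, ha, map_mul, map_mul,
        Units.val_mul, Units.val_mul, Module.End.mul_apply, smul_smul, mul_comm]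
    · intro a ha d
      have h1 := ha ((krd n (tA h.ne) (sA h.ne k) a⁻¹).val d)
      have h2 : (krd n (tA h.ne) (sA h.ne k) a).val ((krd n (tA h.ne) (sA h.ne k) a⁻¹).val d) = d := by
        rw [← Module.End.mul_apply, ← Units.val_mul, ← map_mul, mul_inv_cancel, map_one,
          Units.val_one, Module.End.one_apply]
      rw [h2] at h1
      have h3 := congrArg (rho A h.ne (n * k) (cable n k hk a⁻¹)).val h1
      rw [← Module.End.mul_apply, ← Units.val_mul, ← map_mul, ← map_mul, inv_mul_cancel, map_one,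
        map_one, Units.val_one, Module.End.one_apply, map_smul] at h3
      rw [h3, smul_smul, ← Units.val_mul, ← map_mul, inv_mul_cancel, map_one, Units.val_one,
        one_smul]
  exact key b d

end

end Pool.Agent.H61.KR
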