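import Mathlib
import Pool.Agent.H61.KR.KTr
import Pool.Agent.H61.KR.KJW
import Pool.Agent.H61.KR.KAnn
import Pool.Agent.H61.KR.FSurj

set_option autoImplicit false

/-! # The eigenvalues of the Krammer matrices of a quantum finite braid are powers of `A` -/

namespace Pool.Agent.H61.KR

open Pool.Agent.H69.AMU Pool.Agent.H69.AMU.FusionPath Matrix Polynomial

/-- Polynomials in the braid matrix on a vector whose function is an eigenfunction. -/
lemma Phi_aeval {N c L : ℕ} {A : ℂ} (hA : Admissible N L A) (hL : N ≤ L) (b : BraidGroup N)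
    (w : FusionPath N c L → ℂ) (y : ℂ)
    (h : (rho A hA.1 N b).val (Phi A w) = y • Phi A w) (p : ℂ[X]) :
    Phi A (aeval (braidRep N c L A hA b).val p *ᵥ w) = p.eval y • Phi A w := by
  have hpow : ∀ m : ℕ, Phi A ((braidRep N c L A hA b).val ^ m *ᵥ w) = y ^ m • Phi A w := by
    intro m
    induction m with
    | zero => simp
    | succ m ih =>
      rw [pow_succ', ← Matrix.mulVec_mulVec, Phi_braidRep hA hL, ih, map_smul, h, smul_smul,
        pow_succ]
  induction p using Polynomial.induction_on' with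
  | add p q hp hq => rw [map_add, Matrix.add_mulVec, Phi_add, hp, hq, eval_add, add_smul]
  | monomial m a =>
    rw [← C_mul_X_pow_eq_monomial, map_mul, aeval_C, map_pow, aeval_X, eval_mul, eval_C, eval_pow,
      eval_X, Algebra.algebraMap_eq_smul_one, smul_mul_assoc, one_mul, Matrix.smul_mulVec, Phi_smul,
      hpow, smul_smul]

theorem root_zpow {n k : ℕ} (hk : 2 ≤ k) (hnk : 4 ≤ n * k) (b : pureBraid n)
    (hcase : ¬ EventuallyInfinite (constCol n k) (n * k - 4) b) (A : ℂ) (hgen : GenA A k)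
    (hA : Admissible (n * k) (n * k) A) (x : ℂ)
    (hx : x ∈ (kr n (tA hgen.ne) (sA hgen.ne k) (b : BraidGroup n)).val.charpoly.roots) :
    ∃ j : ℤ, x = A ^ j := by
  obtain ⟨Λ, hΛ⟩ := exists_ann (constCol n k) (n * k - 4) b hcase A hA
  -- an eigenvector
  have hx1 : (kr n (tA hgen.ne) (sA hgen.ne k) (b : BraidGroup n)).val.charpoly.IsRoot x :=
    (Polynomial.mem_roots'.1 hx).2
  have hdet : (scalar (Pr n) x - (kr n (tA hgen.ne) (sA hgen.ne k) (b : BraidGroup n)).val).det = 0 := by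
    rw [← Matrix.eval_charpoly]
    exact hx1
  obtain ⟨d, hd0, hd⟩ := Matrix.exists_mulVec_eq_zero_iff.2 hdet
  have hd1 : (kr n (tA hgen.ne) (sA hgen.ne k) (b : BraidGroup n)).val *ᵥ d = x • d := by
    rw [Matrix.sub_mulVec, sub_eq_zero] at hd
    rw [← hd]
    simp [Matrix.scalar_apply]
  rw [kr_mulVec] at hd1
  -- a path vector
  have hk1 : 1 ≤ k := by omega
  have hspan := mem_spanVec (A := A) hgen.ne hgen.v1 (n * k) (n * k) le_rfl hA.2.1 2 le_rfl
    (by omega) (xi n k A d) (homog_xi d) (rai_xi hgen hk1 d)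
  obtain ⟨w, hw⟩ := (Submodule.mem_span_range_iff_exists_fun ℂ).1 hspan
  have hw' : Phi A w = xi n k A d := hw
  have hc : n * k - 2 * 2 = n * k - 4 := by norm_num
  -- the eigenvalue
  set y : ℂ := (scal n A hgen.ne k (b : BraidGroup n) : ℂ) * x with hy
  have h1 := rho_xi hgen hk1 (b : BraidGroup n) d
  rw [hd1, xi_smul, smul_smul, ← hy] at h1
  set w1 := mixIdem (constCol n k) (n * k - 4) (n * k) A *ᵥ w with hw1
  have h2 : Phi A w1 = xi n k A d := by
    rw [hw1, Phi_mixIdem hgen.ne hA.2.1 le_rfl, hw']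
    intro a g hg1 hg2
    rw [hw']
    rw [offset_const n k a.2.le] at hg1 hg2
    have hg3 : (constCol n k).1 a = k := rfl
    rw [hg3] at hg2
    refine cap_xi d (j := a) a.2 hg1 ?_
    rw [Nat.succ_mul]
    exact hg2
  have h3 : (rho A hA.1 (n * k) (cabled (constCol n k) (b : BraidGroup n))).val (Phi A w1)
      = y • Phi A w1 := by
    rw [cabled_const n k hk1, h2]
    exact h1
  have h4 := Phi_aeval hA le_rfl (cabled (constCol n k) (b : BraidGroup n)) w1 y h3
    ((Λ.map fun h => (X - C (A ^ h) : ℂ[X])).prod)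
  rw [hw1, Matrix.mulVec_mulVec, hΛ, Matrix.zero_mulVec, ← hw1, h2] at h4
  have h5 : Phi A (0 : FusionPath (n * k) (n * k - 4) (n * k) → ℂ) = 0 := by simp [Phi]
  have h6 : xi n k A d ≠ 0 := by
    intro h0
    apply hd0
    apply xi_inj hgen hk
    rw [h0, xi_zero]
  have h7 : ((Λ.map fun h => (X - C (A ^ h) : ℂ[X])).prod).eval y = 0 := by
    have h8 := h4.symm
    rw [h5] at h8
    exact (smul_eq_zero.1 h8).resolve_right h6
  rw [eval_multiset_prod, Multiset.prod_eq_zero_iff, Multiset.map_map] at h7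
  obtain ⟨h, hh, hh'⟩ := Multiset.mem_map.1 h7
  have h8 : y = A ^ h := by
    simp only [Function.comp, eval_sub, eval_X, eval_C] at hh'
    exact sub_eq_zero.1 hh'
  obtain ⟨e, he⟩ := scal_zpow (k := k) hgen.ne (b : BraidGroup n)
  refine ⟨h - e, ?_⟩
  rw [zpow_sub₀ hgen.ne, ← h8, hy, he, mul_comm, mul_div_assoc,
    div_self (zpow_ne_zero e hgen.ne), mul_one]

/-- The traces of the powers. -/
theorem trace_zpow {n k : ℕ} (hk : 2 ≤ k) (hnk : 4 ≤ n * k) (b : pureBraid n)
    (hcase : ¬ EventuallyInfinite (constCol n k) (n * k - 4) b) (A : ℂ) (hgen : GenA A k)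
    (hA : Admissible (n * k) (n * k) A) :
    ∃ J : Multiset ℤ, ∀ m : ℕ,
      ((kr n (tA hgen.ne) (sA hgen.ne k) (b : BraidGroup n)).val ^ m).trace
        = (J.map fun j => A ^ ((m : ℤ) * j)).sum := by
  have hroot := root_zpow hk hnk b hcase A hgen hA
  set R := (kr n (tA hgen.ne) (sA hgen.ne k) (b : BraidGroup n)).val.charpoly.roots with hR
  choose! f hf using hroot
  refine ⟨R.map f, fun m => ?_⟩
  rw [Pool.Agent.H70.KR.trace_pow_eq_sum_roots, ← hR, Multiset.map_map]
  congr 1
  apply Multiset.map_congr rfl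
  intro x hx
  show x ^ m = A ^ ((m : ℤ) * f x)
  rw [mul_comm, _root_.zpow_mul, ← hf x hx, zpow_natCast]

end Pool.Agent.H61.KR
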