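import Mathlib
import Pool.Agent.H61.KR.KPow
import Pool.Agent.H61.KR.KLau
import Pool.Agent.H61.KR.KBridge
import Pool.Agent.H70.KR.New

set_option autoImplicit false

/-! # OUT2: the traces of the powers of a quantum finite braid in the Krammer representation -/

namespace Pool.Agent.H61.KR

open Pool.Agent.H69.AMU Matrix

/-- The homomorphism from Laurent polynomials given by two units. -/
noncomputable def phiU {K : Type*} [CommRing K] (t s : Kˣ) : LP →+* K :=
  (AddMonoidAlgebra.lift ℤ K (ℤ × ℤ)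
    ({ toFun := fun p => ((t ^ p.toAdd.1 * s ^ p.toAdd.2 : Kˣ) : K)
       map_one' := by simp
       map_mul' := fun p q => by
        rw [← Units.val_mul]
        congr 1
        simp only [toAdd_mul, Prod.fst_add, Prod.snd_add, _root_.zpow_add]
        rw [mul_mul_mul_comm] } : Multiplicative (ℤ × ℤ) →* K)).toRingHom

lemma phiU_mono {K : Type*} [CommRing K] (t s : Kˣ) (p : ℤ × ℤ) :
    phiU t s (mono p) = ((t ^ p.1 * s ^ p.2 : Kˣ) : K) := by
  show AddMonoidAlgebra.lift ℤ K (ℤ × ℤ) _ (AddMonoidAlgebra.single p 1) = _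
  rw [AddMonoidAlgebra.lift_single]
  simp

/-- The universal units. -/
noncomputable def tL : LPˣ := monoU (1, 0)

/-- The universal units. -/
noncomputable def sL : LPˣ := monoU (0, 1)

lemma map_kr_trace {K : Type*} [CommRing K] {n : ℕ} (f : LP →+* K) (t s : Kˣ)
    (ht : f (mono (1, 0)) = t) (hs : f (mono (0, 1)) = s) (b : BraidGroup n) (m : ℕ) :
    f (((kr n tL sL b).val ^ m).trace) = ((kr n t s b).val ^ m).trace := by
  have h1 : Units.map (f : LP →* K) tL = t := Units.ext ht
  have h2 : Units.map (f : LP →* K) sL = s := Units.ext hs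
  have h3 := kr_map f tL sL b
  rw [h1, h2] at h3
  rw [← h3, AddMonoidHom.map_trace, ← Matrix.map_pow]

/-- A transcendental Kauffman variable. -/
lemma exists_transcendental : ∃ A : ℂ, Transcendental ℤ A := by
  refine ⟨((liouvilleNumber 2 : ℝ) : ℂ), ?_⟩
  have h : Transcendental ℤ (liouvilleNumber ((2 : ℕ) : ℝ)) :=
    transcendental_liouvilleNumber (m := 2) le_rfl
  have h' : ((2 : ℕ) : ℝ) = 2 := by norm_num
  rw [h'] at h
  intro h1
  apply h
  have h2 : IsAlgebraic ℤ (algebraMap ℝ ℂ (liouvilleNumber 2)) := h1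
  rwa [isAlgebraic_algebraMap_iff (algebraMap ℝ ℂ).injective] at h2

lemma pow_ne_one_of_transcendental {A : ℂ} (hA : Transcendental ℤ A) {m : ℕ} (hm : m ≠ 0) :
    A ^ m ≠ 1 := by
  intro h
  apply hA
  refine ⟨Polynomial.X ^ m - 1, ?_, by simp [h]⟩
  exact (Polynomial.monic_X_pow_sub_C (1 : ℤ) hm).ne_zero

lemma ne_zero_of_transcendental {A : ℂ} (hA : Transcendental ℤ A) : A ≠ 0 := by
  rintro rfl
  exact hA (isAlgebraic_zero)

lemma admissible_of_transcendental {A : ℂ} (hA : Transcendental ℤ A) (N : ℕ) :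
    Admissible N N A := by
  refine ⟨ne_zero_of_transcendental hA, fun j _ => ?_, Or.inr le_rfl⟩
  have h4 := pow_ne_one_of_transcendental hA (by norm_num : 4 ≠ 0)
  rw [Ne, unknot_eq_zero_iff A (ne_zero_of_transcendental hA) h4 j, ← pow_mul]
  exact pow_ne_one_of_transcendental hA (by omega)

lemma genA_of_transcendental {A : ℂ} (hA : Transcendental ℤ A) {k : ℕ} (hk : 2 ≤ k) : GenA A k := by
  have h0 := ne_zero_of_transcendental hA
  have h4 : A ^ 4 ≠ 0 := pow_ne_zero 4 h0
  refine ⟨h0, ?_, ?_, pow_ne_one_of_transcendental hA (by norm_num)⟩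
  · intro h
    rw [inv_pow, inv_eq_one, ← pow_mul] at h
    exact pow_ne_one_of_transcendental hA (by omega) h
  · intro h
    obtain ⟨l, rfl⟩ : ∃ l, k = l + 1 := ⟨k - 1, by omega⟩
    have h1 : (A ^ 4)⁻¹ ^ l = 1 := by
      have h5 : A ^ 4 * (A ^ 4)⁻¹ = 1 := mul_inv_cancel₀ h4
      rw [← h]
      generalize A ^ 4 = x at h5 ⊢
      rw [pow_succ]
      linear_combination (-(x⁻¹ ^ l)) * h5
    rw [inv_pow, inv_eq_one, ← pow_mul] at h1
    exact pow_ne_one_of_transcendental hA (by omega) h1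

/-- **OUT2.** -/
theorem out2 {n : ℕ} (hn : 2 ≤ n) (b : pureBraid n)
    (hfin : ∀ k : ℕ, 2 ≤ k → Even k → ¬ EventuallyInfinite (constCol n k) (n * k - 4) b) :
    ∃ E : Multiset (ℤ × ℤ), Pool.Agent.H70.KR.Out2 n (b : BraidGroup n) E := by
  obtain ⟨A, htr⟩ := exists_transcendental
  have hA := ne_zero_of_transcendental htr
  have hU : {k : ℕ | 2 ≤ k ∧ Even k}.Infinite := by
    apply Set.infinite_of_not_bddAbove
    rintro ⟨B, hB⟩
    have := hB (show 2 * (B + 1) ∈ {k : ℕ | 2 ≤ k ∧ Even k} from ⟨by omega, even_two_mul _⟩)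
    omega
  obtain ⟨E, hE⟩ := laurent_family A hA htr
    (fun m => ((kr n tL sL (b : BraidGroup n)).val ^ m).trace) _ hU (by
      rintro k ⟨hk, hk'⟩
      have hgen := genA_of_transcendental htr hk
      have hnk : 4 ≤ n * k := by nlinarith
      obtain ⟨J, hJ⟩ := trace_zpow hk hnk b (hfin k hk hk') A hgen
        (admissible_of_transcendental htr _)
      refine ⟨J, fun m => ?_⟩
      rw [← hJ m]
      apply map_kr_trace
      · rw [evk_mono, tA_val]
        norm_num
      · rw [evk_mono, sA_val]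
        simp only [mul_zero, mul_one, zero_sub, _root_.zpow_neg]
        rw [inv_pow, ← pow_mul]
        norm_cast)
  refine ⟨E, ?_⟩
  intro K _ t s rho hrho m
  have h1 : rho = kr n t s := by
    apply PresentedGroup.ext
    intro g
    have e1 : (PresentedGroup.of g : BraidGroup n) = gen n g := (gen_of_lt g.2).symm
    rw [e1]
    apply Units.ext
    rw [hrho _ g.2, kr_gen_entries t s g.2]
  rw [h1, ← map_kr_trace (phiU t s) t s (by rw [phiU_mono]; simp) (by rw [phiU_mono]; simp), hE m,
    map_multiset_sum, Multiset.map_map]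
  congr 1
  apply Multiset.map_congr rfl
  intro p _
  show phiU t s (mono ((m : ℤ) • p)) = _
  rw [phiU_mono]
  rfl

end Pool.Agent.H61.KR
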