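import Mathlib
import Pool.Agent.H61.KR.KOut
import Pool.Agent.H69.AMM.Assem

set_option autoImplicit false

/-! # AMU conjecture in genus 0: the final assembly -/

namespace Pool.Agent.H61.KR

open Pool.Agent.H69.AMU Matrix LaurentPolynomial Pool.Agent.H70.KR

/-- OUT2 in the form of `Assem.lean`. -/
theorem out2' {n : ℕ} (hn : 2 ≤ n) (b : pureBraid n) (h : QFinite2 b) :
    ∃ E : Multiset (ℤ × ℤ), Out2 n (b : BraidGroup n) E :=
  out2 hn b fun k hk hk' => h k (by omega) hk'

/-- Krammer's representation over the Laurent polynomials with `s = 1/2`. -/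
noncomputable def kRep (n : ℕ) : KRep n where
  rho := kr n tU sU
  hrho k hk := kr_gen_entries tU sU hk

lemma isKr_one (n : ℕ) : IsKr n tU 1 (kr n tU 1) := fun _ hk => kr_gen_entries tU 1 hk

/-- **AMU conjecture in genus 0.** -/
theorem exists_colours_of_not_reducible {n : ℕ} (hn : 3 ≤ n) (b : pureBraid n)
    (hb : ¬ Reducible (b : BraidGroup n)) :
    ∃ (N : ℕ) (k : ColVec n N) (c : ℕ), (∀ i, 0 < k.1 i ∧ Even (k.1 i)) ∧ Even c ∧
      EventuallyInfinite k c b := by
  obtain ⟨N, k, c, h1, h2, _, h3⟩ :=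
    exists_colours hn (kRep n) (kr n tU 1) (isKr_one n) (fun b h => out2' (by omega) b h) b hb
  exact ⟨N, k, c, h1, h2, h3⟩

end Pool.Agent.H61.KR
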