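import Mathlib
import Pool.Agent.H61.KR.MCab

set_option autoImplicit false

/-! # Pure braids fix the colours -/

namespace Pool.Agent.H61.KR

open Pool.Agent.H69.AMU

/-- Pure braids fix the colours. Proof: for all `b` and `κ`, `actc n b κ = κ ∘ π` where
`π : ℕ → ℕ` is the permutation `permHom n b⁻¹` (or its inverse) extended by the identity
beyond `n`: show by `braid_induction` that `actc n b κ p = κ p'` for `p < n`, where
`p' = (permHom n b)⁻¹ p`, and `actc n b κ p = κ p` for `n ≤ p`
(generators: `permHom_gen`, a transposition). For a pure braid the permutation is `1`. -/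
lemma actc_pure (n : ℕ) (b : BraidGroup n) (hb : b ∈ pureBraid n) (κ : ℕ → ℕ) :
    actc n b κ = κ := by
  have hle : pureBraid n ≤ (actc n).ker := by
    rw [pureBraid_eq n]
    apply Subgroup.normalClosure_le_normal
    rintro _ ⟨i, hi, rfl⟩
    show actc n (gen n i * gen n i) = 1
    rw [map_mul, actc, braidLift_gen _ hi]
    refine Equiv.ext fun κ' => ?_
    show (κ' ∘ Equiv.swap i (i + 1)) ∘ Equiv.swap i (i + 1) = κ'
    funext x
    simp
  have h1 : actc n b = 1 := hle hb
  rw [h1]
  rfl

end Pool.Agent.H61.KR
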